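import Pool.Agent.H98.WG.AD

/-! The integer step of the monotonicity (S_A). -/

set_option autoImplicit false
open MeasureTheory ProbabilityTheory Matrix
open scoped ENNReal

namespace Pool.Agent.TH435.WG

section
variable {j : ℕ} {K : Type} [Fintype K] (κ g ν : K → ℝ) (l : K → Fin j → ℝ)
  (M : K → Matrix (Fin j) (Fin j) ℝ)

theorem meas_ss : Measurable (ss (j := j)) := by
  unfold ss dotProduct
  fun_prop

theorem meas_quad (κ g : ℝ) (l : Fin j → ℝ) (M : Matrix (Fin j) (Fin j) ℝ) :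
    Measurable (quad κ g l M) := by
  unfold quad
  simp only [dotProduct, Matrix.mulVec]
  fun_prop

theorem meas_QQ (k : K) : Measurable (QQ κ g l M k) := meas_quad _ _ _ _

theorem meas_qx (k : K) (i : Fin j) : Measurable (qx l M k i) := by
  unfold qx
  simp only [dotProduct, Matrix.mulVec]
  fun_prop

theorem meas_UU : Measurable (UU κ g ν l M) := by
  unfold UU
  refine Real.measurable_exp.comp ?_
  refine Finset.measurable_sum _ fun k _ => ?_
  exact (Real.measurable_log.comp (meas_QQ κ g l M k)).const_mul _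

theorem meas_rx (i : Fin j) : Measurable (rx κ g ν l M i) := by
  unfold rx
  refine Finset.measurable_sum _ fun k _ => ?_
  exact ((meas_qx l M k i).div (meas_QQ κ g l M k)).const_mul _

theorem meas_rxx (i : Fin j) : Measurable (rxx κ g ν l M i) := by
  unfold rxx
  refine Finset.measurable_sum _ fun k _ => ?_
  exact ((measurable_const.div (meas_QQ κ g l M k)).sub
    (((meas_qx l M k i).div (meas_QQ κ g l M k)).pow_const 2)).const_mul _

theorem meas_ry : Measurable (ry κ g ν l M) := by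
  unfold ry
  refine Finset.measurable_sum _ fun k _ => ?_
  exact (measurable_const.div (meas_QQ κ g l M k)).const_mul _

theorem meas_ryy : Measurable (ryy κ g ν l M) := by
  unfold ryy
  refine Finset.measurable_sum _ fun k _ => ?_
  exact (((measurable_const.div (meas_QQ κ g l M k)).pow_const 2).neg).const_mul _

variable {κ g ν l M} {ε : K → ℝ}

theorem poly_UU (hg : ∀ k, 0 ≤ g k) (hε : ∀ k, 0 < ε k) (hν : ∀ k, 0 ≤ ν k)
    (hlow : ∀ k (ξ : Fin j → ℝ), ε k ≤ quad (κ k) (g k) (l k) (M k) (ξ, 0)) :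
    Poly (UU κ g ν l M) := by
  refine Poly.congr (f := fun ω => ∏ k, quad (κ k) (g k) (l k) (M k) ω ^ ν k) ?_
    fun ω hω => (UU_eq hg hε hlow hω).symm
  refine Poly.prod _ fun k _ => ?_
  exact (Poly.quadP _ _ _ _).rpow (hν k) fun ω hω => (QQ_pos (M := M) hg hε hlow k hω).le

theorem poly_qx (k : K) (i : Fin j) : Poly (qx l M k i) := by
  unfold qx
  simp only [dotProduct, Matrix.mulVec]
  exact (Poly.const 2).mul ((Poly.const _).add
    (Poly.sum _ fun a _ => (Poly.const _).mul (Poly.coord a)))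

theorem poly_rx (hg : ∀ k, 0 ≤ g k) (hε : ∀ k, 0 < ε k)
    (hlow : ∀ k (ξ : Fin j → ℝ), ε k ≤ quad (κ k) (g k) (l k) (M k) (ξ, 0)) (i : Fin j) :
    Poly (rx κ g ν l M i) := by
  unfold rx
  exact Poly.sum _ fun k _ => (Poly.const _).mul
    ((poly_qx k i).div (hε k) fun ω hω => QQ_lower hg hlow k hω)

theorem poly_rxx (hg : ∀ k, 0 ≤ g k) (hε : ∀ k, 0 < ε k)
    (hlow : ∀ k (ξ : Fin j → ℝ), ε k ≤ quad (κ k) (g k) (l k) (M k) (ξ, 0)) (i : Fin j) :
    Poly (rxx κ g ν l M i) := by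
  unfold rxx
  exact Poly.sum _ fun k _ => (Poly.const _).mul
    (((Poly.const _).div (hε k) fun ω hω => QQ_lower hg hlow k hω).sub
      (((poly_qx k i).div (hε k) fun ω hω => QQ_lower hg hlow k hω).pow 2))

theorem poly_ry (hg : ∀ k, 0 ≤ g k) (hε : ∀ k, 0 < ε k)
    (hlow : ∀ k (ξ : Fin j → ℝ), ε k ≤ quad (κ k) (g k) (l k) (M k) (ξ, 0)) :
    Poly (ry κ g ν l M) := by
  unfold ry
  exact Poly.sum _ fun k _ => (Poly.const _).mul
    ((Poly.const _).div (hε k) fun ω hω => QQ_lower hg hlow k hω)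

theorem poly_ryy (hg : ∀ k, 0 ≤ g k) (hε : ∀ k, 0 < ε k)
    (hlow : ∀ k (ξ : Fin j → ℝ), ε k ≤ quad (κ k) (g k) (l k) (M k) (ξ, 0)) :
    Poly (ryy κ g ν l M) := by
  unfold ryy
  exact Poly.sum _ fun k _ => (Poly.const _).mul
    (((Poly.const _).div (hε k) fun ω hω => QQ_lower hg hlow k hω).pow 2).neg

/-- `D U / U` -/
noncomputable def DD (κ g ν : K → ℝ) (l : K → Fin j → ℝ)
    (M : K → Matrix (Fin j) (Fin j) ℝ) (ω : (Fin j → ℝ) × ℝ) : ℝ :=
  (∑ i, ω.1 i * rx κ g ν l M i ω) + 2 * ω.2 * ry κ g ν l M ω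

/-- `L U / U` -/
noncomputable def LL (δ : ℝ) (κ g ν : K → ℝ) (l : K → Fin j → ℝ)
    (M : K → Matrix (Fin j) (Fin j) ℝ) (ω : (Fin j → ℝ) × ℝ) : ℝ :=
  (∑ i, (rx κ g ν l M i ω ^ 2 + rxx κ g ν l M i ω)) +
      4 * ω.2 * (ry κ g ν l M ω ^ 2 + ryy κ g ν l M ω) + 2 * δ * ry κ g ν l M ω

theorem meas_coord (i : Fin j) : Measurable (fun ω : (Fin j → ℝ) × ℝ => ω.1 i) := by fun_prop

theorem meas_DD : Measurable (DD κ g ν l M) := by
  unfold DD
  exact (Finset.measurable_sum _ fun i _ => (meas_coord i).mul (meas_rx κ g ν l M i)).add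
    ((measurable_snd.const_mul 2).mul (meas_ry κ g ν l M))

theorem poly_DD (hg : ∀ k, 0 ≤ g k) (hε : ∀ k, 0 < ε k)
    (hlow : ∀ k (ξ : Fin j → ℝ), ε k ≤ quad (κ k) (g k) (l k) (M k) (ξ, 0)) :
    Poly (DD κ g ν l M) := by
  unfold DD
  exact (Poly.sum _ fun i _ => (Poly.coord i).mul (poly_rx hg hε hlow i)).add
    (((Poly.const 2).mul Poly.snd).mul (poly_ry hg hε hlow))

theorem meas_LL (δ : ℝ) : Measurable (LL δ κ g ν l M) := by
  unfold LL
  exact ((Finset.measurable_sum _ fun i _ => ((meas_rx κ g ν l M i).pow_const 2).add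
    (meas_rxx κ g ν l M i)).add ((measurable_snd.const_mul 4).mul
      (((meas_ry κ g ν l M).pow_const 2).add (meas_ryy κ g ν l M)))).add
      ((meas_ry κ g ν l M).const_mul _)

theorem poly_LL (δ : ℝ) (hg : ∀ k, 0 ≤ g k) (hε : ∀ k, 0 < ε k)
    (hlow : ∀ k (ξ : Fin j → ℝ), ε k ≤ quad (κ k) (g k) (l k) (M k) (ξ, 0)) :
    Poly (LL δ κ g ν l M) := by
  unfold LL
  exact ((Poly.sum _ fun i _ => ((poly_rx hg hε hlow i).pow 2).add
    (poly_rxx hg hε hlow i)).add (((Poly.const 4).mul Poly.snd).mul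
      (((poly_ry hg hε hlow).pow 2).add (poly_ryy hg hε hlow)))).add
      ((Poly.const _).mul (poly_ry hg hε hlow))

theorem int_comb {Ω : Type*} [MeasurableSpace Ω] {μ : Measure Ω} {f g h : Ω → ℝ}
    (hf : Integrable f μ) (hg : Integrable g μ) (hh : Integrable h μ) (a a' b : ℝ) :
    ∫ ω, (a * f ω + a' * g ω - b * h ω) ∂μ = a * ∫ ω, f ω ∂μ + a' * ∫ ω, g ω ∂μ -
      b * ∫ ω, h ω ∂μ := by
  have h1 : Integrable (fun ω => a * f ω + a' * g ω) μ := (hf.const_mul a).add (hg.const_mul a')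
  rw [integral_sub h1 (hh.const_mul b), integral_add (hf.const_mul a) (hg.const_mul a'),
    integral_const_mul, integral_const_mul, integral_const_mul]

theorem mul_pow_pred (m : ℕ) (s : ℝ) : (m : ℝ) * s ^ (m - 1) * s = m * s ^ m := by
  cases m with
  | zero => simp
  | succ n => simp only [Nat.add_sub_cancel, pow_succ]; ring

theorem ident_a (hI : S_INT) (hX : S_IBX) (hY : S_IBY) (δ : ℝ) (hδ : 0 < δ)
    (hg : ∀ k, 0 ≤ g k) (hε : ∀ k, 0 < ε k) (hν : ∀ k, 0 ≤ ν k) (hM : ∀ k, (M k)ᵀ = M k)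
    (hlow : ∀ k (ξ : Fin j → ℝ), ε k ≤ quad (κ k) (g k) (l k) (M k) (ξ, 0))
    (c : ℝ) (hc : 0 < c) (m : ℕ) :
    ((j : ℝ) + δ + 2 * m) * ∫ ω, ss ω ^ m * UU κ g ν l M ω ∂(mu j δ c) +
      ∫ ω, ss ω ^ m * (UU κ g ν l M ω * DD κ g ν l M ω) ∂(mu j δ c) =
      2 * c * ∫ ω, ss ω ^ (m + 1) * UU κ g ν l M ω ∂(mu j δ c) := by
  have mU := meas_UU κ g ν l M
  have pU := poly_UU (M := M) hg hε hν hlow
  have mS : ∀ m, Measurable (fun ω : (Fin j → ℝ) × ℝ => ss ω ^ m) := fun m => meas_ss.pow_const m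
  have pS : ∀ m, Poly (fun ω : (Fin j → ℝ) × ℝ => ss ω ^ m) := fun m => Poly.sfun.pow m
  -- the x-part
  have ex : ∀ i : Fin j, ∫ ω, ((ss ω ^ m * UU κ g ν l M ω +
      ω.1 i * ((m * ss ω ^ (m - 1) * (2 * ω.1 i)) * UU κ g ν l M ω +
        ss ω ^ m * (UU κ g ν l M ω * rx κ g ν l M i ω))) -
        2 * c * ω.1 i * (ω.1 i * (ss ω ^ m * UU κ g ν l M ω))) ∂(mu j δ c) = 0 := by
    intro i
    refine hX j δ c hδ hc i (fun ω => ω.1 i * (ss ω ^ m * UU κ g ν l M ω))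
      (fun ω => ss ω ^ m * UU κ g ν l M ω +
      ω.1 i * ((m * ss ω ^ (m - 1) * (2 * ω.1 i)) * UU κ g ν l M ω +
        ss ω ^ m * (UU κ g ν l M ω * rx κ g ν l M i ω))) ?_ ?_ ?_ ?_ ?_
    · exact (meas_coord i).mul ((mS m).mul mU)
    · exact ((mS m).mul mU).add ((meas_coord i).mul
        (((((mS (m-1)).const_mul _).mul ((meas_coord i).const_mul 2)).mul mU).add
          ((mS m).mul (mU.mul (meas_rx κ g ν l M i)))))
    · exact (Poly.coord i).mul ((pS m).mul pU)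
    · exact ((pS m).mul pU).add ((Poly.coord i).mul
        (((((Poly.const _).mul (pS (m-1))).mul ((Poly.const 2).mul (Poly.coord i))).mul pU).add
          ((pS m).mul (pU.mul (poly_rx hg hε hlow i)))))
    · intro ξ y hy
      have h1 := hasDerivAt_coord ξ i
      have h2 := (hasDerivAt_ss_x ξ y i).fun_pow m
      have h3 := hasDerivAt_UU_x (ν := ν) hg hε hM hlow i ξ y hy
      have h4 := h1.fun_mul (h2.fun_mul h3)
      simp only [zero_smul, add_zero, one_mul] at h4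
      exact h4
  have ey : ∫ ω, (ω.2 * (2 * ((m * ss ω ^ (m - 1) * 1) * UU κ g ν l M ω +
      ss ω ^ m * (UU κ g ν l M ω * ry κ g ν l M ω))) +
      (δ / 2) * (2 * (ss ω ^ m * UU κ g ν l M ω)) -
      c * ω.2 * (2 * (ss ω ^ m * UU κ g ν l M ω))) ∂(mu j δ c) = 0 := by
    refine hY j δ c hδ hc (fun ω => 2 * (ss ω ^ m * UU κ g ν l M ω))
      (fun ω => 2 * ((m * ss ω ^ (m - 1) * 1) * UU κ g ν l M ω +
      ss ω ^ m * (UU κ g ν l M ω * ry κ g ν l M ω))) ?_ ?_ ?_ ?_ ?_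
    · exact ((mS m).mul mU).const_mul 2
    · exact ((((((mS (m-1)).const_mul _).mul measurable_const)).mul mU).add
          ((mS m).mul (mU.mul (meas_ry κ g ν l M)))).const_mul 2
    · exact (Poly.const 2).mul ((pS m).mul pU)
    · exact (Poly.const 2).mul ((((((Poly.const _).mul (pS (m-1))).mul (Poly.const 1))).mul pU).add
          ((pS m).mul (pU.mul (poly_ry hg hε hlow))))
    · intro ξ y hy
      have h2 := (hasDerivAt_ss_y ξ y).fun_pow m
      have h3 := hasDerivAt_UU_y (ν := ν) hg hε hlow ξ y hy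
      exact (h2.fun_mul h3).const_mul 2
  -- integrability
  have ix : ∀ i : Fin j, Integrable (fun ω => ((ss ω ^ m * UU κ g ν l M ω +
      ω.1 i * ((m * ss ω ^ (m - 1) * (2 * ω.1 i)) * UU κ g ν l M ω +
        ss ω ^ m * (UU κ g ν l M ω * rx κ g ν l M i ω))) -
        2 * c * ω.1 i * (ω.1 i * (ss ω ^ m * UU κ g ν l M ω)))) (mu j δ c) := by
    intro i
    refine hI j δ c hδ hc _ ?_ ?_
    · exact (((mS m).mul mU).add ((meas_coord i).mul
        (((((mS (m-1)).const_mul _).mul ((meas_coord i).const_mul 2)).mul mU).add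
          ((mS m).mul (mU.mul (meas_rx κ g ν l M i)))))).sub
          (((meas_coord i).const_mul (2 * c)).mul ((meas_coord i).mul ((mS m).mul mU)))
    · exact (((pS m).mul pU).add ((Poly.coord i).mul
        (((((Poly.const _).mul (pS (m-1))).mul ((Poly.const 2).mul (Poly.coord i))).mul pU).add
          ((pS m).mul (pU.mul (poly_rx hg hε hlow i)))))).sub
          (((Poly.const (2 * c)).mul (Poly.coord i)).mul ((Poly.coord i).mul ((pS m).mul pU)))
  have iy : Integrable (fun ω => (ω.2 * (2 * ((m * ss ω ^ (m - 1) * 1) * UU κ g ν l M ω +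
      ss ω ^ m * (UU κ g ν l M ω * ry κ g ν l M ω))) +
      (δ / 2) * (2 * (ss ω ^ m * UU κ g ν l M ω)) -
      c * ω.2 * (2 * (ss ω ^ m * UU κ g ν l M ω)))) (mu j δ c) := by
    refine hI j δ c hδ hc _ ?_ ?_
    · exact ((measurable_snd.mul (((((((mS (m-1)).const_mul _).mul measurable_const)).mul mU).add
          ((mS m).mul (mU.mul (meas_ry κ g ν l M)))).const_mul 2)).add
          ((((mS m).mul mU).const_mul 2).const_mul _)).sub
          ((measurable_snd.const_mul c).mul (((mS m).mul mU).const_mul 2))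
    · exact ((Poly.snd.mul ((Poly.const 2).mul ((((((Poly.const _).mul (pS (m-1))).mul
          (Poly.const 1))).mul pU).add ((pS m).mul (pU.mul (poly_ry hg hε hlow)))))).add
          ((Poly.const _).mul ((Poly.const 2).mul ((pS m).mul pU)))).sub
          (((Poly.const c).mul Poly.snd).mul ((Poly.const 2).mul ((pS m).mul pU)))
  have hsum := integral_finsetSum Finset.univ (μ := mu j δ c) (fun i _ => ix i)
  simp only [ex, Finset.sum_const_zero] at hsum
  have htot := integral_add (integrable_finsetSum Finset.univ (fun i _ => ix i)) iy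
  rw [hsum, ey, add_zero] at htot
  have i1 : Integrable (fun ω => ss ω ^ m * UU κ g ν l M ω) (mu j δ c) :=
    hI j δ c hδ hc _ ((mS m).mul mU) ((pS m).mul pU)
  have i2 : Integrable (fun ω => ss ω ^ m * (UU κ g ν l M ω * DD κ g ν l M ω)) (mu j δ c) :=
    hI j δ c hδ hc _ ((mS m).mul (mU.mul meas_DD)) ((pS m).mul (pU.mul (poly_DD hg hε hlow)))
  have i3 : Integrable (fun ω => ss ω ^ (m + 1) * UU κ g ν l M ω) (mu j δ c) :=
    hI j δ c hδ hc _ ((mS (m+1)).mul mU) ((pS (m+1)).mul pU)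
  have hfin : ∫ ω, (((j : ℝ) + δ + 2 * m) * (ss ω ^ m * UU κ g ν l M ω) +
      ss ω ^ m * (UU κ g ν l M ω * DD κ g ν l M ω) -
      2 * c * (ss ω ^ (m + 1) * UU κ g ν l M ω)) ∂(mu j δ c) = 0 := by
    rw [← htot]
    refine integral_congr_ae (Filter.Eventually.of_forall fun ω => ?_)
    simp only
    have hs := mul_pow_pred m (ss ω)
    have hP : ss ω = (∑ i, ω.1 i * ω.1 i) + ω.2 := rfl
    rw [Finset.sum_sub_distrib, Finset.sum_add_distrib, Finset.sum_const, Finset.card_univ,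
      Fintype.card_fin, nsmul_eq_mul]
    have e1 : ∑ i, ω.1 i * (m * ss ω ^ (m - 1) * (2 * ω.1 i) * UU κ g ν l M ω +
        ss ω ^ m * (UU κ g ν l M ω * rx κ g ν l M i ω)) =
        2 * (m * ss ω ^ (m - 1) * UU κ g ν l M ω) * (∑ i, ω.1 i * ω.1 i) +
        ss ω ^ m * UU κ g ν l M ω * ∑ i, ω.1 i * rx κ g ν l M i ω := by
      rw [Finset.mul_sum, Finset.mul_sum, ← Finset.sum_add_distrib]
      exact Finset.sum_congr rfl fun i _ => by ring
    have e2 : ∑ i, 2 * c * ω.1 i * (ω.1 i * (ss ω ^ m * UU κ g ν l M ω)) =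
        2 * c * (ss ω ^ m * UU κ g ν l M ω) * (∑ i, ω.1 i * ω.1 i) := by
      rw [Finset.mul_sum]
      exact Finset.sum_congr rfl fun i _ => by ring
    rw [e1, e2]
    have hP2 : (∑ i, ω.1 i * ω.1 i) = ss ω - ω.2 := by rw [hP]; ring
    rw [hP2]
    unfold DD
    rw [pow_succ]
    linear_combination (-2 * UU κ g ν l M ω) * hs
  have hc1 := int_comb i1 i2 i3 ((j : ℝ) + δ + 2 * m) 1 (2 * c)
  simp only [one_mul] at hc1
  rw [hc1] at hfin
  linarith

theorem ident_b (hI : S_INT) (hX : S_IBX) (hY : S_IBY) (δ : ℝ) (hδ : 0 < δ)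
    (hg : ∀ k, 0 ≤ g k) (hε : ∀ k, 0 < ε k) (hν : ∀ k, 0 ≤ ν k) (hM : ∀ k, (M k)ᵀ = M k)
    (hlow : ∀ k (ξ : Fin j → ℝ), ε k ≤ quad (κ k) (g k) (l k) (M k) (ξ, 0))
    (c : ℝ) (hc : 0 < c) (m : ℕ) :
    2 * c * ∫ ω, ss ω ^ m * (UU κ g ν l M ω * DD κ g ν l M ω) ∂(mu j δ c) =
      ∫ ω, ss ω ^ m * (UU κ g ν l M ω * LL δ κ g ν l M ω) ∂(mu j δ c) +
      2 * m * ∫ ω, ss ω ^ (m - 1) * (UU κ g ν l M ω * DD κ g ν l M ω) ∂(mu j δ c) := by
  have mU := meas_UU κ g ν l M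
  have pU := poly_UU (M := M) hg hε hν hlow
  have mS : ∀ m, Measurable (fun ω : (Fin j → ℝ) × ℝ => ss ω ^ m) := fun m => meas_ss.pow_const m
  have pS : ∀ m, Poly (fun ω : (Fin j → ℝ) × ℝ => ss ω ^ m) := fun m => Poly.sfun.pow m
  have mUx : ∀ i, Measurable (fun ω => UU κ g ν l M ω * rx κ g ν l M i ω) :=
    fun i => mU.mul (meas_rx κ g ν l M i)
  have pUx : ∀ i, Poly (fun ω => UU κ g ν l M ω * rx κ g ν l M i ω) :=
    fun i => pU.mul (poly_rx hg hε hlow i)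
  have mUy : Measurable (fun ω => UU κ g ν l M ω * ry κ g ν l M ω) := mU.mul (meas_ry κ g ν l M)
  have pUy : Poly (fun ω => UU κ g ν l M ω * ry κ g ν l M ω) := pU.mul (poly_ry hg hε hlow)
  have m1 : ∀ i, Measurable (fun ω => (m * ss ω ^ (m - 1) * (2 * ω.1 i)) *
      (UU κ g ν l M ω * rx κ g ν l M i ω) + ss ω ^ m * ((UU κ g ν l M ω * rx κ g ν l M i ω) *
        rx κ g ν l M i ω + UU κ g ν l M ω * rxx κ g ν l M i ω)) := fun i =>
    ((((mS (m-1)).const_mul _).mul ((meas_coord i).const_mul 2)).mul (mUx i)).add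
      ((mS m).mul (((mUx i).mul (meas_rx κ g ν l M i)).add (mU.mul (meas_rxx κ g ν l M i))))
  have p1 : ∀ i, Poly (fun ω => (m * ss ω ^ (m - 1) * (2 * ω.1 i)) *
      (UU κ g ν l M ω * rx κ g ν l M i ω) + ss ω ^ m * ((UU κ g ν l M ω * rx κ g ν l M i ω) *
        rx κ g ν l M i ω + UU κ g ν l M ω * rxx κ g ν l M i ω)) := fun i =>
    ((((Poly.const _).mul (pS (m-1))).mul ((Poly.const 2).mul (Poly.coord i))).mul (pUx i)).add
      ((pS m).mul (((pUx i).mul (poly_rx hg hε hlow i)).add (pU.mul (poly_rxx hg hε hlow i))))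
  have m2 : Measurable (fun ω => 4 * ((m * ss ω ^ (m - 1) * 1) *
      (UU κ g ν l M ω * ry κ g ν l M ω) + ss ω ^ m * ((UU κ g ν l M ω * ry κ g ν l M ω) *
        ry κ g ν l M ω + UU κ g ν l M ω * ryy κ g ν l M ω))) :=
    (((((mS (m-1)).const_mul _).mul measurable_const).mul mUy).add
      ((mS m).mul ((mUy.mul (meas_ry κ g ν l M)).add (mU.mul (meas_ryy κ g ν l M))))).const_mul 4
  have p2 : Poly (fun ω => 4 * ((m * ss ω ^ (m - 1) * 1) *
      (UU κ g ν l M ω * ry κ g ν l M ω) + ss ω ^ m * ((UU κ g ν l M ω * ry κ g ν l M ω) *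
        ry κ g ν l M ω + UU κ g ν l M ω * ryy κ g ν l M ω))) :=
    (Poly.const 4).mul (((((Poly.const _).mul (pS (m-1))).mul (Poly.const 1)).mul pUy).add
      ((pS m).mul ((pUy.mul (poly_ry hg hε hlow)).add (pU.mul (poly_ryy hg hε hlow)))))
  have ex : ∀ i : Fin j, ∫ ω, (((m * ss ω ^ (m - 1) * (2 * ω.1 i)) *
      (UU κ g ν l M ω * rx κ g ν l M i ω) + ss ω ^ m * ((UU κ g ν l M ω * rx κ g ν l M i ω) *
        rx κ g ν l M i ω + UU κ g ν l M ω * rxx κ g ν l M i ω)) -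
        2 * c * ω.1 i * (ss ω ^ m * (UU κ g ν l M ω * rx κ g ν l M i ω))) ∂(mu j δ c) = 0 := by
    intro i
    refine hX j δ c hδ hc i (fun ω => ss ω ^ m * (UU κ g ν l M ω * rx κ g ν l M i ω)) _
      ((mS m).mul (mUx i)) (m1 i) ((pS m).mul (pUx i)) (p1 i) ?_
    intro ξ y hy
    have h2 := (hasDerivAt_ss_x ξ y i).fun_pow m
    have h3 := hasDerivAt_UU_x (ν := ν) hg hε hM hlow i ξ y hy
    have h5 := hasDerivAt_rx_x (ν := ν) hg hε hM hlow i ξ y hy
    have h4 := h2.fun_mul (h3.fun_mul h5)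
    simp only [zero_smul, add_zero] at h4
    exact h4
  have ey : ∫ ω, (ω.2 * (4 * ((m * ss ω ^ (m - 1) * 1) *
      (UU κ g ν l M ω * ry κ g ν l M ω) + ss ω ^ m * ((UU κ g ν l M ω * ry κ g ν l M ω) *
        ry κ g ν l M ω + UU κ g ν l M ω * ryy κ g ν l M ω))) +
      (δ / 2) * (4 * (ss ω ^ m * (UU κ g ν l M ω * ry κ g ν l M ω))) -
      c * ω.2 * (4 * (ss ω ^ m * (UU κ g ν l M ω * ry κ g ν l M ω)))) ∂(mu j δ c) = 0 := by
    refine hY j δ c hδ hc (fun ω => 4 * (ss ω ^ m * (UU κ g ν l M ω * ry κ g ν l M ω))) _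
      (((mS m).mul mUy).const_mul 4) m2 ((Poly.const 4).mul ((pS m).mul pUy)) p2 ?_
    intro ξ y hy
    have h2 := (hasDerivAt_ss_y ξ y).fun_pow m
    have h3 := hasDerivAt_UU_y (ν := ν) hg hε hlow ξ y hy
    have h5 := hasDerivAt_ry_y (ν := ν) hg hε hlow ξ y hy
    exact (h2.fun_mul (h3.fun_mul h5)).const_mul 4
  have ix : ∀ i : Fin j, Integrable (fun ω => (((m * ss ω ^ (m - 1) * (2 * ω.1 i)) *
      (UU κ g ν l M ω * rx κ g ν l M i ω) + ss ω ^ m * ((UU κ g ν l M ω * rx κ g ν l M i ω) *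
        rx κ g ν l M i ω + UU κ g ν l M ω * rxx κ g ν l M i ω)) -
        2 * c * ω.1 i * (ss ω ^ m * (UU κ g ν l M ω * rx κ g ν l M i ω)))) (mu j δ c) := by
    intro i
    exact hI j δ c hδ hc _ ((m1 i).sub (((meas_coord i).const_mul (2 * c)).mul
      ((mS m).mul (mUx i)))) ((p1 i).sub (((Poly.const (2 * c)).mul (Poly.coord i)).mul
      ((pS m).mul (pUx i))))
  have iy : Integrable (fun ω => (ω.2 * (4 * ((m * ss ω ^ (m - 1) * 1) *
      (UU κ g ν l M ω * ry κ g ν l M ω) + ss ω ^ m * ((UU κ g ν l M ω * ry κ g ν l M ω) *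
        ry κ g ν l M ω + UU κ g ν l M ω * ryy κ g ν l M ω))) +
      (δ / 2) * (4 * (ss ω ^ m * (UU κ g ν l M ω * ry κ g ν l M ω))) -
      c * ω.2 * (4 * (ss ω ^ m * (UU κ g ν l M ω * ry κ g ν l M ω))))) (mu j δ c) := by
    refine hI j δ c hδ hc _ ?_ ?_
    · exact ((measurable_snd.mul m2).add ((((mS m).mul mUy).const_mul 4).const_mul _)).sub
        ((measurable_snd.const_mul c).mul (((mS m).mul mUy).const_mul 4))
    · exact ((Poly.snd.mul p2).add ((Poly.const _).mul ((Poly.const 4).mul ((pS m).mul pUy)))).sub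
        (((Poly.const c).mul Poly.snd).mul ((Poly.const 4).mul ((pS m).mul pUy)))
  have hsum := integral_finsetSum Finset.univ (μ := mu j δ c) (fun i _ => ix i)
  simp only [ex, Finset.sum_const_zero] at hsum
  have htot := integral_add (integrable_finsetSum Finset.univ (fun i _ => ix i)) iy
  rw [hsum, ey, add_zero] at htot
  have i1 : Integrable (fun ω => ss ω ^ m * (UU κ g ν l M ω * LL δ κ g ν l M ω)) (mu j δ c) :=
    hI j δ c hδ hc _ ((mS m).mul (mU.mul (meas_LL δ))) ((pS m).mul (pU.mul (poly_LL δ hg hε hlow)))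
  have i2 : ∀ m : ℕ, Integrable (fun ω => ss ω ^ m * (UU κ g ν l M ω * DD κ g ν l M ω))
      (mu j δ c) := fun m =>
    hI j δ c hδ hc _ ((mS m).mul (mU.mul meas_DD)) ((pS m).mul (pU.mul (poly_DD hg hε hlow)))
  have hfin : ∫ ω, (ss ω ^ m * (UU κ g ν l M ω * LL δ κ g ν l M ω) +
      2 * m * (ss ω ^ (m - 1) * (UU κ g ν l M ω * DD κ g ν l M ω)) -
      2 * c * (ss ω ^ m * (UU κ g ν l M ω * DD κ g ν l M ω))) ∂(mu j δ c) = 0 := by
    rw [← htot]
    refine integral_congr_ae (Filter.Eventually.of_forall fun ω => ?_)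
    simp only
    rw [Finset.sum_sub_distrib, Finset.sum_add_distrib]
    have e1 : ∑ i, (m * ss ω ^ (m - 1) * (2 * ω.1 i)) * (UU κ g ν l M ω * rx κ g ν l M i ω) =
        2 * (m * ss ω ^ (m - 1) * UU κ g ν l M ω) * ∑ i, ω.1 i * rx κ g ν l M i ω := by
      rw [Finset.mul_sum]
      exact Finset.sum_congr rfl fun i _ => by ring
    have e2 : ∑ i, 2 * c * ω.1 i * (ss ω ^ m * (UU κ g ν l M ω * rx κ g ν l M i ω)) =
        2 * c * (ss ω ^ m * UU κ g ν l M ω) * ∑ i, ω.1 i * rx κ g ν l M i ω := by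
      rw [Finset.mul_sum]
      exact Finset.sum_congr rfl fun i _ => by ring
    have e3 : ∑ i, ss ω ^ m * ((UU κ g ν l M ω * rx κ g ν l M i ω) *
        rx κ g ν l M i ω + UU κ g ν l M ω * rxx κ g ν l M i ω) =
        ss ω ^ m * UU κ g ν l M ω * ∑ i, (rx κ g ν l M i ω ^ 2 + rxx κ g ν l M i ω) := by
      rw [Finset.mul_sum]
      exact Finset.sum_congr rfl fun i _ => by ring
    rw [e1, e2, e3]
    unfold DD LL
    ring
  have hc1 := int_comb i1 (i2 (m - 1)) (i2 m) 1 (2 * (m : ℝ)) (2 * c)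
  simp only [one_mul] at hc1
  rw [hc1] at hfin
  linarith

theorem D_nonneg (hI : S_INT) (hX : S_IBX) (hY : S_IBY) (δ : ℝ) (hδ : 0 < δ)
    (hg : ∀ k, 0 ≤ g k) (hε : ∀ k, 0 < ε k) (hν : ∀ k, 0 ≤ ν k) (hM : ∀ k, (M k)ᵀ = M k)
    (hlow : ∀ k (ξ : Fin j → ℝ), ε k ≤ quad (κ k) (g k) (l k) (M k) (ξ, 0))
    (hgr : ∀ k (ξ : Fin j → ℝ), (l k + M k *ᵥ ξ) ⬝ᵥ (l k + M k *ᵥ ξ) ≤
      g k * quad (κ k) (g k) (l k) (M k) (ξ, 0))
    (htr : ∀ k, 2 * g k ≤ (M k).trace + δ * g k)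
    (c : ℝ) (hc : 0 < c) (m : ℕ) :
    0 ≤ ∫ ω, ss ω ^ m * (UU κ g ν l M ω * DD κ g ν l M ω) ∂(mu j δ c) := by
  have hpos : ∀ᵐ ω ∂(mu j δ c), 0 < ω.2 := by
    have h1 : ∀ᵐ ω ∂((volume : Measure (Fin j → ℝ)).prod
        ((volume : Measure ℝ).restrict (Set.Ioi 0))), 0 < ω.2 := by
      have h2 : ∀ᵐ y ∂((volume : Measure ℝ).restrict (Set.Ioi 0)), 0 < y :=
        ae_restrict_mem measurableSet_Ioi
      exact (Measure.quasiMeasurePreserving_snd (μ := (volume : Measure (Fin j → ℝ)))).ae h2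
    exact (withDensity_absolutelyContinuous _ _).ae_le h1
  have hL : ∀ m : ℕ, 0 ≤ ∫ ω, ss ω ^ m * (UU κ g ν l M ω * LL δ κ g ν l M ω) ∂(mu j δ c) := by
    intro m
    refine integral_nonneg_of_ae ?_
    filter_upwards [hpos] with ω hω
    have h1 := ss_nonneg hω
    have h2 : 0 < UU κ g ν l M ω := Real.exp_pos _
    have h3 := L_nonneg (ν := ν) δ hg hε hν hlow hgr htr hω
    have h4 : 0 ≤ LL δ κ g ν l M ω := h3
    exact mul_nonneg (pow_nonneg h1 m) (mul_nonneg h2.le h4)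
  induction m with
  | zero =>
    have h := ident_b (ν := ν) hI hX hY δ hδ hg hε hν hM hlow c hc 0
    have h0 := hL 0
    simp only [Nat.cast_zero, mul_zero, zero_mul, add_zero] at h
    have : 0 < 2 * c := by linarith
    by_contra hcon
    push Not at hcon
    nlinarith
  | succ m ih =>
    have h := ident_b (ν := ν) hI hX hY δ hδ hg hε hν hM hlow c hc (m + 1)
    have h0 := hL (m + 1)
    simp only [Nat.add_sub_cancel] at h
    have : 0 < 2 * c := by linarith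
    have h5 : 0 ≤ 2 * ((m + 1 : ℕ) : ℝ) *
        ∫ ω, ss ω ^ m * (UU κ g ν l M ω * DD κ g ν l M ω) ∂(mu j δ c) := by positivity
    by_contra hcon
    push Not at hcon
    nlinarith

end

theorem A_holds (hI : S_INT) (hX : S_IBX) (hY : S_IBY) : S_A := by
  intro j δ hδ K _ κ g ε ν l M hg hε hν hM hlow hgr htr c hc m
  have hpos : ∀ᵐ ω ∂(mu j δ c), 0 < ω.2 := by
    have h1 : ∀ᵐ ω ∂((volume : Measure (Fin j → ℝ)).prod
        ((volume : Measure ℝ).restrict (Set.Ioi 0))), 0 < ω.2 := by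
      have h2 : ∀ᵐ y ∂((volume : Measure ℝ).restrict (Set.Ioi 0)), 0 < y :=
        ae_restrict_mem measurableSet_Ioi
      exact (Measure.quasiMeasurePreserving_snd (μ := (volume : Measure (Fin j → ℝ)))).ae h2
    exact (withDensity_absolutelyContinuous _ _).ae_le h1
  have hae : ∀ m : ℕ, (fun ω => ss ω ^ m * ∏ k, quad (κ k) (g k) (l k) (M k) ω ^ ν k)
      =ᵐ[mu j δ c] fun ω => ss ω ^ m * UU κ g ν l M ω := by
    intro m
    filter_upwards [hpos] with ω hω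
    rw [UU_eq hg hε hlow hω]
  have i1 : Integrable (fun ω => ss ω ^ m * UU κ g ν l M ω) (mu j δ c) :=
    hI j δ c hδ hc _ ((meas_ss.pow_const m).mul (meas_UU κ g ν l M))
      ((Poly.sfun.pow m).mul (poly_UU hg hε hν hlow))
  refine ⟨(integrable_congr (hae m)).2 i1, ?_⟩
  rw [integral_congr_ae (hae m), integral_congr_ae (hae (m + 1)),
    ← ident_a (ν := ν) hI hX hY δ hδ hg hε hν hM hlow c hc m]
  have := D_nonneg (ν := ν) hI hX hY δ hδ hg hε hν hM hlow hgr htr c hc m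
  linarith

end Pool.Agent.TH435.WG
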