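import Pool.Agent.H98.WG.Stmts

set_option autoImplicit false
open MeasureTheory ProbabilityTheory Matrix
open scoped ENNReal

namespace Pool.Agent.TH435.WG

theorem sch_mulVec_zero {n : ℕ} {t : ℝ} (ht : 0 < t) (η : Fin n → ℝ)
    (S : Matrix (Fin n) (Fin n) ℝ) (x : Fin (n + 1) → ℝ) :
    (build t η S *ᵥ x) 0 = √t * (√t * x 0 + η ⬝ᵥ fun i => x i.succ) := by
  have h : √t * √t = t := Real.mul_self_sqrt ht.le
  simp only [Matrix.mulVec, dotProduct, Fin.sum_univ_succ]
  rw [mul_add, ← mul_assoc, h, Finset.mul_sum]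
  simp only [build, Matrix.of_apply, Fin.cons_zero, Fin.cons_succ]
  congr 1
  apply Finset.sum_congr rfl
  intro j _
  ring

theorem sch_mulVec_succ {n : ℕ} {t : ℝ} (η : Fin n → ℝ)
    (S : Matrix (Fin n) (Fin n) ℝ) (x : Fin (n + 1) → ℝ) (i : Fin n) :
    (build t η S *ᵥ x) i.succ = η i * (√t * x 0 + η ⬝ᵥ fun i => x i.succ) +
      (S *ᵥ fun i => x i.succ) i := by
  simp only [Matrix.mulVec, dotProduct, Fin.sum_univ_succ]
  simp only [build, Matrix.of_apply, Fin.cons_zero, Fin.cons_succ]
  rw [mul_add, Finset.mul_sum, add_assoc, ← Finset.sum_add_distrib]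
  congr 1
  · ring
  · apply Finset.sum_congr rfl
    intro j _
    ring

theorem sch_quad {n : ℕ} {t : ℝ} (ht : 0 < t) (η : Fin n → ℝ)
    (S : Matrix (Fin n) (Fin n) ℝ) (x : Fin (n + 1) → ℝ) :
    x ⬝ᵥ (build t η S *ᵥ x) = (√t * x 0 + η ⬝ᵥ fun i => x i.succ) ^ 2 +
      (fun i => x (Fin.succ i)) ⬝ᵥ (S *ᵥ fun i => x i.succ) := by
  rw [dotProduct, Fin.sum_univ_succ, sch_mulVec_zero ht]
  have h1 : ∀ i : Fin n, x i.succ * (build t η S *ᵥ x) i.succ =
      (√t * x 0 + η ⬝ᵥ fun i => x i.succ) * (η i * x i.succ) +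
        x i.succ * (S *ᵥ fun i => x i.succ) i := by
    intro i
    rw [sch_mulVec_succ]
    ring
  rw [Finset.sum_congr rfl fun i _ => h1 i, Finset.sum_add_distrib, ← Finset.mul_sum]
  have h2 : ∑ i : Fin n, η i * x i.succ = η ⬝ᵥ fun i => x i.succ := rfl
  have h3 : ∑ i : Fin n, x i.succ * (S *ᵥ fun i => x i.succ) i =
      (fun i => x (Fin.succ i)) ⬝ᵥ (S *ᵥ fun i => x i.succ) := rfl
  rw [h2, h3]
  ring

theorem sch_herm {n : ℕ} {t : ℝ} (η : Fin n → ℝ) (S : Matrix (Fin n) (Fin n) ℝ) :
    (build t η S).IsHermitian ↔ S.IsHermitian := by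
  constructor
  · intro h
    apply Matrix.IsHermitian.ext
    intro i j
    have h1 := h.apply i.succ j.succ
    simp only [build, Matrix.of_apply, Fin.cons_succ, star_trivial] at h1
    rw [star_trivial]
    linarith [mul_comm (η i) (η j)]
  · intro h
    apply Matrix.IsHermitian.ext
    intro i j
    rw [star_trivial]
    refine Fin.cases ?_ (fun i' => ?_) i <;> refine Fin.cases ?_ (fun j' => ?_) j
    · rfl
    · rfl
    · rfl
    · have h1 := h.apply i' j'
      rw [star_trivial] at h1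
      simp only [build, Matrix.of_apply, Fin.cons_succ]
      rw [h1]
      ring

theorem sch_posDef {n : ℕ} {t : ℝ} (ht : 0 < t) (η : Fin n → ℝ) (S : Matrix (Fin n) (Fin n) ℝ) :
    (build t η S).PosDef ↔ S.PosDef := by
  have hs : 0 < √t := Real.sqrt_pos.2 ht
  rw [Matrix.posDef_iff_dotProduct_mulVec, Matrix.posDef_iff_dotProduct_mulVec, sch_herm]
  constructor
  · rintro ⟨h1, h2⟩
    refine ⟨h1, fun y hy => ?_⟩
    set x : Fin (n + 1) → ℝ := Fin.cons (-(η ⬝ᵥ y) / √t) y with hx
    have hx0 : x ≠ 0 := by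
      intro h
      apply hy
      funext i
      have := congrFun h i.succ
      rw [hx, Fin.cons_succ] at this
      exact this
    have h3 := h2 hx0
    rw [star_trivial, sch_quad ht] at h3
    have h4 : (fun i => x (Fin.succ i)) = y := by
      funext i
      rw [hx, Fin.cons_succ]
    rw [h4] at h3
    have h5 : √t * x 0 + η ⬝ᵥ y = 0 := by
      rw [hx, Fin.cons_zero]
      field_simp
      ring
    rw [h5] at h3
    rw [star_trivial]
    simpa using h3
  · rintro ⟨h1, h2⟩
    refine ⟨h1, fun x hx => ?_⟩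
    rw [star_trivial, sch_quad ht]
    by_cases h3 : (fun i => x (Fin.succ i)) = 0
    · have h4 : x 0 ≠ 0 := by
        intro h
        apply hx
        funext i
        refine Fin.cases ?_ (fun i' => ?_) i
        · exact h
        · exact congrFun h3 i'
      rw [h3]
      simp only [dotProduct_zero, Matrix.mulVec_zero, add_zero]
      have : √t * x 0 ≠ 0 := mul_ne_zero hs.ne' h4
      positivity
    · have h4 := h2 h3
      rw [star_trivial] at h4
      have h5 : 0 ≤ (√t * x 0 + η ⬝ᵥ fun i => x i.succ) ^ 2 := sq_nonneg _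
      linarith

/-- splitting off the first index -/
noncomputable def schE (n : ℕ) : Unit ⊕ Fin n ≃ Fin (n + 1) :=
  Equiv.ofBijective (Sum.elim (fun _ => 0) Fin.succ) (by
    constructor
    · rintro (⟨⟩ | i) (⟨⟩ | j) h
      · rfl
      · exact absurd h (Fin.succ_ne_zero j).symm
      · exact absurd h (Fin.succ_ne_zero i)
      · exact congrArg Sum.inr (Fin.succ_injective n h)
    · intro i
      refine Fin.cases ?_ (fun i' => ?_) i
      · exact ⟨Sum.inl (), rfl⟩
      · exact ⟨Sum.inr i', rfl⟩)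

theorem sch_det {n : ℕ} {t : ℝ} (ht : 0 < t) (η : Fin n → ℝ) (S : Matrix (Fin n) (Fin n) ℝ) :
    (build t η S).det = t * S.det := by
  rw [← Matrix.det_submatrix_equiv_self (schE n)]
  have h1 : (build t η S).submatrix (schE n) (schE n) =
      Matrix.fromBlocks (Matrix.of fun (_ _ : Unit) => t) (Matrix.of fun (_ : Unit) j => √t * η j)
        (Matrix.of fun i (_ : Unit) => √t * η i) (Matrix.of fun i j => S i j + η i * η j) := by
    ext i j
    rcases i with ⟨⟩ | i <;> rcases j with ⟨⟩ | j <;> rfl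
  rw [h1]
  have hinv : (Matrix.of fun (_ _ : Unit) => t) * (Matrix.of fun (_ _ : Unit) => t⁻¹) = 1 := by
    ext i j
    simp [Matrix.mul_apply, ht.ne']
  have hinv' : (Matrix.of fun (_ _ : Unit) => t⁻¹) * (Matrix.of fun (_ _ : Unit) => t) = 1 := by
    ext i j
    simp [Matrix.mul_apply, ht.ne']
  let I : Invertible (Matrix.of fun (_ _ : Unit) => t) := ⟨_, hinv', hinv⟩
  rw [Matrix.det_fromBlocks₁₁]
  congr 1
  · simp
  · congr 1
    ext i j
    have hst : √t * √t = t := Real.mul_self_sqrt ht.le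
    have h2 : (⅟(Matrix.of fun (_ _ : Unit) => t)) = Matrix.of fun (_ _ : Unit) => t⁻¹ := rfl
    rw [h2]
    simp only [Matrix.sub_apply, Matrix.of_apply, Matrix.mul_apply, Finset.univ_unique,
      Finset.sum_singleton]
    have h3 : √t * η i * t⁻¹ * (√t * η j) = η i * η j := by
      calc √t * η i * t⁻¹ * (√t * η j) = (√t * √t) * t⁻¹ * (η i * η j) := by ring
        _ = η i * η j := by rw [hst, mul_inv_cancel₀ ht.ne', one_mul]
    rw [h3]
    ring

theorem schur_holds : S_SCHUR := by
  intro n t η S ht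
  refine ⟨sch_posDef ht η S, sch_det ht η S, ?_, ?_⟩
  · simp only [Matrix.trace, Matrix.diag_apply, Fin.sum_univ_succ, dotProduct]
    simp only [build, Matrix.of_apply, Fin.cons_zero, Fin.cons_succ, Finset.sum_add_distrib]
    ring
  · intro q hq
    have h1 : (build t η S).submatrix (Fin.castLE (Nat.succ_le_succ hq))
        (Fin.castLE (Nat.succ_le_succ hq)) =
        build t (fun i => η (Fin.castLE hq i)) (S.submatrix (Fin.castLE hq) (Fin.castLE hq)) := by
      ext i j
      refine Fin.cases ?_ (fun i' => ?_) i <;> refine Fin.cases ?_ (fun j' => ?_) j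
      · rfl
      · rfl
      · rfl
      · rfl
    rw [h1, sch_det ht]

end Pool.Agent.TH435.WG
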