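import Pool.Agent.H98.WG.Pd

/-! Job WG-CORE (helper263): the core inequality from QUAD, A, FRAC, MUG (and INT, IBX, IBY). -/

set_option autoImplicit false
open MeasureTheory ProbabilityTheory Matrix
open scoped ENNReal

namespace Pool.Agent.TH435.WG

/-- the measure `y^(δ/2-1) dξ dy` on `ℝ^j × (0,∞)` -/
noncomputable def mu0 (j : ℕ) (δ : ℝ) : Measure ((Fin j → ℝ) × ℝ) :=
  ((volume : Measure (Fin j → ℝ)).prod ((volume : Measure ℝ).restrict (Set.Ioi 0))).withDensity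
    fun ω => ENNReal.ofReal (ω.2 ^ (δ / 2 - 1))

theorem measurable_ss {j : ℕ} : Measurable (ss : (Fin j → ℝ) × ℝ → ℝ) := by
  unfold ss dotProduct; fun_prop

theorem measurable_quad {j : ℕ} (κ g : ℝ) (l : Fin j → ℝ) (M : Matrix (Fin j) (Fin j) ℝ) :
    Measurable (quad κ g l M) := by
  unfold quad dotProduct mulVec dotProduct; fun_prop

theorem mu_eq (j : ℕ) (δ c : ℝ) : mu j δ c =
    (mu0 j δ).withDensity fun ω => ENNReal.ofReal (Real.exp (-(c * ss ω))) := by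
  unfold mu mu0
  have hs := measurable_ss (j := j)
  rw [← withDensity_mul _ (by fun_prop) (by fun_prop)]
  congr 1
  funext ω
  rw [Pi.mul_apply, mul_comm (ENNReal.ofReal _), ← ENNReal.ofReal_mul (by positivity)]
  rfl

theorem ae_y_pos (j : ℕ) (δ : ℝ) : ∀ᵐ ω ∂(mu0 j δ), 0 < ω.2 := by
  unfold mu0
  refine (withDensity_absolutelyContinuous _ _).ae_le ?_
  have h : ∀ᵐ y ∂((volume : Measure ℝ).restrict (Set.Ioi 0)), (0 : ℝ) < y :=
    ae_restrict_mem measurableSet_Ioi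
  exact Measure.quasiMeasurePreserving_snd.ae h

theorem ss_pos {j : ℕ} (ω : (Fin j → ℝ) × ℝ) (h : 0 < ω.2) : 0 < ss ω := by
  unfold ss
  have : 0 ≤ ω.1 ⬝ᵥ ω.1 := by
    unfold dotProduct
    exact Finset.sum_nonneg fun i _ => mul_self_nonneg _
  linarith

theorem ae_mu_pos (j : ℕ) (δ c : ℝ) : ∀ᵐ ω ∂(mu j δ c), 0 < ω.2 := by
  rw [mu_eq]
  exact (withDensity_absolutelyContinuous _ _).ae_le (ae_y_pos j δ)

theorem ae_ss_pos (j : ℕ) (δ : ℝ) : ∀ᵐ ω ∂(mu0 j δ), 0 < ss ω := by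
  filter_upwards [ae_y_pos j δ] with ω h using ss_pos ω h

/-- integrals against `mu` -/
theorem lintegral_mu (j : ℕ) (δ c : ℝ) (F : (Fin j → ℝ) × ℝ → ℝ≥0∞) (hF : Measurable F) :
    ∫⁻ ω, F ω ∂(mu j δ c) = ∫⁻ ω, ENNReal.ofReal (Real.exp (-(c * ss ω))) * F ω ∂(mu0 j δ) := by
  have hs := measurable_ss (j := j)
  rw [mu_eq, lintegral_withDensity_eq_lintegral_mul _ (by fun_prop) hF]
  rfl

theorem hasDerivAt_dot {j : ℕ} (ξ : Fin j → ℝ) (i : Fin j) :
    HasDerivAt (fun t : ℝ => (ξ + t • Pi.single i (1 : ℝ)) ⬝ᵥ (ξ + t • Pi.single i (1 : ℝ)))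
      (2 * ξ i) 0 := by
  have h : (fun t : ℝ => (ξ + t • Pi.single i (1 : ℝ)) ⬝ᵥ (ξ + t • Pi.single i (1 : ℝ))) =
      fun t : ℝ => ξ ⬝ᵥ ξ + 2 * ξ i * t + t ^ 2 := by
    funext t
    simp only [add_dotProduct, dotProduct_add, smul_dotProduct, dotProduct_smul,
      single_one_dotProduct, dotProduct_single_one, smul_eq_mul, Pi.add_apply, Pi.smul_apply,
      Pi.single_eq_same]
    ring
  rw [h]
  have h1 : HasDerivAt (fun t : ℝ => ξ ⬝ᵥ ξ + 2 * ξ i * t) (2 * ξ i * 1) 0 :=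
    ((hasDerivAt_id (0 : ℝ)).const_mul (2 * ξ i)).const_add (ξ ⬝ᵥ ξ)
  have h2 : HasDerivAt (fun t : ℝ => t ^ 2) ((2 : ℕ) * (0 : ℝ) ^ (2 - 1)) 0 := hasDerivAt_pow 2 0
  exact (h1.add h2).congr_deriv (by simp)

theorem sq_le_ss {j : ℕ} (ω : (Fin j → ℝ) × ℝ) (h : 0 < ω.2) (i : Fin j) : ω.1 i ^ 2 ≤ ss ω := by
  unfold ss dotProduct
  have := Finset.single_le_sum (f := fun i => ω.1 i * ω.1 i) (fun i _ => mul_self_nonneg _)
    (Finset.mem_univ i)
  nlinarith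

/-- the exact recursion for the moments of `s` -/
theorem moment_rec (hX : S_IBX) (hY : S_IBY) (hI : S_INT) (j : ℕ) (δ : ℝ) (hδ : 0 < δ) (c : ℝ)
    (hc : 0 < c) (m : ℕ) :
    ((j : ℝ) + δ + 2 * m) * ∫ ω, ss ω ^ m ∂(mu j δ c) = 2 * c * ∫ ω, ss ω ^ (m + 1) ∂(mu j δ c) := by
  have hs := measurable_ss (j := j)
  have key : ∀ (C : ℝ) (N : ℕ) (f : (Fin j → ℝ) × ℝ → ℝ),
      (∀ ω : (Fin j → ℝ) × ℝ, 0 < ω.2 → |f ω| ≤ C * (1 + ss ω) ^ N) → Poly f := by
    intro C N f h; exact ⟨C, N, h⟩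
  have hs1 : ∀ (a : ℕ) (ω : (Fin j → ℝ) × ℝ), 0 < ω.2 → |ss ω ^ a| ≤ (1 + ss ω) ^ a := by
    intro a ω hω
    have h0 := ss_pos ω hω
    rw [abs_of_nonneg (by positivity)]
    exact pow_le_pow_left₀ h0.le (by linarith) a
  have hxi : ∀ (i : Fin j) (ω : (Fin j → ℝ) × ℝ), 0 < ω.2 → |ω.1 i| ≤ 1 + ss ω := by
    intro i ω hω
    have h1 := sq_le_ss ω hω i
    have h0 := ss_pos ω hω
    rw [abs_le]; constructor <;> nlinarith
  have hPs : ∀ a : ℕ, Poly (fun ω : (Fin j → ℝ) × ℝ => ss ω ^ a) := fun a =>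
    key 1 a _ fun ω hω => by rw [one_mul]; exact hs1 a ω hω
  have hPx : ∀ (i : Fin j) (a : ℕ), Poly (fun ω : (Fin j → ℝ) × ℝ => ω.1 i ^ 2 * ss ω ^ a) :=
    fun i a => key 1 (a + 1) _ fun ω hω => by
      have h0 := ss_pos ω hω
      rw [one_mul, abs_mul, pow_succ' (1 + ss ω), abs_of_nonneg (sq_nonneg (ω.1 i))]
      exact mul_le_mul ((sq_le_ss ω hω i).trans (by linarith)) (hs1 a ω hω) (abs_nonneg _)
        (by positivity)
  have hIs : ∀ a : ℕ, Integrable (fun ω : (Fin j → ℝ) × ℝ => ss ω ^ a) (mu j δ c) := fun a =>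
    hI j δ c hδ hc _ (by fun_prop) (hPs a)
  have hIx : ∀ (i : Fin j) (a : ℕ),
      Integrable (fun ω : (Fin j → ℝ) × ℝ => ω.1 i ^ 2 * ss ω ^ a) (mu j δ c) := fun i a =>
    hI j δ c hδ hc _ (by fun_prop) (hPx i a)
  have hPy : ∀ a : ℕ, Poly (fun ω : (Fin j → ℝ) × ℝ => ω.2 * ss ω ^ a) := fun a =>
    key 1 (a + 1) _ fun ω hω => by
      have h0 := ss_pos ω hω
      have hd : 0 ≤ ω.1 ⬝ᵥ ω.1 := by
        unfold dotProduct
        exact Finset.sum_nonneg fun i _ => mul_self_nonneg _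
      have hle : ω.2 ≤ 1 + ss ω := by unfold ss; linarith
      rw [one_mul, abs_mul, pow_succ', abs_of_pos hω]
      exact mul_le_mul hle (hs1 a ω hω) (abs_nonneg _) (by positivity)
  have hIy : ∀ a : ℕ, Integrable (fun ω : (Fin j → ℝ) × ℝ => ω.2 * ss ω ^ a) (mu j δ c) :=
    fun a => hI j δ c hδ hc _ (by fun_prop) (hPy a)
  -- direction ξ_i
  have e1 : ∀ i : Fin j, ∫ ω, ss ω ^ m ∂(mu j δ c) +
      2 * m * ∫ ω, ω.1 i ^ 2 * ss ω ^ (m - 1) ∂(mu j δ c) -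
      2 * c * ∫ ω, ω.1 i ^ 2 * ss ω ^ m ∂(mu j δ c) = 0 := by
    intro i
    have h := hX j δ c hδ hc i (fun ω => ω.1 i * ss ω ^ m)
      (fun ω => ss ω ^ m + 2 * m * (ω.1 i ^ 2 * ss ω ^ (m - 1))) (by fun_prop) (by fun_prop)
      (key 1 (m + 1) _ fun ω hω => by
        have h0 := ss_pos ω hω
        rw [one_mul, abs_mul, pow_succ']
        exact mul_le_mul (hxi i ω hω) (hs1 m ω hω) (abs_nonneg _) (by positivity))
      (key (1 + 2 * m) (m + (m - 1 + 1)) _ fun ω hω => by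
        have h0 := ss_pos ω hω
        have a1 : |ω.1 i ^ 2 * ss ω ^ (m - 1)| ≤ (1 + ss ω) ^ (m - 1 + 1) := by
          rw [abs_mul, pow_succ' (1 + ss ω), abs_of_nonneg (sq_nonneg (ω.1 i))]
          exact mul_le_mul ((sq_le_ss ω hω i).trans (by linarith)) (hs1 _ ω hω) (abs_nonneg _)
            (by positivity)
        have a2 : (1 + ss ω) ^ m ≤ (1 + ss ω) ^ (m + (m - 1 + 1)) :=
          pow_le_pow_right₀ (by linarith) (by omega)
        have a3 : (1 + ss ω) ^ (m - 1 + 1) ≤ (1 + ss ω) ^ (m + (m - 1 + 1)) :=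
          pow_le_pow_right₀ (by linarith) (by omega)
        calc |ss ω ^ m + 2 * m * (ω.1 i ^ 2 * ss ω ^ (m - 1))| ≤ |ss ω ^ m| +
              |2 * (m : ℝ) * (ω.1 i ^ 2 * ss ω ^ (m - 1))| := abs_add_le _ _
          _ ≤ (1 + ss ω) ^ (m + (m - 1 + 1)) + 2 * m * (1 + ss ω) ^ (m + (m - 1 + 1)) := by
              rw [abs_mul (2 * (m : ℝ)), abs_of_nonneg (by positivity : (0 : ℝ) ≤ 2 * m)]
              exact add_le_add ((hs1 m ω hω).trans a2)
                (mul_le_mul_of_nonneg_left (a1.trans a3) (by positivity))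
          _ = (1 + 2 * m) * (1 + ss ω) ^ (m + (m - 1 + 1)) := by ring)
      (fun ξ y hy => by
        have hd : HasDerivAt (fun t : ℝ => ss (ξ + t • Pi.single i (1 : ℝ), y)) (2 * ξ i) 0 :=
          (hasDerivAt_dot ξ i).add_const y
        have hp := hd.fun_pow m
        have hl : HasDerivAt (fun t : ℝ => (ξ + t • Pi.single i (1 : ℝ) : Fin j → ℝ) i) 1 0 := by
          have : (fun t : ℝ => (ξ + t • Pi.single i (1 : ℝ) : Fin j → ℝ) i) =
              fun t : ℝ => ξ i + t := by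
            funext t; simp
          rw [this]
          exact (hasDerivAt_id (0 : ℝ)).const_add (ξ i)
        refine (hl.fun_mul hp).congr_deriv ?_
        simp only [zero_smul, add_zero, one_mul]
        ring)
    have hsplit : (fun ω : (Fin j → ℝ) × ℝ => ss ω ^ m + 2 * m * (ω.1 i ^ 2 * ss ω ^ (m - 1)) -
        2 * c * ω.1 i * (ω.1 i * ss ω ^ m)) = fun ω => ss ω ^ m +
        2 * m * (ω.1 i ^ 2 * ss ω ^ (m - 1)) - 2 * c * (ω.1 i ^ 2 * ss ω ^ m) := by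
      funext ω; ring
    have hadd : Integrable (fun ω : (Fin j → ℝ) × ℝ => ss ω ^ m +
        2 * m * (ω.1 i ^ 2 * ss ω ^ (m - 1))) (mu j δ c) :=
      (hIs m).add ((hIx i (m - 1)).const_mul _)
    rw [hsplit, integral_sub hadd ((hIx i m).const_mul _),
      integral_add (hIs m) ((hIx i (m - 1)).const_mul _), integral_const_mul,
      integral_const_mul] at h
    exact h
  -- direction y
  have e2 : 2 * m * ∫ ω, ω.2 * ss ω ^ (m - 1) ∂(mu j δ c) + δ * ∫ ω, ss ω ^ m ∂(mu j δ c) -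
      2 * c * ∫ ω, ω.2 * ss ω ^ m ∂(mu j δ c) = 0 := by
    have h := hY j δ c hδ hc (fun ω => 2 * ss ω ^ m)
      (fun ω => 2 * (m * ss ω ^ (m - 1))) (by fun_prop) (by fun_prop)
      (key 2 m _ fun ω hω => by
        rw [abs_mul, abs_of_pos (by norm_num : (0 : ℝ) < 2)]
        exact mul_le_mul_of_nonneg_left (hs1 m ω hω) (by norm_num))
      (key (2 * m) (m - 1) _ fun ω hω => by
        rw [← mul_assoc, abs_mul, abs_of_nonneg (by positivity : (0 : ℝ) ≤ 2 * m)]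
        exact mul_le_mul_of_nonneg_left (hs1 (m - 1) ω hω) (by positivity))
      (fun ξ y hy => by
        have hd : HasDerivAt (fun t : ℝ => ss (ξ, t)) 1 y :=
          (hasDerivAt_id y).const_add (ξ ⬝ᵥ ξ)
        refine ((hd.fun_pow m).const_mul (2 : ℝ)).congr_deriv ?_
        ring)
    have hsplit : (fun ω : (Fin j → ℝ) × ℝ => ω.2 * (2 * (m * ss ω ^ (m - 1))) +
        (δ / 2) * (2 * ss ω ^ m) - c * ω.2 * (2 * ss ω ^ m)) = fun ω =>
        2 * m * (ω.2 * ss ω ^ (m - 1)) + δ * ss ω ^ m - 2 * c * (ω.2 * ss ω ^ m) := by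
      funext ω; ring
    have hadd : Integrable (fun ω : (Fin j → ℝ) × ℝ => 2 * m * (ω.2 * ss ω ^ (m - 1)) +
        δ * ss ω ^ m) (mu j δ c) := ((hIy (m - 1)).const_mul _).add ((hIs m).const_mul _)
    rw [hsplit, integral_sub hadd
      ((hIy m).const_mul _), integral_add ((hIy (m - 1)).const_mul _) ((hIs m).const_mul _),
      integral_const_mul, integral_const_mul, integral_const_mul] at h
    exact h
  -- sum
  have hsum : ∀ a : ℕ, ∑ i, ∫ ω, ω.1 i ^ 2 * ss ω ^ a ∂(mu j δ c) +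
      ∫ ω, ω.2 * ss ω ^ a ∂(mu j δ c) = ∫ ω, ss ω ^ (a + 1) ∂(mu j δ c) := by
    intro a
    rw [← integral_finsetSum _ (fun i _ => hIx i a), ← integral_add
      (integrable_finsetSum _ fun i _ => hIx i a) (hIy a)]
    refine integral_congr_ae (Filter.Eventually.of_forall fun ω => ?_)
    simp only
    rw [← Finset.sum_mul, ← add_mul, pow_succ' (ss ω) a]
    congr 1
    unfold ss dotProduct
    congr 1
    exact Finset.sum_congr rfl fun i _ => by ring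
  have e3 : ∑ i : Fin j, (∫ ω, ss ω ^ m ∂(mu j δ c) +
      2 * m * ∫ ω, ω.1 i ^ 2 * ss ω ^ (m - 1) ∂(mu j δ c) -
      2 * c * ∫ ω, ω.1 i ^ 2 * ss ω ^ m ∂(mu j δ c)) = 0 :=
    Finset.sum_eq_zero fun i _ => e1 i
  rw [Finset.sum_sub_distrib, Finset.sum_add_distrib, Finset.sum_const, Finset.card_univ,
    Fintype.card_fin, nsmul_eq_mul, ← Finset.mul_sum, ← Finset.mul_sum] at e3
  have h1 := hsum m
  have h2 : 2 * (m : ℝ) * (∑ i, ∫ ω, ω.1 i ^ 2 * ss ω ^ (m - 1) ∂(mu j δ c) +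
      ∫ ω, ω.2 * ss ω ^ (m - 1) ∂(mu j δ c)) = 2 * m * ∫ ω, ss ω ^ m ∂(mu j δ c) := by
    rcases Nat.eq_zero_or_pos m with h | h
    · subst h; simp
    · rw [hsum (m - 1), Nat.sub_add_cancel h]
  rw [← h1]
  linear_combination e3 + e2 - h2

theorem core_holds (hQ : S_QUAD) (hA : S_A) (hF : S_FRAC) (hM : S_MUG) (hX : S_IBX) (hY : S_IBY)
    (hI : S_INT) : S_CORE := by
  intro j δ hδ K _ p R B c ν ν0 hR hν hν0 hp
  choose κ g ε l M hg hε hMs hdet hge hgrad htr using fun k => hQ (p k) j (R k) (B k) (c k) (hR k)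
  have hs := measurable_ss (j := j)
  -- the product
  set V : (Fin j → ℝ) × ℝ → ℝ := fun ω => ∏ k, quad (κ k) (g k) (l k) (M k) ω ^ ν k with hV
  set U : (Fin j → ℝ) × ℝ → ℝ≥0∞ := fun ω =>
    ∏ k, ENNReal.ofReal ((NN (R k) (B k) (c k) ω).det ^ ν k) with hU
  have hqm : ∀ k, Measurable (quad (κ k) (g k) (l k) (M k)) := fun k => measurable_quad _ _ _ _
  have hUm : Measurable U := by
    rw [hU]
    refine Finset.measurable_fun_prod _ fun k _ => ?_
    simp only [hdet]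
    have := hqm k
    fun_prop
  have hqpos : ∀ k (ω : (Fin j → ℝ) × ℝ), 0 < ω.2 → 0 < quad (κ k) (g k) (l k) (M k) ω := by
    intro k ω hω
    have h1 := hge k ω.1
    have h2 : quad (κ k) (g k) (l k) (M k) ω = quad (κ k) (g k) (l k) (M k) (ω.1, 0) +
        g k * ω.2 := by unfold quad; ring
    rw [h2]
    have := mul_nonneg (hg k) hω.le
    have := hε k
    linarith
  have hVpos : ∀ ω : (Fin j → ℝ) × ℝ, 0 < ω.2 → 0 ≤ V ω := fun ω hω =>
    Finset.prod_nonneg fun k _ => (Real.rpow_pos_of_pos (hqpos k ω hω) _).le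
  have hUV : ∀ ω : (Fin j → ℝ) × ℝ, 0 < ω.2 → U ω = ENNReal.ofReal (V ω) := by
    intro ω hω
    simp only [hU, hV]
    rw [ENNReal.ofReal_prod_of_nonneg fun k _ => (Real.rpow_pos_of_pos (hqpos k ω hω) _).le]
    refine Finset.prod_congr rfl fun k _ => ?_
    rw [hdet]
  -- the inequality of S_A
  have hIA := fun (c : ℝ) (hc : 0 < c) (m : ℕ) => hA j δ hδ K κ g ε ν l M hg hε hν hMs hge hgrad
    (fun k => by
      have h1 := htr k
      have h2 := mul_le_mul_of_nonneg_left (hp k) (hg k)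
      nlinarith) c hc m
  -- conversion of lintegrals
  have hconvU : ∀ (c : ℝ) (m : ℕ), 0 < c →
      ∫⁻ ω, ENNReal.ofReal (ss ω ^ m * Real.exp (-(c * ss ω))) * U ω ∂(mu0 j δ) =
        ENNReal.ofReal (∫ ω, ss ω ^ m * V ω ∂(mu j δ c)) := by
    intro c m hc
    have h1 : 0 ≤ᵐ[mu j δ c] fun ω => ss ω ^ m * V ω := by
      filter_upwards [ae_mu_pos j δ c] with ω hω
      exact mul_nonneg (pow_nonneg (ss_pos ω hω).le _) (hVpos ω hω)
    rw [ofReal_integral_eq_lintegral_ofReal (hIA c hc m).1 h1]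
    have h2 : ∫⁻ ω, ENNReal.ofReal (ss ω ^ m * V ω) ∂(mu j δ c) =
        ∫⁻ ω, ENNReal.ofReal (ss ω ^ m) * U ω ∂(mu j δ c) := by
      refine lintegral_congr_ae ?_
      filter_upwards [ae_mu_pos j δ c] with ω hω
      rw [hUV ω hω, ENNReal.ofReal_mul (pow_nonneg (ss_pos ω hω).le _)]
    rw [h2, lintegral_mu j δ c _ (by fun_prop)]
    refine lintegral_congr fun ω => ?_
    rw [← mul_assoc, ← ENNReal.ofReal_mul (by positivity), mul_comm (ss ω ^ m)]
  have hconv1 : ∀ (c : ℝ) (m : ℕ), 0 < c →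
      ∫⁻ ω, ENNReal.ofReal (ss ω ^ m * Real.exp (-(c * ss ω))) ∂(mu0 j δ) =
        ENNReal.ofReal (∫ ω, ss ω ^ m ∂(mu j δ c)) := by
    intro c m hc
    have h1 : 0 ≤ᵐ[mu j δ c] fun ω => ss ω ^ m := by
      filter_upwards [ae_mu_pos j δ c] with ω hω
      exact pow_nonneg (ss_pos ω hω).le _
    have hint : Integrable (fun ω : (Fin j → ℝ) × ℝ => ss ω ^ m) (mu j δ c) :=
      hI j δ c hδ hc _ (by fun_prop) ⟨1, m, fun ω hω => by
        have h0 := ss_pos ω hω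
        rw [abs_of_nonneg (by positivity), one_mul]
        exact pow_le_pow_left₀ h0.le (by linarith) m⟩
    rw [ofReal_integral_eq_lintegral_ofReal hint h1, lintegral_mu j δ c _ (by fun_prop)]
    refine lintegral_congr fun ω => ?_
    rw [← ENNReal.ofReal_mul (by positivity), mul_comm (ss ω ^ m)]
  -- the measure is not zero
  obtain ⟨C, hC0, hCt, hC⟩ := hM j δ hδ
  have : IsProbabilityMeasure (chi δ) := isProb_chi hδ
  have hmu0 : mu0 j δ ≠ 0 := by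
    intro h0
    have h1 : mu j δ (1 / 2) = 0 := by rw [mu_eq, h0]; simp
    rw [h1] at hC
    have h2 := congrArg (fun μ : Measure ((Fin j → ℝ) × ℝ) => μ Set.univ) hC
    simp only [Measure.coe_zero, Pi.zero_apply, Measure.smul_apply, measure_univ, smul_eq_mul,
      mul_one] at h2
    exact hC0 h2.symm
  have hsf : SFinite (mu0 j δ) := by unfold mu0; infer_instance
  have hfrac := hF _ (mu0 j δ) ss U hsf hs hUm (ae_ss_pos j δ)
    (fun c m hc => by rw [hconvU c m hc]; exact ENNReal.ofReal_ne_top)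
    (fun c m hc => by rw [hconv1 c m hc]; exact ENNReal.ofReal_ne_top)
    (fun c m hc => by
      intro h0
      rw [lintegral_eq_zero_iff (by fun_prop)] at h0
      apply hmu0
      have h1 : ∀ᵐ ω ∂(mu0 j δ), False := by
        filter_upwards [h0, ae_ss_pos j δ] with ω h2 h3
        have h4 : ENNReal.ofReal (ss ω ^ m * Real.exp (-(c * ss ω))) = 0 := h2
        rw [ENNReal.ofReal_eq_zero, not_lt.symm] at h4
        exact h4 (by positivity)
      rw [Filter.eventually_false_iff_eq_bot, ae_eq_bot] at h1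
      exact h1)
    (fun c m hc => by
      rw [hconvU c m hc, hconvU c (m + 1) hc, hconv1 c m hc, hconv1 c (m + 1) hc]
      have ha := (hIA c hc m).2
      have hb := moment_rec hX hY hI j δ hδ c hc m
      have hV0 : ∀ m : ℕ, 0 ≤ ∫ ω, ss ω ^ m * V ω ∂(mu j δ c) := fun m =>
        integral_nonneg_of_ae (by
          filter_upwards [ae_mu_pos j δ c] with ω hω
          exact mul_nonneg (pow_nonneg (ss_pos ω hω).le _) (hVpos ω hω))
      have hS0 : ∀ m : ℕ, 0 ≤ ∫ ω, ss ω ^ m ∂(mu j δ c) := fun m =>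
        integral_nonneg_of_ae (by
          filter_upwards [ae_mu_pos j δ c] with ω hω
          exact pow_nonneg (ss_pos ω hω).le _)
      rw [← ENNReal.ofReal_mul (hV0 m), ← ENNReal.ofReal_mul (hV0 (m + 1))]
      refine ENNReal.ofReal_le_ofReal ?_
      have h2c : 0 < 2 * c := by linarith
      have hb' : ∫ ω, ss ω ^ (m + 1) ∂(mu j δ c) =
          ((j : ℝ) + δ + 2 * m) * (∫ ω, ss ω ^ m ∂(mu j δ c)) / (2 * c) := by
        rw [eq_div_iff h2c.ne']; linarith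
      have ha' : ((j : ℝ) + δ + 2 * m) * (∫ ω, ss ω ^ m * V ω ∂(mu j δ c)) / (2 * c) ≤
          ∫ ω, ss ω ^ (m + 1) * V ω ∂(mu j δ c) := by
        rw [div_le_iff₀ h2c]; simp only [hV]; linarith
      rw [hb']
      calc (∫ ω, ss ω ^ m * V ω ∂(mu j δ c)) *
            (((j : ℝ) + δ + 2 * m) * (∫ ω, ss ω ^ m ∂(mu j δ c)) / (2 * c))
          = (((j : ℝ) + δ + 2 * m) * (∫ ω, ss ω ^ m * V ω ∂(mu j δ c)) / (2 * c)) *
            ∫ ω, ss ω ^ m ∂(mu j δ c) := by ring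
        _ ≤ _ := mul_le_mul_of_nonneg_right ha' (hS0 m))
    (1 / 2) ν0 (by norm_num) hν0
  -- back to the probability measure
  have hP : ∀ F : (Fin j → ℝ) × ℝ → ℝ≥0∞, Measurable F →
      ∫⁻ ω, ENNReal.ofReal (Real.exp (-(1 / 2 * ss ω))) * F ω ∂(mu0 j δ) =
        C * ∫⁻ ω, F ω ∂((gauss j).prod (chi δ)) := by
    intro F hFm
    rw [← lintegral_mu j δ (1 / 2) F hFm, hC, lintegral_smul_measure, smul_eq_mul]
  have hsν : Measurable fun ω : (Fin j → ℝ) × ℝ => ENNReal.ofReal (ss ω ^ ν0) := by fun_prop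
  have f1 : ∫⁻ ω, ENNReal.ofReal (ss ω ^ ν0 * Real.exp (-(1 / 2 * ss ω))) ∂(mu0 j δ) =
      C * ∫⁻ ω, ENNReal.ofReal (ss ω ^ ν0) ∂((gauss j).prod (chi δ)) := by
    rw [← hP _ hsν]
    refine lintegral_congr fun ω => ?_
    rw [← ENNReal.ofReal_mul (by positivity), mul_comm]
  have f2 : ∫⁻ ω, ENNReal.ofReal (ss ω ^ ν0 * Real.exp (-(1 / 2 * ss ω))) * U ω ∂(mu0 j δ) =
      C * ∫⁻ ω, ENNReal.ofReal (ss ω ^ ν0) * U ω ∂((gauss j).prod (chi δ)) := by
    rw [← hP (fun ω => ENNReal.ofReal (ss ω ^ ν0) * U ω) (hsν.mul hUm)]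
    refine lintegral_congr fun ω => ?_
    rw [← mul_assoc, ← ENNReal.ofReal_mul (by positivity), mul_comm (ss ω ^ ν0)]
  have f3 : ∫⁻ ω, ENNReal.ofReal (Real.exp (-(1 / 2 * ss ω))) * U ω ∂(mu0 j δ) =
      C * ∫⁻ ω, U ω ∂((gauss j).prod (chi δ)) := hP _ hUm
  have f4 : ∫⁻ ω, ENNReal.ofReal (Real.exp (-(1 / 2 * ss ω))) ∂(mu0 j δ) = C := by
    have := hP (fun _ => 1) measurable_const
    simpa using this
  rw [f1, f2, f3, f4] at hfrac
  have h5 : C * C * ((∫⁻ ω, ENNReal.ofReal (ss ω ^ ν0) ∂((gauss j).prod (chi δ))) *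
      (∫⁻ ω, U ω ∂((gauss j).prod (chi δ)))) ≤
      C * C * ∫⁻ ω, ENNReal.ofReal (ss ω ^ ν0) * U ω ∂((gauss j).prod (chi δ)) := by
    calc _ = C * (∫⁻ ω, ENNReal.ofReal (ss ω ^ ν0) ∂((gauss j).prod (chi δ))) *
          (C * ∫⁻ ω, U ω ∂((gauss j).prod (chi δ))) := by ring
      _ ≤ C * (∫⁻ ω, ENNReal.ofReal (ss ω ^ ν0) * U ω ∂((gauss j).prod (chi δ))) * C := hfrac
      _ = _ := by ring
  exact (ENNReal.mul_le_mul_iff_right (mul_ne_zero hC0 hC0) (ENNReal.mul_ne_top hCt hCt)).mp h5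

end Pool.Agent.TH435.WG
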