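import Pool.Agent.H98.WG.Wrec

set_option autoImplicit false
open MeasureTheory ProbabilityTheory Matrix
open scoped ENNReal Pointwise

namespace Pool.Agent.TH435.WG

namespace Dens

open Wrec

lemma symMat_smul {ι : Type*} (c : ℝ) (x : Sym2 ι → ℝ) : symMat (c • x) = c • symMat x := by
  ext i j
  simp [symMat]

lemma mem_cone_smul {n : ℕ} {c : ℝ} (hc : 0 < c) (x : Sym2 (Fin n) → ℝ) (hx : x ∈ cone (Fin n)) :
    c • x ∈ cone (Fin n) := by
  show (symMat (c • x)).PosDef
  rw [symMat_smul]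
  exact Matrix.PosDef.smul (show (symMat x).PosDef from hx) hc

lemma smul_cone {n : ℕ} {c : ℝ} (hc : 0 < c) :
    c • cone (Fin n) = cone (Fin n) := by
  ext x
  constructor
  · rintro ⟨y, hy, rfl⟩
    exact mem_cone_smul hc y hy
  · intro hx
    refine ⟨c⁻¹ • x, mem_cone_smul (inv_pos.2 hc) x hx, ?_⟩
    show c • (c⁻¹ • x) = x
    rw [smul_smul, mul_inv_cancel₀ hc.ne', one_smul]

/-- the real integral -/
noncomputable def WW (n : ℕ) (a : ℝ) : ℝ :=
  ∫ x in cone (Fin n), (symMat x).det ^ ((a - n - 1) / 2) * Real.exp (-((symMat x).trace / 2))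

lemma WW_eq (n : ℕ) (a : ℝ) : WW n a = ((Wun n a) Set.univ).toReal := by
  unfold WW
  have h1 : Continuous (fun x : Sym2 (Fin n) → ℝ => (symMat x).det) := by
    apply Continuous.matrix_det
    refine continuous_matrix fun i j => ?_
    exact continuous_apply s(i, j)
  have h2 : Continuous (fun x : Sym2 (Fin n) → ℝ => (symMat x).trace) := by
    apply Continuous.matrix_trace
    refine continuous_matrix fun i j => ?_
    exact continuous_apply s(i, j)
  have hm : Measurable (fun x : Sym2 (Fin n) → ℝ => (symMat x).det ^ ((a - n - 1) / 2) *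
      Real.exp (-((symMat x).trace / 2))) :=
    (h1.measurable.pow_const _).mul (h2.measurable.div_const 2).neg.exp
  rw [integral_eq_lintegral_of_nonneg_ae _ hm.aestronglyMeasurable]
  · congr 1
    have h3 := lintegral_Wun n a (fun _ => 1)
    rw [lintegral_one] at h3
    rw [h3, lintegral_indicator (measurableSet_cone _)]
    simp only [mul_one]
    rfl
  · refine (ae_restrict_iff' (measurableSet_cone _)).2 (Filter.Eventually.of_forall fun x hx => ?_)
    have hd : 0 < (symMat x).det := Matrix.PosDef.det_pos (show (symMat x).PosDef from hx)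
    show (0 : ℝ) ≤ _
    positivity

/-- the scaling `x ↦ x / 2` -/
lemma mvGamma_eq (n : ℕ) (a : ℝ) :
    (2 : ℝ) ^ ((n : ℝ) * a / 2) * mvGamma (Fin n) (a / 2) = WW n a := by
  have h0 := Measure.setIntegral_comp_smul_of_pos (volume : Measure (Sym2 (Fin n) → ℝ))
    (fun x : Sym2 (Fin n) → ℝ => (symMat x).det ^ (a / 2 - ((Fintype.card (Fin n) : ℝ) + 1) / 2) *
      Real.exp (-(symMat x).trace)) (cone (Fin n)) (R := (1 / 2 : ℝ)) (by norm_num)
  rw [smul_cone (by norm_num), Module.finrank_fintype_fun_eq_card, Sym2.card] at h0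
  have h1 : ∫ x in cone (Fin n), (symMat ((1 / 2 : ℝ) • x)).det ^
      (a / 2 - ((Fintype.card (Fin n) : ℝ) + 1) / 2) *
      Real.exp (-(symMat ((1 / 2 : ℝ) • x)).trace)
      = (1 / 2 : ℝ) ^ ((n : ℝ) * ((a - n - 1) / 2)) * WW n a := by
    unfold WW
    rw [← integral_const_mul]
    refine setIntegral_congr_fun (measurableSet_cone _) fun x hx => ?_
    have hd : 0 < (symMat x).det := Matrix.PosDef.det_pos (show (symMat x).PosDef from hx)
    show _ = (1 / 2 : ℝ) ^ ((n : ℝ) * ((a - n - 1) / 2)) *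
      ((symMat x).det ^ ((a - n - 1) / 2) * Real.exp (-((symMat x).trace / 2)))
    rw [symMat_smul, Matrix.det_smul, Matrix.trace_smul, Fintype.card_fin, smul_eq_mul]
    have e1 : a / 2 - ((n : ℝ) + 1) / 2 = (a - n - 1) / 2 := by ring
    have e2 : (1 / 2 : ℝ) * (symMat x).trace = (symMat x).trace / 2 := by ring
    rw [e1, e2, Real.mul_rpow (by positivity) hd.le, ← Real.rpow_natCast, ← Real.rpow_mul
      (by norm_num)]
    ring
  rw [h1] at h0
  have h2 : mvGamma (Fin n) (a / 2) = ∫ x in cone (Fin n), (symMat x).det ^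
      (a / 2 - ((Fintype.card (Fin n) : ℝ) + 1) / 2) * Real.exp (-(symMat x).trace) := rfl
  rw [← h2] at h0
  obtain ⟨N, hN⟩ : ∃ N, N = (Fintype.card (Fin n) + 1).choose 2 := ⟨_, rfl⟩
  have hN2 : (N : ℝ) = (n : ℝ) * (n + 1) / 2 := by
    rw [hN, Fintype.card_fin, Nat.cast_choose_two]
    push_cast; ring
  rw [← hN, smul_eq_mul] at h0
  have h3 : mvGamma (Fin n) (a / 2) = (1 / 2 : ℝ) ^ N *
      ((1 / 2 : ℝ) ^ ((n : ℝ) * ((a - n - 1) / 2)) * WW n a) := by
    rw [h0]
    field_simp
  rw [h3, ← mul_assoc, ← mul_assoc, ← Real.rpow_natCast (1 / 2 : ℝ) N, hN2]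
  have e3 : ∀ u : ℝ, (1 / 2 : ℝ) ^ u = 2 ^ (-u) := by
    intro u
    rw [one_div, Real.inv_rpow (by norm_num), Real.rpow_neg (by norm_num)]
  rw [e3, e3, ← Real.rpow_add (by norm_num), ← Real.rpow_add (by norm_num)]
  have e4 : (n : ℝ) * a / 2 + -((n : ℝ) * (n + 1) / 2) + -((n : ℝ) * ((a - n - 1) / 2)) = 0 := by
    ring
  rw [e4, Real.rpow_zero, one_mul]

end Dens

open Dens Wrec in
theorem dens_holds (hW : S_WBW) (hD : S_PD) : S_DENS := by
  intro n a ha
  obtain ⟨C, hC0, hCt, hC⟩ := hW n a ha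
  have hprob := (hD n a ha).1
  have hCeq : (Wun n a) Set.univ = C := by
    have h1 : ((Wun n a).map symMat) Set.univ = C := by
      rw [hC, Measure.smul_apply, measure_univ, smul_eq_mul, mul_one]
    rw [Measure.map_apply symMat_measurable MeasurableSet.univ, Set.preimage_univ] at h1
    exact h1
  have hWW : WW n a = C.toReal := by rw [WW_eq, hCeq]
  have hpos : 0 < C.toReal := ENNReal.toReal_pos hC0 hCt
  have hw : wishart a (1 : Matrix (Fin n) (Fin n) ℝ) = C⁻¹ • Wun n a := by
    have e0 : Wun n a = ((volume : Measure (Sym2 (Fin n) → ℝ)).restrict (cone (Fin n))).withDensity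
      (dens n a) := rfl
    rw [e0, ← withDensity_smul _ (dens_measurable n a)]
    unfold wishart
    congr 1
    funext x
    show ENNReal.ofReal _ = C⁻¹ * ENNReal.ofReal _
    have e1 : C⁻¹ = ENNReal.ofReal (C.toReal⁻¹) := by
      rw [ENNReal.ofReal_inv_of_pos hpos, ENNReal.ofReal_toReal hCt]
    rw [e1, ← ENNReal.ofReal_mul (by positivity)]
    congr 1
    unfold wishartDensity
    have e2 : ((2 : ℝ) • (1 : Matrix (Fin n) (Fin n) ℝ)).det ^ (a / 2)
        = (2 : ℝ) ^ ((n : ℝ) * a / 2) := by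
      rw [Matrix.det_smul, Matrix.det_one, mul_one, Fintype.card_fin, ← Real.rpow_natCast,
        ← Real.rpow_mul (by norm_num)]
      congr 1; ring
    have e3 : (((1 / 2 : ℝ) • (1 : Matrix (Fin n) (Fin n) ℝ)⁻¹) * symMat x).trace
        = (symMat x).trace / 2 := by
      rw [inv_one, smul_mul_assoc, one_mul, Matrix.trace_smul, smul_eq_mul]
      ring
    have e4 : a / 2 - ((Fintype.card (Fin n) : ℝ) + 1) / 2 = (a - n - 1) / 2 := by
      rw [Fintype.card_fin]; ring
    rw [e2, e3, e4, mvGamma_eq, hWW]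
    field_simp
  rw [hw, Measure.map_smul, hC, smul_smul, ENNReal.inv_mul_cancel hC0 hCt, one_smul]

end Pool.Agent.TH435.WG

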