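import Pool.Agent.H98.WG.Stmts

/-!
# WG-GEN: induction on the number of unpeeled variables (job 1526)
-/

set_option autoImplicit false
open MeasureTheory ProbabilityTheory Matrix
open scoped ENNReal

namespace Pool.Agent.TH435.WG

namespace GenX

instance instBorel (m n : ℕ) : BorelSpace (Matrix (Fin m) (Fin n) ℝ) :=
  inferInstanceAs (BorelSpace (Fin m → Fin n → ℝ))

instance instSC (m n : ℕ) : SecondCountableTopology (Matrix (Fin m) (Fin n) ℝ) :=
  inferInstanceAs (SecondCountableTopology (Fin m → Fin n → ℝ))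

instance chiSF (a : ℝ) : SFinite (chi a) := by
  unfold chi gammaMeasure
  infer_instance

instance gaussP (n : ℕ) : IsProbabilityMeasure (gauss n) := by
  unfold gauss
  infer_instance

theorem bwSF : ∀ (n : ℕ) (a : ℝ), SFinite (BW n a)
  | 0, a => by unfold BW; infer_instance
  | n + 1, a => by
    have := bwSF n (a - 1)
    unfold BW
    infer_instance

instance (n : ℕ) (a : ℝ) : SFinite (BW n a) := bwSF n a

theorem chiP {a : ℝ} (ha : 0 < a) : IsProbabilityMeasure (chi a) :=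
  isProbabilityMeasure_gammaMeasure (by positivity) (by norm_num)

theorem chi_nonneg (a : ℝ) : ∀ᵐ t ∂(chi a), 0 ≤ t := by
  unfold chi gammaMeasure
  have hm : Measurable (gammaPDF (a / 2) (1 / 2)) := (measurable_gammaPDFReal _ _).ennreal_ofReal
  rw [ae_withDensity_iff hm]
  refine Filter.Eventually.of_forall fun t ht => ?_
  by_contra h
  exact ht (gammaPDF_of_neg (not_le.1 h))

/-- the build map is continuous -/
theorem build_cont (n : ℕ) : Continuous
    (fun q : ℝ × ((Fin n → ℝ) × Matrix (Fin n) (Fin n) ℝ) => build q.1 q.2.1 q.2.2) := by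
  unfold build
  refine continuous_matrix fun i j => ?_
  refine Fin.cases ?_ (fun i' => ?_) i <;> refine Fin.cases ?_ (fun j' => ?_) j
  · simp only [of_apply, Fin.cons_zero]
    fun_prop
  · simp only [of_apply, Fin.cons_zero, Fin.cons_succ]
    fun_prop
  · simp only [of_apply, Fin.cons_zero, Fin.cons_succ]
    fun_prop
  · simp only [of_apply, Fin.cons_succ]
    refine Continuous.add ?_ (by fun_prop)
    exact (continuous_snd.comp continuous_snd).matrix_elem i' j'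

/-- splitting a coordinate of the Gaussian -/
theorem lint_gauss (n : ℕ) (i : Fin (n + 1)) (F : (Fin (n + 1) → ℝ) → ℝ≥0∞) (hF : Measurable F) :
    ∫⁻ η, F η ∂(gauss (n + 1)) = ∫⁻ s, ∫⁻ η', F (i.insertNth s η') ∂(gauss n) ∂(gaussianReal 0 1) := by
  have h := (measurePreserving_piFinSuccAbove (fun _ : Fin (n + 1) => gaussianReal 0 1) i).symm
  have h1 := h.lintegral_comp hF
  unfold gauss
  rw [← h1, lintegral_prod]
  · rfl
  · exact (hF.comp (MeasurableEquiv.measurable _)).aemeasurable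

/-- the integral over `gauss j × BW (n+1) a` -/
theorem lint_bw (j n : ℕ) (a : ℝ) (F : (Fin j → ℝ) × Matrix (Fin (n + 1)) (Fin (n + 1)) ℝ → ℝ≥0∞)
    (hF : Measurable F) :
    ∫⁻ q, F q ∂((gauss j).prod (BW (n + 1) a)) =
      ∫⁻ ξ, ∫⁻ t, ∫⁻ η, ∫⁻ S, F (ξ, build t η S) ∂(BW n (a - 1)) ∂(gauss n) ∂(chi a) ∂(gauss j) := by
  rw [lintegral_prod _ hF.aemeasurable]
  congr 1
  ext ξ
  have hb : Measurable (fun q : ℝ × ((Fin n → ℝ) × Matrix (Fin n) (Fin n) ℝ) =>
    build q.1 q.2.1 q.2.2) := (build_cont n).measurable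
  have hF1 : Measurable fun X => F (ξ, X) := hF.comp (by fun_prop)
  show ∫⁻ X, F (ξ, X) ∂(((chi a).prod ((gauss n).prod (BW n (a - 1)))).map
      fun q => build q.1 q.2.1 q.2.2) = _
  have hG : Measurable (fun q : ℝ × ((Fin n → ℝ) × Matrix (Fin n) (Fin n) ℝ) =>
    F (ξ, build q.1 q.2.1 q.2.2)) := hF1.comp hb
  rw [lintegral_map hF1 hb, lintegral_prod _ hG.aemeasurable]
  congr 1
  ext t
  rw [lintegral_prod]
  exact (hG.comp (by fun_prop : Measurable fun q : (Fin n → ℝ) ×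
    Matrix (Fin n) (Fin n) ℝ => (t, q))).aemeasurable

/-- the vector `w` -/
noncomputable def wv {p m : ℕ} (C : Matrix (Fin p) (Fin (m + 2)) ℝ) (t : ℝ) (η : Fin m → ℝ) :
    Fin p → ℝ := fun i => √t * C i 0 + ∑ l, C i (Fin.succ (Fin.castSucc l)) * η l

/-- adding a column -/
def addc {p j : ℕ} (w : Fin p → ℝ) (B : Matrix (Fin p) (Fin j) ℝ) :
    Matrix (Fin p) (Fin (j + 1)) ℝ := Matrix.of fun i => Fin.cons (w i) (B i)

/-- the matrix in the statement -/
def gN {p j m : ℕ} (R : Matrix (Fin p) (Fin p) ℝ) (B : Matrix (Fin p) (Fin j) ℝ)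
    (C : Matrix (Fin p) (Fin (m + 1)) ℝ)
    (q : (Fin j → ℝ) × Matrix (Fin (m + 1)) (Fin (m + 1)) ℝ) : Matrix (Fin p) (Fin p) ℝ :=
  R + (B + vecMulVec (fun i => C i (Fin.last m)) q.1) *
      (B + vecMulVec (fun i => C i (Fin.last m)) q.1)ᵀ + C * q.2 * Cᵀ

theorem C_build {p n : ℕ} {t : ℝ} (ht : 0 ≤ t) (η : Fin n → ℝ) (S : Matrix (Fin n) (Fin n) ℝ)
    (C : Matrix (Fin p) (Fin (n + 1)) ℝ) : C * build t η S * Cᵀ =
      vecMulVec (fun i => √t * C i 0 + ∑ l, C i (Fin.succ l) * η l)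
        (fun i => √t * C i 0 + ∑ l, C i (Fin.succ l) * η l) +
      C.submatrix id Fin.succ * S * (C.submatrix id Fin.succ)ᵀ := by
  ext i k
  simp only [Matrix.mul_apply, Matrix.add_apply, vecMulVec_apply, Fin.sum_univ_succ, build,
    of_apply, Fin.cons_zero, Fin.cons_succ, transpose_apply, submatrix_apply, id_eq]
  have h1 : t = √t * √t := (Real.mul_self_sqrt ht).symm
  have h2 : ∀ x : Fin n, ∑ y, C i (Fin.succ y) * (S y x + η y * η x) =
      ∑ y, C i (Fin.succ y) * S y x + (∑ y, C i (Fin.succ y) * η y) * η x := by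
    intro x
    rw [Finset.sum_mul, ← Finset.sum_add_distrib]
    exact Finset.sum_congr rfl fun y _ => by ring
  have h3 : ∑ y, C i (Fin.succ y) * (√t * η y) = √t * ∑ y, C i (Fin.succ y) * η y := by
    rw [Finset.mul_sum]
    exact Finset.sum_congr rfl fun y _ => by ring
  rw [h3]
  simp only [h2]
  have h4 : ∑ x, (C i 0 * (√t * η x) + (∑ y, C i (Fin.succ y) * S y x +
      (∑ y, C i (Fin.succ y) * η y) * η x)) * C k (Fin.succ x) =
      (C i 0 * √t + ∑ y, C i (Fin.succ y) * η y) * (∑ x, C k (Fin.succ x) * η x) +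
      ∑ x, (∑ y, C i (Fin.succ y) * S y x) * C k (Fin.succ x) := by
    rw [Finset.mul_sum, ← Finset.sum_add_distrib]
    exact Finset.sum_congr rfl fun y _ => by ring
  rw [h4]
  nth_rewrite 1 [h1]
  ring

theorem gN_build {p j m : ℕ} (R : Matrix (Fin p) (Fin p) ℝ) (B : Matrix (Fin p) (Fin j) ℝ)
    (C : Matrix (Fin p) (Fin (m + 2)) ℝ) {t : ℝ} (ht : 0 ≤ t) (s : ℝ) (η : Fin m → ℝ)
    (ξ : Fin j → ℝ) (S : Matrix (Fin (m + 1)) (Fin (m + 1)) ℝ) :
    gN R B C (ξ, build t ((Fin.last m).insertNth s η) S) =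
      gN R (addc (wv C t η) B) (C.submatrix id Fin.succ) (Fin.cons s ξ, S) := by
  unfold gN
  rw [C_build ht]
  have h1 : ∀ i, √t * C i 0 + ∑ l, C i (Fin.succ l) *
      ((Fin.last m).insertNth s η : Fin (m + 1) → ℝ) l =
      wv C t η i + C i (Fin.last (m + 1)) * s := by
    intro i
    rw [Fin.sum_univ_castSucc]
    have h2 : ∀ l : Fin m, ((Fin.last m).insertNth s η : Fin (m + 1) → ℝ) (Fin.castSucc l) = η l := by
      intro l
      rw [← Fin.succAbove_last_apply]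
      exact Fin.insertNth_apply_succAbove _ _ _ _
    simp only [h2, Fin.insertNth_apply_same, Fin.succ_last, wv]
    ring
  simp only [h1]
  have key : (B + vecMulVec (fun i => C i (Fin.last (m + 1))) ξ) *
      (B + vecMulVec (fun i => C i (Fin.last (m + 1))) ξ)ᵀ +
        vecMulVec (fun i => wv C t η i + C i (Fin.last (m + 1)) * s)
          (fun i => wv C t η i + C i (Fin.last (m + 1)) * s) =
      (addc (wv C t η) B + vecMulVec (fun i => C.submatrix id Fin.succ i (Fin.last m))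
        (Fin.cons s ξ : Fin (j + 1) → ℝ)) *
      (addc (wv C t η) B + vecMulVec (fun i => C.submatrix id Fin.succ i (Fin.last m))
        (Fin.cons s ξ : Fin (j + 1) → ℝ))ᵀ := by
    ext i k
    simp only [Matrix.mul_apply, Matrix.add_apply, vecMulVec_apply, Fin.sum_univ_succ,
      of_apply, Fin.cons_zero, Fin.cons_succ, transpose_apply, submatrix_apply, id_eq, addc,
      Fin.succ_last]
    ring
  rw [← key]
  abel

theorem ss_build {j m : ℕ} (t s : ℝ) (η : Fin m → ℝ)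
    (ξ : Fin j → ℝ) (S : Matrix (Fin (m + 1)) (Fin (m + 1)) ℝ) :
    ξ ⬝ᵥ ξ + build t ((Fin.last m).insertNth s η) S (Fin.last (m + 1)) (Fin.last (m + 1)) =
      (Fin.cons s ξ : Fin (j + 1) → ℝ) ⬝ᵥ (Fin.cons s ξ : Fin (j + 1) → ℝ) +
        S (Fin.last m) (Fin.last m) := by
  rw [← Fin.succ_last]
  simp only [build, of_apply, Fin.cons_succ, Fin.insertNth_apply_same, dotProduct,
    Fin.sum_univ_succ, Fin.cons_zero]
  ring

/-- exchanging four integrals -/
theorem swap4 {A B C D : Type*} [MeasurableSpace A] [MeasurableSpace B] [MeasurableSpace C]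
    [MeasurableSpace D] (μA : Measure A) (μB : Measure B) (μC : Measure C) (μD : Measure D)
    [SFinite μA] [SFinite μB] [SFinite μC] [SFinite μD] (Φ : A × B × C × D → ℝ≥0∞)
    (hΦ : Measurable Φ) :
    ∫⁻ ξ, ∫⁻ t, ∫⁻ s, ∫⁻ η, Φ (ξ, t, s, η) ∂μD ∂μC ∂μB ∂μA =
      ∫⁻ t, ∫⁻ η, ∫⁻ s, ∫⁻ ξ, Φ (ξ, t, s, η) ∂μA ∂μC ∂μD ∂μB := by
  rw [lintegral_lintegral_swap (by fun_prop)]
  congr 1
  ext t
  rw [lintegral_lintegral_swap (by fun_prop)]
  have h1 : ∀ s, ∫⁻ ξ, ∫⁻ η, Φ (ξ, t, s, η) ∂μD ∂μA = ∫⁻ η, ∫⁻ ξ, Φ (ξ, t, s, η) ∂μA ∂μD :=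
    fun s => lintegral_lintegral_swap (by fun_prop)
  simp only [h1]
  rw [lintegral_lintegral_swap (by fun_prop)]

theorem meas_insert (m : ℕ) : Measurable (fun r : ℝ × (Fin m → ℝ) =>
    ((Fin.last m).insertNth r.1 r.2 : Fin (m + 1) → ℝ)) :=
  (MeasurableEquiv.piFinSuccAbove (fun _ : Fin (m + 1) => ℝ) (Fin.last m)).symm.measurable

theorem Fb_meas {j n : ℕ} {F : (Fin j → ℝ) × Matrix (Fin (n + 1)) (Fin (n + 1)) ℝ → ℝ≥0∞}
    (hF : Measurable F) {α : Type*} [MeasurableSpace α] {u : α → Fin j → ℝ} {t : α → ℝ}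
    {η : α → Fin n → ℝ} {S : α → Matrix (Fin n) (Fin n) ℝ} (hu : Measurable u) (ht : Measurable t)
    (hη : Measurable η) (hS : Measurable S) :
    Measurable fun x => F (u x, build (t x) (η x) (S x)) :=
  hF.comp (hu.prodMk ((build_cont n).measurable.comp (ht.prodMk (hη.prodMk hS))))

theorem ins_meas {m : ℕ} {α : Type*} [MeasurableSpace α] {s : α → ℝ} {η : α → Fin m → ℝ}
    (hs : Measurable s) (hη : Measurable η) :
    Measurable fun x => ((Fin.last m).insertNth (s x) (η x) : Fin (m + 1) → ℝ) :=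
  (meas_insert m).comp (hs.prodMk hη)

/-- the change of variables -/
theorem lint_step (j m : ℕ) (a : ℝ)
    (F : (Fin j → ℝ) × Matrix (Fin (m + 2)) (Fin (m + 2)) ℝ → ℝ≥0∞) (hF : Measurable F) :
    ∫⁻ q, F q ∂((gauss j).prod (BW (m + 2) a)) =
      ∫⁻ t, ∫⁻ η, ∫⁻ q, F (fun l => q.1 (Fin.succ l), build t ((Fin.last m).insertNth (q.1 0) η) q.2)
        ∂((gauss (j + 1)).prod (BW (m + 1) (a - 1))) ∂(gauss m) ∂(chi a) := by
  rw [lint_bw _ _ _ _ hF]
  have hΦ : Measurable (fun x : (Fin j → ℝ) × ℝ × ℝ × (Fin m → ℝ) =>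
      ∫⁻ S, F (x.1, build x.2.1 ((Fin.last m).insertNth x.2.2.1 x.2.2.2) S)
        ∂(BW (m + 1) (a - 1))) := by
    refine Measurable.lintegral_prod_right' (f := fun z : ((Fin j → ℝ) × ℝ × ℝ × (Fin m → ℝ)) ×
      Matrix (Fin (m + 1)) (Fin (m + 1)) ℝ =>
      F (z.1.1, build z.1.2.1 ((Fin.last m).insertNth z.1.2.2.1 z.1.2.2.2) z.2)) ?_
    refine Fb_meas hF (by fun_prop) (by fun_prop) ?_ (by fun_prop)
    exact ins_meas (by fun_prop) (by fun_prop)
  have e1 : ∀ ξ t, ∫⁻ η, ∫⁻ S, F (ξ, build t η S) ∂(BW (m + 1) (a - 1)) ∂(gauss (m + 1)) =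
      ∫⁻ s, ∫⁻ η, ∫⁻ S, F (ξ, build t ((Fin.last m).insertNth s η) S) ∂(BW (m + 1) (a - 1))
        ∂(gauss m) ∂(gaussianReal 0 1) := by
    intro ξ t
    refine lint_gauss m (Fin.last m) _ ?_
    refine Measurable.lintegral_prod_right' (f := fun z : (Fin (m + 1) → ℝ) ×
      Matrix (Fin (m + 1)) (Fin (m + 1)) ℝ => F (ξ, build t z.1 z.2)) ?_
    exact Fb_meas hF (by fun_prop) (by fun_prop) (by fun_prop) (by fun_prop)
  simp only [e1]
  rw [swap4 _ _ _ _ _ hΦ]
  congr 1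
  ext t
  congr 1
  ext η
  have hG : Measurable (fun q : (Fin (j + 1) → ℝ) × Matrix (Fin (m + 1)) (Fin (m + 1)) ℝ =>
      F (fun l => q.1 (Fin.succ l), build t ((Fin.last m).insertNth (q.1 0) η) q.2)) := by
    refine Fb_meas hF (by fun_prop) (by fun_prop) ?_ (by fun_prop)
    exact ins_meas (by fun_prop) (by fun_prop)
  rw [lintegral_prod _ hG.aemeasurable, lint_gauss j 0]
  · simp only [Fin.insertNth_zero', Fin.cons_succ, Fin.cons_zero]
  · exact Measurable.lintegral_prod_right' hG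

/-- the base case -/
theorem lint_base (j : ℕ) (a : ℝ)
    (F : (Fin j → ℝ) × Matrix (Fin 1) (Fin 1) ℝ → ℝ≥0∞) (hF : Measurable F) :
    ∫⁻ q, F q ∂((gauss j).prod (BW 1 a)) =
      ∫⁻ ω, F (ω.1, build ω.2 0 0) ∂((gauss j).prod (chi a)) := by
  rw [lint_bw _ _ _ _ hF, lintegral_prod]
  · congr 1
    ext ξ
    congr 1
    ext t
    have h1 : ∀ (η : Fin 0 → ℝ) (S : Matrix (Fin 0) (Fin 0) ℝ), build t η S = build t 0 0 := by
      intro η S
      rw [Subsingleton.elim η 0, Subsingleton.elim S 0]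
    have : IsProbabilityMeasure (BW 0 (a - 1)) := by unfold BW; infer_instance
    simp only [h1, lintegral_const, measure_univ, mul_one]
  · exact (Fb_meas hF (by fun_prop) (by fun_prop) measurable_const measurable_const).aemeasurable

/-- the tilt -/
noncomputable def TT {j m : ℕ} (ν0 : ℝ) (q : (Fin j → ℝ) × Matrix (Fin (m + 1)) (Fin (m + 1)) ℝ) : ℝ≥0∞ :=
  ENNReal.ofReal ((q.1 ⬝ᵥ q.1 + q.2 (Fin.last m) (Fin.last m)) ^ ν0)

/-- the product of the determinants -/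
noncomputable def GG {j m : ℕ} {K : Type} [Fintype K] (p : K → ℕ)
    (R : ∀ k, Matrix (Fin (p k)) (Fin (p k)) ℝ) (B : ∀ k, Matrix (Fin (p k)) (Fin j) ℝ)
    (C : ∀ k, Matrix (Fin (p k)) (Fin (m + 1)) ℝ) (ν : K → ℝ)
    (q : (Fin j → ℝ) × Matrix (Fin (m + 1)) (Fin (m + 1)) ℝ) : ℝ≥0∞ :=
  ∏ k, ENNReal.ofReal ((gN (R k) (B k) (C k) q).det ^ ν k)

theorem TT_meas {j m : ℕ} (ν0 : ℝ) : Measurable (TT (j := j) (m := m) ν0) := by
  unfold TT
  have h : Continuous (fun q : (Fin j → ℝ) × Matrix (Fin (m + 1)) (Fin (m + 1)) ℝ =>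
      q.1 ⬝ᵥ q.1 + q.2 (Fin.last m) (Fin.last m)) := by
    refine Continuous.add ?_ (continuous_snd.matrix_elem _ _)
    unfold dotProduct
    fun_prop
  exact (h.measurable.pow_const ν0).ennreal_ofReal

theorem gN_cont {p j m : ℕ} (R : Matrix (Fin p) (Fin p) ℝ) (B : Matrix (Fin p) (Fin j) ℝ)
    (C : Matrix (Fin p) (Fin (m + 1)) ℝ) : Continuous (gN R B C) := by
  unfold gN
  fun_prop

theorem GG_meas {j m : ℕ} {K : Type} [Fintype K] (p : K → ℕ)
    (R : ∀ k, Matrix (Fin (p k)) (Fin (p k)) ℝ) (B : ∀ k, Matrix (Fin (p k)) (Fin j) ℝ)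
    (C : ∀ k, Matrix (Fin (p k)) (Fin (m + 1)) ℝ) (ν : K → ℝ) :
    Measurable (GG p R B C ν) := by
  unfold GG
  refine Finset.measurable_prod _ fun k _ => ?_
  exact ((gN_cont (R k) (B k) (C k)).matrix_det.measurable.pow_const (ν k)).ennreal_ofReal

theorem TT_base {j : ℕ} (ν0 : ℝ) (ω : (Fin j → ℝ) × ℝ) :
    TT (m := 0) ν0 (ω.1, build ω.2 0 0) = ENNReal.ofReal (ss ω ^ ν0) := rfl

theorem gN_base {p j : ℕ} (R : Matrix (Fin p) (Fin p) ℝ) (B : Matrix (Fin p) (Fin j) ℝ)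
    (C : Matrix (Fin p) (Fin (0 + 1)) ℝ) (ω : (Fin j → ℝ) × ℝ) :
    gN R B C (ω.1, build ω.2 0 0) = NN R B (fun i => C i (Fin.last 0)) ω := by
  unfold gN NN
  congr 1
  ext i k
  simp only [Matrix.mul_apply, Fin.sum_univ_succ, Matrix.smul_apply, vecMulVec_apply, build,
    of_apply, Fin.cons_zero, transpose_apply, smul_eq_mul, Finset.univ_eq_empty,
    Finset.sum_empty, add_zero]
  have : (0 : Fin (0 + 1)) = Fin.last 0 := rfl
  rw [this]
  ring

theorem TT_step {j m : ℕ} (ν0 t : ℝ) (η : Fin m → ℝ)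
    (q : (Fin (j + 1) → ℝ) × Matrix (Fin (m + 1)) (Fin (m + 1)) ℝ) :
    TT (m := m + 1) ν0 (fun l : Fin j => q.1 (Fin.succ l),
      build t ((Fin.last m).insertNth (q.1 0) η) q.2) = TT ν0 q := by
  unfold TT
  simp only
  rw [ss_build]
  have h : (Fin.cons (q.1 0) (fun l : Fin j => q.1 (Fin.succ l)) : Fin (j + 1) → ℝ) = q.1 := by
    ext l
    refine Fin.cases ?_ (fun l' => ?_) l
    · rw [Fin.cons_zero]
    · rw [Fin.cons_succ]
  rw [h]

theorem GG_step {j m : ℕ} {K : Type} [Fintype K] (p : K → ℕ)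
    (R : ∀ k, Matrix (Fin (p k)) (Fin (p k)) ℝ) (B : ∀ k, Matrix (Fin (p k)) (Fin j) ℝ)
    (C : ∀ k, Matrix (Fin (p k)) (Fin (m + 1 + 1)) ℝ) (ν : K → ℝ) {t : ℝ} (ht : 0 ≤ t)
    (η : Fin m → ℝ) (q : (Fin (j + 1) → ℝ) × Matrix (Fin (m + 1)) (Fin (m + 1)) ℝ) :
    GG p R B C ν (fun l : Fin j => q.1 (Fin.succ l),
      build t ((Fin.last m).insertNth (q.1 0) η) q.2) =
    GG p R (fun k => addc (wv (C k) t η) (B k)) (fun k => (C k).submatrix id Fin.succ) ν q := by
  unfold GG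
  refine Finset.prod_congr rfl fun k _ => ?_
  rw [gN_build (R k) (B k) (C k) ht]
  have h : (Fin.cons (q.1 0) (fun l : Fin j => q.1 (Fin.succ l)) : Fin (j + 1) → ℝ) = q.1 := by
    ext l
    refine Fin.cases ?_ (fun l' => ?_) l
    · rw [Fin.cons_zero]
    · rw [Fin.cons_succ]
  rw [h]

end GenX

open GenX in
theorem gen_holds (hC : S_CORE) : S_GEN := by
  intro m
  induction m with
  | zero =>
    intro j a ha K _ p R B C ν ν0 hR hν hν0 hp
    have ha' : 0 < a := by simpa using ha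
    have h := hC j a ha' K p R B (fun k i => C k i (Fin.last 0)) ν ν0 hR hν hν0 hp
    have e1 : ∫⁻ q, TT (m := 0) ν0 q ∂((gauss j).prod (BW (0 + 1) a)) =
        ∫⁻ ω, ENNReal.ofReal (ss ω ^ ν0) ∂((gauss j).prod (chi a)) :=
      lint_base j a _ (TT_meas ν0)
    have e2 : ∫⁻ q, GG (m := 0) p R B C ν q ∂((gauss j).prod (BW (0 + 1) a)) =
        ∫⁻ ω, ∏ k, ENNReal.ofReal ((NN (R k) (B k) (fun i => C k i (Fin.last 0)) ω).det ^ ν k)
          ∂((gauss j).prod (chi a)) := by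
      rw [lint_base j a _ (GG_meas p R B C ν)]
      simp only [GG, gN_base]
    have e3 : ∫⁻ q, TT (m := 0) ν0 q * GG (m := 0) p R B C ν q ∂((gauss j).prod (BW (0 + 1) a)) =
        ∫⁻ ω, ENNReal.ofReal (ss ω ^ ν0) *
          ∏ k, ENNReal.ofReal ((NN (R k) (B k) (fun i => C k i (Fin.last 0)) ω).det ^ ν k)
          ∂((gauss j).prod (chi a)) := by
      rw [lint_base j a (fun q => TT (m := 0) ν0 q * GG (m := 0) p R B C ν q)
        ((TT_meas ν0).mul (GG_meas p R B C ν))]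
      simp only [GG, gN_base, TT_base]
    rw [← e1, ← e2, ← e3] at h
    exact h
  | succ m ih =>
    intro j a ha K _ p R B C ν ν0 hR hν hν0 hp
    have ha' : (m : ℝ) < a - 1 := by push_cast at ha; linarith
    have ha0 : 0 < a := by
      have : (0 : ℝ) ≤ m := Nat.cast_nonneg m
      linarith
    have := chiP ha0
    have h : ∀ t η, (∫⁻ q, TT (m := m) ν0 q ∂((gauss (j + 1)).prod (BW (m + 1) (a - 1)))) *
        (∫⁻ q, GG (m := m) p R (fun k => addc (wv (C k) t η) (B k))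
          (fun k => (C k).submatrix id Fin.succ) ν q
          ∂((gauss (j + 1)).prod (BW (m + 1) (a - 1)))) ≤
        ∫⁻ q, TT (m := m) ν0 q * GG (m := m) p R (fun k => addc (wv (C k) t η) (B k))
          (fun k => (C k).submatrix id Fin.succ) ν q
          ∂((gauss (j + 1)).prod (BW (m + 1) (a - 1))) := by
      intro t η
      exact ih (j + 1) (a - 1) ha' K p R (fun k => addc (wv (C k) t η) (B k))
        (fun k => (C k).submatrix id Fin.succ) ν ν0 hR hν hν0
        (fun k => by push_cast; linarith [hp k])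
    show (∫⁻ q, TT (m := m + 1) ν0 q ∂((gauss j).prod (BW (m + 1 + 1) a))) *
      (∫⁻ q, GG (m := m + 1) p R B C ν q ∂((gauss j).prod (BW (m + 1 + 1) a))) ≤
      ∫⁻ q, TT (m := m + 1) ν0 q * GG (m := m + 1) p R B C ν q
        ∂((gauss j).prod (BW (m + 1 + 1) a))
    rw [lint_step j m a _ (TT_meas ν0), lint_step j m a _ (GG_meas p R B C ν),
      lint_step j m a (fun q => TT (m := m + 1) ν0 q * GG (m := m + 1) p R B C ν q)
        ((TT_meas ν0).mul (GG_meas p R B C ν))]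
    simp only [TT_step, lintegral_const, measure_univ, mul_one]
    refine (lintegral_const_mul_le _ _).trans ?_
    refine lintegral_mono_ae ?_
    filter_upwards [chi_nonneg a] with t ht
    refine (lintegral_const_mul_le _ _).trans ?_
    refine lintegral_mono fun η => ?_
    simp only [GG_step p R B C ν ht]
    exact h t η

end Pool.Agent.TH435.WG
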