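import Pool.Agent.H98.WG.Stmts

set_option autoImplicit false
open MeasureTheory ProbabilityTheory Matrix
open scoped ENNReal

namespace Pool.Agent.TH435.WG

theorem law_meas_mat {α : Type*} [MeasurableSpace α] {m n : Type*} (f : α → Matrix m n ℝ)
    (h : ∀ i j, Measurable fun x => f x i j) : Measurable f := by
  have h1 : Measurable (fun x => (f x : m → n → ℝ)) :=
    measurable_pi_iff.2 fun i => measurable_pi_iff.2 fun j => h i j
  exact h1

theorem law_meas_entry {m n : Type*} (i : m) (j : n) :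
    Measurable fun X : Matrix m n ℝ => X i j := by
  have h1 : Measurable (fun X : m → n → ℝ => X i j) :=
    (measurable_pi_apply j).comp (measurable_pi_apply i)
  exact h1

theorem law_meas_symMat (ι : Type*) : Measurable (symMat : (Sym2 ι → ℝ) → Matrix ι ι ℝ) :=
  law_meas_mat _ fun i j => measurable_pi_apply s(i, j)

theorem law_meas_congr {ι κ : Type*} [Fintype κ] (A : Matrix ι κ ℝ) :
    Measurable fun X : Matrix κ κ ℝ => A * X * Aᵀ := by
  apply law_meas_mat
  intro i j
  have h1 : (fun X : Matrix κ κ ℝ => (A * X * Aᵀ) i j) =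
      fun X => ∑ l, (∑ k, A i k * X k l) * A j l := by
    funext X
    rw [Matrix.mul_apply]
    apply Finset.sum_congr rfl
    intro l _
    rw [Matrix.mul_apply, Matrix.transpose_apply]
  rw [h1]
  refine Finset.measurable_fun_sum _ fun l _ => ?_
  refine Measurable.mul_const ?_ _
  refine Finset.measurable_fun_sum _ fun k _ => ?_
  exact (law_meas_entry k l).const_mul _

/-- transport of the density measure -/
theorem law_transport {ι κ : Type*} [Fintype ι] [DecidableEq ι] [Fintype κ] [DecidableEq κ]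
    (a : ℝ) (S : Matrix ι ι ℝ) (S' : Matrix κ κ ℝ) (Ψ : (Sym2 κ → ℝ) ≃ᵐ (Sym2 ι → ℝ))
    (c : ℝ) (hc : 0 ≤ c)
    (hv : (volume : Measure (Sym2 ι → ℝ)) = ENNReal.ofReal c •
      (volume : Measure (Sym2 κ → ℝ)).map Ψ)
    (hcone : ∀ z, Ψ z ∈ cone ι ↔ z ∈ cone κ)
    (hf : ∀ z, c * wishartDensity a S (symMat (Ψ z)) = wishartDensity a S' (symMat z)) :
    wishart a S = (wishart a S').map Ψ := by
  have hpre : Ψ ⁻¹' (cone ι) = cone κ := by
    ext z
    exact hcone z
  have hwd : ∀ (μ : Measure (Sym2 κ → ℝ)) (f : (Sym2 ι → ℝ) → ℝ≥0∞),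
      (μ.map Ψ).withDensity f = (μ.withDensity (fun z => f (Ψ z))).map Ψ := by
    intro μ f
    ext E hE
    rw [withDensity_apply _ hE, Ψ.map_apply, withDensity_apply _ (Ψ.measurable hE),
      Ψ.restrict_map, lintegral_map_equiv]
  unfold wishart
  rw [hv, Measure.restrict_smul, withDensity_smul_measure, Ψ.restrict_map, hpre, hwd,
    ← Measure.map_smul, ← withDensity_smul' _ _ ENNReal.ofReal_ne_top]
  congr 2
  funext z
  rw [Pi.smul_apply, smul_eq_mul, ← ENNReal.ofReal_mul hc, hf]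

theorem law_sym2_bij {ι κ : Type*} (e : ι ≃ κ) : Function.Bijective (Sym2.map e) := by
  constructor
  · exact Sym2.map.injective e.injective
  · intro w
    refine ⟨Sym2.map e.symm w, ?_⟩
    rw [Sym2.map_map]
    simp

/-- reindexing of coordinates -/
noncomputable def lawIx {ι κ : Type*} (e : ι ≃ κ) : (Sym2 κ → ℝ) ≃ᵐ (Sym2 ι → ℝ) :=
  (MeasurableEquiv.piCongrLeft (fun _ : Sym2 κ => ℝ)
    (Equiv.ofBijective (Sym2.map e) (law_sym2_bij e))).symm

theorem lawIx_apply {ι κ : Type*} (e : ι ≃ κ) (x : Sym2 κ → ℝ) (z : Sym2 ι) :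
    lawIx e x z = x (Sym2.map e z) := rfl

theorem lawIx_mp {ι κ : Type*} [Fintype ι] [Fintype κ] (e : ι ≃ κ) :
    MeasurePreserving (lawIx e) volume volume :=
  (volume_measurePreserving_piCongrLeft (fun _ : Sym2 κ => ℝ)
    (Equiv.ofBijective (Sym2.map e) (law_sym2_bij e))).symm

theorem symMat_lawIx {ι κ : Type*} (e : ι ≃ κ) (x : Sym2 κ → ℝ) :
    symMat (lawIx e x) = (symMat x).submatrix e e := by
  ext i j
  rfl

theorem lawIx_cone {ι κ : Type*} [Fintype ι] [Fintype κ] (e : ι ≃ κ) (x : Sym2 κ → ℝ) :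
    lawIx e x ∈ cone ι ↔ x ∈ cone κ := by
  unfold cone
  rw [Set.mem_ofPred_eq, Set.mem_ofPred_eq, symMat_lawIx]
  constructor
  · intro h
    have h2 := h.submatrix e.symm.injective
    rw [Matrix.submatrix_submatrix] at h2
    simpa using h2
  · intro h
    exact h.submatrix e.injective

theorem law_trace {ι κ : Type*} [Fintype ι] [Fintype κ] (e : ι ≃ κ) (M : Matrix κ κ ℝ) :
    (M.submatrix e e).trace = M.trace := by
  unfold Matrix.trace
  exact e.sum_comp fun k => M k k

theorem law_mvGamma {ι κ : Type*} [Fintype ι] [DecidableEq ι] [Fintype κ] [DecidableEq κ]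
    (e : ι ≃ κ) (β : ℝ) : mvGamma ι β = mvGamma κ β := by
  unfold mvGamma
  rw [← (lawIx_mp e).setIntegral_preimage_emb (lawIx e).measurableEmbedding]
  have h1 : (lawIx e) ⁻¹' (cone ι) = cone κ := by
    ext x
    exact lawIx_cone e x
  rw [h1]
  congr 1
  funext x
  rw [symMat_lawIx, Matrix.det_submatrix_equiv_self, law_trace, Fintype.card_congr e]

theorem law_reindex {ι κ : Type*} [Fintype ι] [DecidableEq ι] [Fintype κ] [DecidableEq κ]
    (e : ι ≃ κ) (a : ℝ) (S : Matrix ι ι ℝ) :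
    wishart a S = (wishart a (S.submatrix e.symm e.symm)).map (lawIx e) := by
  refine law_transport a S _ (lawIx e) 1 zero_le_one ?_ (lawIx_cone e) fun z => ?_
  · rw [ENNReal.ofReal_one, one_smul]
    exact (lawIx_mp e).map_eq.symm
  · rw [one_mul, symMat_lawIx]
    unfold wishartDensity
    have h0 : ((2 : ℝ) • S.submatrix e.symm e.symm).det = ((2 : ℝ) • S).det := by
      rw [Matrix.det_smul, Matrix.det_smul, Matrix.det_submatrix_equiv_self, Fintype.card_congr e]
    rw [Matrix.det_submatrix_equiv_self, law_mvGamma e, Fintype.card_congr e, h0,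
      Matrix.inv_submatrix_equiv]
    have h1 : ((1 / 2 : ℝ) • S⁻¹ * (symMat z).submatrix e e) =
        ((1 / 2 : ℝ) • S⁻¹.submatrix e.symm e.symm * symMat z).submatrix e e := by
      rw [← Matrix.submatrix_mul_equiv _ _ e e e]
      congr 1
      ext i j
      simp
    rw [h1, law_trace]

theorem law_mul_rpow {d x y : ℝ} (hd : 0 < d) : (d * x) ^ y = d ^ y * x ^ y := by
  rcases le_or_gt 0 x with hx | hx
  · exact Real.mul_rpow hd.le hx
  · rw [Real.rpow_def_of_neg (mul_neg_of_pos_of_neg hd hx), Real.rpow_def_of_neg hx,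
      Real.log_mul hd.ne' hx.ne, Real.rpow_def_of_pos hd, add_mul, Real.exp_add]
    ring

/-- the square case -/
theorem law_square (hC : S_CONG) (n : ℕ) (a : ℝ) (A : Matrix (Fin n) (Fin n) ℝ)
    (hA : A.det ≠ 0) : ∃ Ψ : (Sym2 (Fin n) → ℝ) ≃ᵐ (Sym2 (Fin n) → ℝ),
      (∀ z, symMat (Ψ z) = A * symMat z * Aᵀ) ∧
      wishart a (A * Aᵀ) = (wishart a (1 : Matrix (Fin n) (Fin n) ℝ)).map Ψ := by
  obtain ⟨L, hL, hdet⟩ := hC n A hA
  have hd : 0 < |A.det| := abs_pos.2 hA
  have hLdet : LinearMap.det L ≠ 0 := by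
    rw [← abs_pos, hdet]
    positivity
  set Ψ : (Sym2 (Fin n) → ℝ) ≃ᵐ (Sym2 (Fin n) → ℝ) :=
    (L.equivOfDetNeZero hLdet).toContinuousLinearEquiv.toHomeomorph.toMeasurableEquiv with hΨ
  have hΨL : ∀ z, Ψ z = L z := fun z => rfl
  have hsym : ∀ z, symMat (Ψ z) = A * symMat z * Aᵀ := by
    intro z
    rw [hΨL, hL]
    have hs : (A * symMat z * Aᵀ)ᵀ = A * symMat z * Aᵀ := by
      rw [Matrix.transpose_mul, Matrix.transpose_mul, Matrix.transpose_transpose,
        Matrix.mul_assoc]
      congr 2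
      ext i j
      show z s(j, i) = z s(i, j)
      rw [Sym2.eq_swap]
    ext i j
    have h2 : (A * symMat z * Aᵀ) j i = (A * symMat z * Aᵀ) i j := by
      conv_rhs => rw [← hs]
      rfl
    show ((A * symMat z * Aᵀ) i j + (A * symMat z * Aᵀ) j i) / 2 = _
    rw [h2]
    ring
  have hAu : IsUnit A := (Matrix.isUnit_iff_isUnit_det A).2 (isUnit_iff_ne_zero.2 hA)
  refine ⟨Ψ, hsym, law_transport a _ _ Ψ (|A.det| ^ (n + 1)) (by positivity) ?_ ?_ ?_⟩
  · have h1 : Measure.map Ψ (volume : Measure (Sym2 (Fin n) → ℝ)) =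
        ENNReal.ofReal |(LinearMap.det L)⁻¹| • volume :=
      Measure.map_linearMap_addHaar_eq_smul_addHaar volume hLdet
    rw [h1, smul_smul, ← ENNReal.ofReal_mul (by positivity), abs_inv, hdet,
      mul_inv_cancel₀ (by positivity), ENNReal.ofReal_one, one_smul]
  · intro z
    unfold cone
    rw [Set.mem_ofPred_eq, Set.mem_ofPred_eq, hsym]
    have h1 := Matrix.IsUnit.posDef_star_right_conjugate_iff (x := symMat z) hAu
    rw [Matrix.star_eq_conjTranspose, Matrix.conjTranspose_eq_transpose_of_trivial] at h1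
    exact h1
  · intro z
    rw [hsym]
    unfold wishartDensity
    have hdet2 : A.det * A.det = |A.det| * |A.det| := (abs_mul_abs_self _).symm
    have e1 : (A * symMat z * Aᵀ).det = (|A.det| * |A.det|) * (symMat z).det := by
      rw [Matrix.det_mul, Matrix.det_mul, Matrix.det_transpose, ← hdet2]
      ring
    have e2 : ((2 : ℝ) • (A * Aᵀ)).det = (|A.det| * |A.det|) *
        ((2 : ℝ) • (1 : Matrix (Fin n) (Fin n) ℝ)).det := by
      rw [Matrix.det_smul, Matrix.det_smul, Matrix.det_mul, Matrix.det_transpose, hdet2,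
        Matrix.det_one]
      ring
    have e3 : (((1 / 2 : ℝ) • (A * Aᵀ)⁻¹) * (A * symMat z * Aᵀ)).trace =
        (((1 / 2 : ℝ) • (1 : Matrix (Fin n) (Fin n) ℝ)⁻¹) * symMat z).trace := by
      have hAd : IsUnit A.det := isUnit_iff_ne_zero.2 hA
      have hAtd : IsUnit Aᵀ.det := by rwa [Matrix.det_transpose]
      rw [Matrix.smul_mul, Matrix.smul_mul, Matrix.trace_smul, Matrix.trace_smul, inv_one,
        Matrix.one_mul, Matrix.mul_inv_rev]
      congr 1
      have h3 : Aᵀ⁻¹ * A⁻¹ * (A * symMat z * Aᵀ) = Aᵀ⁻¹ * (symMat z * Aᵀ) := by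
        rw [Matrix.mul_assoc, Matrix.mul_assoc A, ← Matrix.mul_assoc A⁻¹,
          Matrix.nonsing_inv_mul A hAd, Matrix.one_mul]
      rw [h3, Matrix.trace_mul_comm, Matrix.mul_assoc, Matrix.mul_nonsing_inv _ hAtd,
        Matrix.mul_one]
    rw [e1, e2, e3, law_mul_rpow (d := |A.det| * |A.det|) (x := (symMat z).det) (by positivity),
      law_mul_rpow (d := |A.det| * |A.det|)
        (x := ((2 : ℝ) • (1 : Matrix (Fin n) (Fin n) ℝ)).det) (by positivity)]
    set d := |A.det| with hdd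
    have e4 : (d * d) ^ (a / 2 - ((Fintype.card (Fin n) : ℝ) + 1) / 2) =
        (d * d) ^ (a / 2) / d ^ (n + 1) := by
      rw [Real.rpow_sub (by positivity)]
      congr 1
      have h7 : d * d = d ^ (2 : ℝ) := by rw [Real.rpow_two, sq]
      rw [Fintype.card_fin, ← Real.rpow_natCast, h7, ← Real.rpow_mul hd.le]
      congr 1
      push_cast
      ring
    rw [e4]
    have h5 : (d * d) ^ (a / 2) ≠ 0 := by positivity
    have h6 : d ^ (n + 1) ≠ 0 := by positivity
    field_simp

theorem law_holds (hD : S_DENS) (hC : S_CONG) : S_LAW := by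
  intro ι _ _ n hn a ha S hS A hAS
  set e : ι ≃ Fin n := Fintype.equivFinOfCardEq hn with he
  set A' : Matrix (Fin n) (Fin n) ℝ := A.submatrix e.symm id with hA'
  have hAA : A' * A'ᵀ = S.submatrix e.symm e.symm := by
    rw [hA', ← hAS]
    ext i j
    rfl
  have hdet : A'.det ≠ 0 := by
    intro h
    have h1 : (S.submatrix e.symm e.symm).PosDef := hS.submatrix e.symm.injective
    have h2 := h1.det_pos
    rw [← hAA, Matrix.det_mul, h, zero_mul] at h2
    exact lt_irrefl _ h2
  obtain ⟨Ψ, hΨ, hW⟩ := law_square hC n a A' hdet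
  rw [hAA] at hW
  rw [law_reindex e a S, hW, ← hD n a ha,
    Measure.map_map (lawIx e).measurable Ψ.measurable,
    Measure.map_map (law_meas_symMat ι) ((lawIx e).measurable.comp Ψ.measurable),
    Measure.map_map (law_meas_congr A) (law_meas_symMat (Fin n))]
  congr 1
  funext z
  show symMat (lawIx e (Ψ z)) = A * symMat z * Aᵀ
  rw [symMat_lawIx, hΨ, hA']
  ext i j
  rw [Matrix.submatrix_apply, Matrix.mul_apply, Matrix.mul_apply]
  apply Finset.sum_congr rfl
  intro l _
  rw [Matrix.mul_apply, Matrix.mul_apply, Matrix.transpose_apply, Matrix.transpose_apply,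
    Matrix.submatrix_apply]
  simp

end Pool.Agent.TH435.WG
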