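import Pool.Agent.H98.WG.Stmts

set_option autoImplicit false
open MeasureTheory ProbabilityTheory Matrix
open scoped ENNReal

namespace Pool.Agent.TH435.WG

theorem mug_lint_prod (n : ℕ) : ∀ (μ : Fin n → Measure ℝ) (_ : ∀ i, SigmaFinite (μ i))
    (f : Fin n → ℝ → ℝ≥0∞) (_ : ∀ i, Measurable (f i)),
    ∫⁻ x : Fin n → ℝ, ∏ i, f i (x i) ∂(Measure.pi μ) = ∏ i, ∫⁻ x, f i x ∂(μ i) := by
  induction n with
  | zero =>
    intro μ _ f _
    simp
  | succ n ih =>
    intro μ hμ f hf
    have mp := (measurePreserving_piFinSuccAbove μ 0).symm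
    have hm : Measurable fun x : Fin (n + 1) → ℝ => ∏ i, f i (x i) :=
      Finset.measurable_fun_prod _ fun i _ => (hf i).comp (measurable_pi_apply i)
    have h1 := mp.lintegral_comp hm
    rw [← h1]
    have h2 : ∀ p : ℝ × (Fin n → ℝ),
        ∏ i, f i ((MeasurableEquiv.piFinSuccAbove (fun _ : Fin (n + 1) => ℝ) 0).symm p i) =
        f 0 p.1 * ∏ i : Fin n, f i.succ (p.2 i) := by
      intro p
      rw [Fin.prod_univ_succ]
      rfl
    simp_rw [h2]
    have hm2 : Measurable fun y : Fin n → ℝ => ∏ i : Fin n, f i.succ (y i) :=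
      Finset.measurable_fun_prod _ fun (i : Fin n) _ => (hf i.succ).comp (measurable_pi_apply i)
    have h3 := lintegral_prod_mul (μ := μ 0) (ν := Measure.pi fun j => μ (Fin.succAbove 0 j))
      (hf 0).aemeasurable hm2.aemeasurable
    rw [h3, Fin.prod_univ_succ]
    congr 1
    exact ih (fun i => μ i.succ) (fun i => hμ i.succ) (fun i => f i.succ) (fun i => hf i.succ)

theorem mug_gauss (j : ℕ) : gauss j = (volume : Measure (Fin j → ℝ)).withDensity
    fun ξ => ∏ i, gaussianPDF 0 1 (ξ i) := by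
  unfold gauss
  refine Measure.pi_eq fun s hs => ?_
  rw [withDensity_apply _ (MeasurableSet.univ_pi hs), volume_pi, Measure.restrict_pi_pi,
    mug_lint_prod j _ (fun i => inferInstance) (fun _ => gaussianPDF 0 1)
      (fun _ => measurable_gaussianPDF 0 1)]
  refine Finset.prod_congr rfl fun i _ => ?_
  rw [gaussianReal_of_var_ne_zero 0 one_ne_zero, withDensity_apply _ (hs i)]

theorem mug_gauss2 (j : ℕ) : gauss j = (ENNReal.ofReal (√(2 * Real.pi))⁻¹) ^ j •
    (volume : Measure (Fin j → ℝ)).withDensity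
    fun ξ => ENNReal.ofReal (Real.exp (-(1 / 2 * (ξ ⬝ᵥ ξ)))) := by
  rw [mug_gauss, ← withDensity_smul]
  · congr 1
    funext ξ
    rw [Pi.smul_apply, smul_eq_mul]
    have h1 : ∀ i : Fin j, gaussianPDF 0 1 (ξ i) = ENNReal.ofReal (√(2 * Real.pi))⁻¹ *
        ENNReal.ofReal (Real.exp (-(1 / 2 * (ξ i * ξ i)))) := by
      intro i
      rw [gaussianPDF, gaussianPDFReal, ← ENNReal.ofReal_mul (by positivity)]
      congr 1
      simp only [NNReal.coe_one, mul_one, sub_zero]
      congr 2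
      ring
    rw [Finset.prod_congr rfl fun i _ => h1 i, Finset.prod_mul_distrib, Finset.prod_const,
      Finset.card_univ, Fintype.card_fin]
    congr 1
    rw [← ENNReal.ofReal_prod_of_nonneg (fun i _ => (Real.exp_pos _).le), ← Real.exp_sum]
    congr 2
    rw [dotProduct, Finset.mul_sum, Finset.sum_neg_distrib]
  · apply Measurable.ennreal_ofReal
    apply Real.measurable_exp.comp
    unfold dotProduct
    fun_prop

theorem mug_chi (δ : ℝ) (hδ : 0 < δ) : chi δ =
    ENNReal.ofReal ((1 / 2 : ℝ) ^ (δ / 2) / Real.Gamma (δ / 2)) •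
    ((volume : Measure ℝ).restrict (Set.Ioi 0)).withDensity
    fun y => ENNReal.ofReal (Real.exp (-(1 / 2 * y)) * y ^ (δ / 2 - 1)) := by
  have hΓ : 0 < Real.Gamma (δ / 2) := Real.Gamma_pos_of_pos (by positivity)
  have hm : Measurable fun y : ℝ => ENNReal.ofReal (Real.exp (-(1 / 2 * y)) * y ^ (δ / 2 - 1)) := by
    apply Measurable.ennreal_ofReal
    fun_prop
  rw [← withDensity_smul _ hm, ← withDensity_indicator measurableSet_Ioi]
  unfold chi gammaMeasure
  apply withDensity_congr_ae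
  have h0 : ∀ᵐ y ∂(volume : Measure ℝ), y ≠ 0 := by
    rw [ae_iff]; simp
  filter_upwards [h0] with y hy
  rw [gammaPDF_eq]
  rcases lt_or_gt_of_ne hy with h | h
  · rw [Set.indicator_of_notMem (by simp [h.le]), if_neg (by linarith), ENNReal.ofReal_zero]
  · rw [Set.indicator_of_mem (by exact h), if_pos h.le, Pi.smul_apply, smul_eq_mul,
      ← ENNReal.ofReal_mul (by positivity)]
    congr 1
    ring

theorem mug_holds : S_MUG := by
  intro j δ hδ
  set c1 : ℝ≥0∞ := (ENNReal.ofReal (√(2 * Real.pi))⁻¹) ^ j with hc1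
  set c2 : ℝ≥0∞ := ENNReal.ofReal ((1 / 2 : ℝ) ^ (δ / 2) / Real.Gamma (δ / 2)) with hc2
  have hΓ : 0 < Real.Gamma (δ / 2) := Real.Gamma_pos_of_pos (by positivity)
  have c1t : c1 ≠ ⊤ := ENNReal.pow_ne_top ENNReal.ofReal_ne_top
  have c10 : c1 ≠ 0 := by
    rw [hc1]
    apply pow_ne_zero
    rw [Ne, ENNReal.ofReal_eq_zero, not_le]
    positivity
  have c2t : c2 ≠ ⊤ := ENNReal.ofReal_ne_top
  have c20 : c2 ≠ 0 := by
    rw [hc2, Ne, ENNReal.ofReal_eq_zero, not_le]
    positivity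
  have hm1 : Measurable fun ξ : Fin j → ℝ => ENNReal.ofReal (Real.exp (-(1 / 2 * (ξ ⬝ᵥ ξ)))) := by
    apply Measurable.ennreal_ofReal
    apply Real.measurable_exp.comp
    unfold dotProduct
    fun_prop
  have hm2 : Measurable fun y : ℝ => ENNReal.ofReal (Real.exp (-(1 / 2 * y)) * y ^ (δ / 2 - 1)) := by
    apply Measurable.ennreal_ofReal
    fun_prop
  have hmu : mu j δ (1 / 2) = ((volume : Measure (Fin j → ℝ)).withDensity
      fun ξ => ENNReal.ofReal (Real.exp (-(1 / 2 * (ξ ⬝ᵥ ξ))))).prod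
      (((volume : Measure ℝ).restrict (Set.Ioi 0)).withDensity
      fun y => ENNReal.ofReal (Real.exp (-(1 / 2 * y)) * y ^ (δ / 2 - 1))) := by
    rw [prod_withDensity hm1 hm2]
    unfold mu
    congr 1
    funext ω
    rw [← ENNReal.ofReal_mul (Real.exp_pos _).le, ← mul_assoc, ← Real.exp_add]
    congr 3
    ring
  refine ⟨(c1 * c2)⁻¹, ENNReal.inv_ne_zero.2 (ENNReal.mul_ne_top c1t c2t),
    ENNReal.inv_ne_top.2 (mul_ne_zero c10 c20), ?_⟩
  rw [mug_gauss2, mug_chi δ hδ, ← hc1, ← hc2, Measure.prod_smul_left, Measure.prod_smul_right,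
    ← hmu, smul_smul, smul_smul, mul_assoc, ENNReal.inv_mul_cancel (mul_ne_zero c10 c20)
      (ENNReal.mul_ne_top c1t c2t), one_smul]

end Pool.Agent.TH435.WG
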