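import Pool.Agent.H98.WG.Stmts2
import Pool.Agent.H98.WG.Sr

/-! The scalar case. -/

set_option autoImplicit false
open MeasureTheory ProbabilityTheory Matrix
open scoped ENNReal

namespace Pool.Agent.TH435.WG

namespace ScX

open SrX

/-- integrals over `gauss 0 × BW` of functions of the second variable. -/
theorem lint_g0 {n : ℕ} {a : ℝ} (h : IsProbabilityMeasure (BW n a))
    (F : (Fin 0 → ℝ) → Matrix (Fin n) (Fin n) ℝ → ℝ≥0∞)
    (F' : Matrix (Fin n) (Fin n) ℝ → ℝ≥0∞) (hF : ∀ z X, F z X = F' X) (hm : Measurable F') :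
    ∫⁻ q, F q.1 q.2 ∂((gauss 0).prod (BW n a)) = ∫⁻ X, F' X ∂(BW n a) := by
  have e : (fun q : (Fin 0 → ℝ) × Matrix (Fin n) (Fin n) ℝ => F q.1 q.2) = fun q => F' q.2 := by
    funext q; exact hF _ _
  have hm2 : AEMeasurable (fun q : (Fin 0 → ℝ) × Matrix (Fin n) (Fin n) ℝ => F' q.2)
      ((gauss 0).prod (BW n a)) := (hm.comp measurable_snd).aemeasurable
  rw [e, lintegral_prod _ hm2]
  simp

theorem meas_sub {n : ℕ} (σ : Equiv.Perm (Fin n)) :
    Measurable (fun X : Matrix (Fin n) (Fin n) ℝ => X.submatrix σ σ) := by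
  refine measurable_pi_iff.2 fun i => measurable_pi_iff.2 fun j => ?_
  exact (measurable_pi_apply (σ j)).comp (measurable_pi_apply (X := fun _ => Fin n → ℝ) (σ i))

theorem lint_perm (hP : S_PERM) {n : ℕ} {a : ℝ} (ha : (n : ℝ) - 1 < a) (σ : Equiv.Perm (Fin n))
    (F : Matrix (Fin n) (Fin n) ℝ → ℝ≥0∞) (hF : Measurable F) :
    ∫⁻ X, F (X.submatrix σ σ) ∂(BW n a) = ∫⁻ X, F X ∂(BW n a) := by
  conv_rhs => rw [← hP n a ha σ, lintegral_map hF (meas_sub σ)]

theorem conj_sub {p n : ℕ} (σ : Equiv.Perm (Fin n)) (C : Matrix (Fin p) (Fin n) ℝ)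
    (X : Matrix (Fin n) (Fin n) ℝ) :
    C * X.submatrix σ σ * Cᵀ = (C.submatrix id σ.symm) * X * (C.submatrix id σ.symm)ᵀ := by
  ext i j
  simp only [Matrix.mul_apply, Matrix.submatrix_apply, Matrix.transpose_apply, id]
  rw [← Equiv.sum_comp σ.symm]
  refine Finset.sum_congr rfl fun l _ => ?_
  rw [← Equiv.sum_comp σ.symm]
  simp

end ScX

open ScX SrX in
theorem sc_holds (hG : S_GEN) (hP : S_PERM) (hS : S_SCS) (hD : S_PD) : S_SC := by
  intro n a ha K _ p R C ν ν0 hR hν hν0 hcond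
  have ha1 : ((n + 1 : ℕ) : ℝ) - 1 < a := by push_cast; linarith
  have hpr := (hD (n + 1) a ha1).1
  have m00 : Measurable (fun X : Matrix (Fin (n + 1)) (Fin (n + 1)) ℝ =>
      ENNReal.ofReal (X 0 0 ^ ν0)) := ((meas_entry 0 0).pow_const ν0).ennreal_ofReal
  have mll : Measurable (fun X : Matrix (Fin (n + 1)) (Fin (n + 1)) ℝ =>
      ENNReal.ofReal (X (Fin.last n) (Fin.last n) ^ ν0)) :=
    ((meas_entry (Fin.last n) (Fin.last n)).pow_const ν0).ennreal_ofReal
  have mG := meas_Gf p R C ν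
  rcases hcond with h | h
  · -- all blocks are small
    set σ : Equiv.Perm (Fin (n + 1)) := Equiv.swap 0 (Fin.last n) with hσ
    set C' : ∀ k, Matrix (Fin (p k)) (Fin (n + 1)) ℝ := fun k => (C k).submatrix id σ with hC'
    have mG' := meas_Gf p R C' ν
    have hg := hG n 0 a ha K p R (fun k => 0) C' ν ν0 hR hν hν0 (fun k => by
      have := h k
      simpa using this)
    have e1 : ∫⁻ q, ENNReal.ofReal ((q.1 ⬝ᵥ q.1 + q.2 (Fin.last n) (Fin.last n)) ^ ν0)
        ∂((gauss 0).prod (BW (n + 1) a)) =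
        ∫⁻ X, ENNReal.ofReal (X (Fin.last n) (Fin.last n) ^ ν0) ∂(BW (n + 1) a) := by
      refine lint_g0 hpr (fun z X => ENNReal.ofReal ((z ⬝ᵥ z + X (Fin.last n) (Fin.last n)) ^ ν0)) _
        (fun z X => ?_) mll
      simp
    have e2' : ∀ (z : Fin 0 → ℝ) (X : Matrix (Fin (n + 1)) (Fin (n + 1)) ℝ),
        ∏ k, ENNReal.ofReal ((R k + (0 + vecMulVec (fun i => C' k i (Fin.last n)) z) *
          (0 + vecMulVec (fun i => C' k i (Fin.last n)) z)ᵀ + C' k * X * (C' k)ᵀ).det ^ ν k) =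
        Gf p R C' ν X := by
      intro z X
      unfold Gf
      refine Finset.prod_congr rfl fun k _ => ?_
      have : (0 + vecMulVec (fun i => C' k i (Fin.last n)) z) *
          (0 + vecMulVec (fun i => C' k i (Fin.last n)) z)ᵀ = 0 := by
        ext i j
        simp [Matrix.mul_apply]
      rw [this, add_zero]
    have e2 : ∫⁻ q, ∏ k, ENNReal.ofReal ((R k + (0 + vecMulVec (fun i => C' k i (Fin.last n)) q.1) *
          (0 + vecMulVec (fun i => C' k i (Fin.last n)) q.1)ᵀ + C' k * q.2 * (C' k)ᵀ).det ^ ν k)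
        ∂((gauss 0).prod (BW (n + 1) a)) = ∫⁻ X, Gf p R C' ν X ∂(BW (n + 1) a) :=
      lint_g0 hpr (fun z X => ∏ k, ENNReal.ofReal ((R k +
        (0 + vecMulVec (fun i => C' k i (Fin.last n)) z) *
          (0 + vecMulVec (fun i => C' k i (Fin.last n)) z)ᵀ + C' k * X * (C' k)ᵀ).det ^ ν k)) _
        e2' mG'
    have e3' : ∀ (z : Fin 0 → ℝ) (X : Matrix (Fin (n + 1)) (Fin (n + 1)) ℝ),
        ENNReal.ofReal ((z ⬝ᵥ z + X (Fin.last n) (Fin.last n)) ^ ν0) *
        ∏ k, ENNReal.ofReal ((R k + (0 + vecMulVec (fun i => C' k i (Fin.last n)) z) *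
          (0 + vecMulVec (fun i => C' k i (Fin.last n)) z)ᵀ + C' k * X * (C' k)ᵀ).det ^ ν k) =
        ENNReal.ofReal (X (Fin.last n) (Fin.last n) ^ ν0) * Gf p R C' ν X := by
      intro z X
      rw [e2' z X]
      simp
    have mlG : Measurable (fun X : Matrix (Fin (n + 1)) (Fin (n + 1)) ℝ =>
      ENNReal.ofReal (X (Fin.last n) (Fin.last n) ^ ν0) * Gf p R C' ν X) := mll.mul mG'
    have e3 : ∫⁻ q, ENNReal.ofReal ((q.1 ⬝ᵥ q.1 + q.2 (Fin.last n) (Fin.last n)) ^ ν0) *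
        ∏ k, ENNReal.ofReal ((R k + (0 + vecMulVec (fun i => C' k i (Fin.last n)) q.1) *
          (0 + vecMulVec (fun i => C' k i (Fin.last n)) q.1)ᵀ + C' k * q.2 * (C' k)ᵀ).det ^ ν k)
        ∂((gauss 0).prod (BW (n + 1) a)) =
        ∫⁻ X, ENNReal.ofReal (X (Fin.last n) (Fin.last n) ^ ν0) * Gf p R C' ν X ∂(BW (n + 1) a) :=
      lint_g0 hpr (fun z X => ENNReal.ofReal ((z ⬝ᵥ z + X (Fin.last n) (Fin.last n)) ^ ν0) *
        ∏ k, ENNReal.ofReal ((R k + (0 + vecMulVec (fun i => C' k i (Fin.last n)) z) *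
          (0 + vecMulVec (fun i => C' k i (Fin.last n)) z)ᵀ + C' k * X * (C' k)ᵀ).det ^ ν k)) _
        e3' mlG
    rw [e1, e2, e3] at hg
    -- permute
    have s0 : σ.symm = σ := by rw [hσ]; exact Equiv.symm_swap _ _
    have hGf : ∀ X : Matrix (Fin (n + 1)) (Fin (n + 1)) ℝ,
        Gf p R C' ν (X.submatrix σ σ) = Gf p R C ν X := by
      intro X
      unfold Gf
      refine Finset.prod_congr rfl fun k _ => ?_
      rw [conj_sub, s0]
      have : (C' k).submatrix id σ = C k := by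
        ext i j
        simp [hC', hσ]
      rw [this]
    have hll : ∀ X : Matrix (Fin (n + 1)) (Fin (n + 1)) ℝ,
        (X.submatrix σ σ) (Fin.last n) (Fin.last n) = X 0 0 := by
      intro X
      simp [hσ]
    have f1 := lint_perm hP ha1 σ _ mll
    have f2 := lint_perm hP ha1 σ _ mG'
    have f3 := lint_perm hP ha1 σ _ mlG
    rw [← f1, ← f2, ← f3] at hg
    simp only [hGf, hll] at hg
    exact hg
  · -- one block
    rcases isEmpty_or_nonempty K with hK | ⟨⟨k0⟩⟩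
    · have : ∀ X, Gf p R C ν X = 1 := fun X => by unfold Gf; simp
      simp [this]
    · have e : ∀ X, Gf p R C ν X = ENNReal.ofReal ((R k0 + C k0 * X * (C k0)ᵀ).det ^ ν k0) := by
        intro X
        unfold Gf
        exact Fintype.prod_subsingleton _ k0
      simp only [e]
      exact hS n a ha (p k0) (R k0) (C k0) (ν k0) ν0 (hR k0) (hν k0) hν0

end Pool.Agent.TH435.WG
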