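import Pool.Agent.H98.WG.Pd

/-! Job WG-WBW (helper263): the density measure is a multiple of `BW`. -/

set_option autoImplicit false
open MeasureTheory ProbabilityTheory Matrix
open scoped ENNReal

namespace Pool.Agent.TH435.WG

/-- the integral of a product of functions of different coordinates -/
theorem lintegral_pi_prod_sf {ι : Type*} [Fintype ι] {Ω : ι → Type*}
    [∀ i, MeasurableSpace (Ω i)] (μ : ∀ i, Measure (Ω i)) [∀ i, SigmaFinite (μ i)]
    (f : ∀ i, Ω i → ℝ≥0∞) (hf : ∀ i, Measurable (f i)) :
    ∫⁻ ω, ∏ i, f i (ω i) ∂(Measure.pi μ) = ∏ i, ∫⁻ x, f i x ∂(μ i) := by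
  classical
  have hmt : ∀ t : Finset ι, Measurable (fun ω : ∀ i, Ω i => ∏ i ∈ t, f i (ω i)) := fun t =>
    Finset.measurable_fun_prod _ fun i _ => (hf i).comp (measurable_pi_apply i)
  have key : ∀ (t : Finset ι) (x : ∀ i, Ω i),
      (∫⋯∫⁻_t, (fun ω => ∏ i ∈ t, f i (ω i)) ∂μ) x = ∏ i ∈ t, ∫⁻ y, f i y ∂(μ i) := by
    intro t
    induction t using Finset.induction_on with
    | empty => intro x; simp
    | insert i t hi ih =>
      intro x
      rw [lmarginal_insert _ (hmt _) hi]
      have h1 : ∀ y : Ω i, (∫⋯∫⁻_t, (fun ω => ∏ j ∈ insert i t, f j (ω j)) ∂μ)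
          (Function.update x i y) = f i y * ∏ j ∈ t, ∫⁻ y, f j y ∂(μ j) := by
        intro y
        rw [← ih (Function.update x i y)]
        unfold lmarginal
        rw [← lintegral_const_mul]
        · refine lintegral_congr fun z => ?_
          simp only [Finset.prod_insert hi]
          congr 1
          simp [Function.updateFinset, hi]
        · exact (hmt t).comp measurable_updateFinset
      simp_rw [h1]
      rw [lintegral_mul_const _ (hf i), Finset.prod_insert hi]
  by_cases hne : Nonempty (∀ i, Ω i)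
  · obtain ⟨x⟩ := hne
    have h := key Finset.univ x
    rw [lmarginal_univ] at h
    exact h
  · have hE : ∃ i, IsEmpty (Ω i) := by
      by_contra hcon
      push Not at hcon
      apply hne
      exact ⟨fun i => (not_isEmpty_iff.1 (by simp)).some⟩
    obtain ⟨i, hi⟩ := hE
    have h1 : IsEmpty (∀ i, Ω i) := ⟨fun g => hi.false (g i)⟩
    rw [Finset.prod_eq_zero (Finset.mem_univ i)]
    · simp [lintegral_of_isEmpty]
    · simp [lintegral_of_isEmpty]

/-- product measures with densities -/
theorem pi_withDensity_sf {ι : Type*} [Fintype ι] {Ω : ι → Type*}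
    [∀ i, MeasurableSpace (Ω i)] (μ : ∀ i, Measure (Ω i)) [∀ i, SigmaFinite (μ i)]
    (f : ∀ i, Ω i → ℝ≥0∞) (hf : ∀ i, Measurable (f i))
    [∀ i, SigmaFinite ((μ i).withDensity (f i))] :
    Measure.pi (fun i => (μ i).withDensity (f i)) =
      (Measure.pi μ).withDensity (fun ω => ∏ i, f i (ω i)) := by
  refine Measure.pi_eq fun s hs => ?_
  rw [withDensity_apply _ (MeasurableSet.univ_pi hs), Measure.restrict_pi_pi,
    lintegral_pi_prod_sf _ f hf]
  exact Finset.prod_congr rfl fun i _ => (withDensity_apply _ (hs i)).symm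

/-- the unnormalised Gaussian density measure is a multiple of `gauss n` -/
theorem gauss_density (n : ℕ) : ((volume : Measure (Fin n → ℝ)).withDensity
        fun η => ENNReal.ofReal (Real.exp (-((η ⬝ᵥ η) / 2)))) =
      ENNReal.ofReal (√(2 * Real.pi) ^ n) • gauss n := by
  have h0 : gaussianReal 0 1 = (volume : Measure ℝ).withDensity (gaussianPDF 0 1) :=
    gaussianReal_of_var_ne_zero 0 one_ne_zero
  unfold gauss
  have : SigmaFinite ((volume : Measure ℝ).withDensity (gaussianPDF 0 1)) := by
    rw [← h0]; infer_instance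
  have h2 := pi_withDensity_sf (fun _ : Fin n => (volume : Measure ℝ)) (fun _ => gaussianPDF 0 1)
    (fun _ => measurable_gaussianPDF 0 1)
  simp_rw [h0]
  rw [h2, ← volume_pi, ← withDensity_smul' _ _ ENNReal.ofReal_ne_top]
  congr 1
  funext η
  simp only [Pi.smul_apply, smul_eq_mul, gaussianPDF, gaussianPDFReal]
  rw [← ENNReal.ofReal_prod_of_nonneg (fun i _ => by positivity),
    ← ENNReal.ofReal_mul (by positivity), Finset.prod_mul_distrib, ← Real.exp_sum,
    Finset.prod_const, Finset.card_univ, Fintype.card_fin, ← mul_assoc, ← mul_pow]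
  have hpi : √(2 * Real.pi) ≠ 0 := by positivity
  have e : √(2 * Real.pi) * (√(2 * Real.pi * ((1 : NNReal) : ℝ)))⁻¹ = 1 := by
    rw [NNReal.coe_one, mul_one]; exact mul_inv_cancel₀ hpi
  rw [e, one_pow, one_mul]
  congr 2
  rw [dotProduct, ← neg_div, ← Finset.sum_neg_distrib, Finset.sum_div]
  refine Finset.sum_congr rfl fun i _ => ?_
  push_cast
  ring

/-- the unnormalised gamma density measure is a multiple of `chi a` -/
theorem chi_density {a : ℝ} (ha : 0 < a) :
    (((volume : Measure ℝ).restrict (Set.Ioi 0)).withDensity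
        fun t => ENNReal.ofReal (t ^ (a / 2 - 1) * Real.exp (-(t / 2)))) =
      ENNReal.ofReal (Real.Gamma (a / 2) / (1 / 2) ^ (a / 2)) • chi a := by
  unfold chi gammaMeasure
  rw [← withDensity_smul' _ _ ENNReal.ofReal_ne_top, ← withDensity_indicator measurableSet_Ioi]
  refine withDensity_congr_ae ?_
  have h0 : ∀ᵐ t : ℝ, t ≠ 0 := by simp [ae_iff]
  filter_upwards [h0] with t ht
  have hG : (0 : ℝ) < Real.Gamma (a / 2) := Real.Gamma_pos_of_pos (by linarith)
  simp only [Pi.smul_apply, smul_eq_mul, gammaPDF, gammaPDFReal]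
  rcases lt_or_gt_of_ne ht with h | h
  · rw [Set.indicator_of_notMem (by simpa using h.le), if_neg (not_le.mpr h)]
    simp
  · rw [Set.indicator_of_mem (by simpa using h), if_pos h.le,
      ← ENNReal.ofReal_mul (by positivity)]
    congr 1
    have h2 : (0 : ℝ) < (1 / 2) ^ (a / 2) := by positivity
    have e : -(1 / 2 * t) = -(t / 2) := by ring
    rw [e]
    field_simp

theorem wbw_holds (hW : S_WREC) : S_WBW := by
  intro n
  induction n with
  | zero =>
    intro a _
    refine ⟨1, one_ne_zero, ENNReal.one_ne_top, ?_⟩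
    rw [one_smul]
    simp only [BW]
    have hc : cone (Fin 0) = Set.univ := by
      refine Set.eq_univ_of_forall fun x => ?_
      have : symMat x = 1 := by ext i; exact i.elim0
      show (symMat x).PosDef
      rw [this]
      exact PosDef.one
    have hE : IsEmpty (Sym2 (Fin 0)) := by infer_instance
    have hv : (volume : Measure (Sym2 (Fin 0) → ℝ)) = Measure.dirac isEmptyElim := by
      rw [volume_pi]
      exact Measure.pi_of_empty _ _
    unfold Wun
    rw [hc, Measure.restrict_univ]
    have hd : (fun x : Sym2 (Fin 0) → ℝ => ENNReal.ofReal ((symMat x).det ^ ((a - (0 : ℕ) - 1) / 2) *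
        Real.exp (-((symMat x).trace / 2)))) = 1 := by
      funext x
      simp [Matrix.trace]
    rw [hd, withDensity_one, hv, Measure.map_dirac' (by
      refine measurable_pi_iff.mpr fun i => i.elim0)]
    congr 1
    ext i
    exact i.elim0
  | succ n ih =>
    intro a ha
    have ha' : (n : ℝ) < a := by push_cast at ha; linarith
    have ha0 : 0 < a := lt_of_le_of_lt (Nat.cast_nonneg n) ha'
    obtain ⟨C, hC0, hCt, hC⟩ := ih (a - 1) (by linarith)
    have := isProb_BW n (a - 1) (by linarith)
    have : IsProbabilityMeasure (chi a) := isProb_chi ha0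
    have hG : (0 : ℝ) < Real.Gamma (a / 2) := Real.Gamma_pos_of_pos (by linarith)
    refine ⟨ENNReal.ofReal (Real.Gamma (a / 2) / (1 / 2) ^ (a / 2)) *
      (ENNReal.ofReal (√(2 * Real.pi) ^ n) * C), ?_, ?_, ?_⟩
    · refine mul_ne_zero ?_ (mul_ne_zero ?_ hC0)
      · rw [Ne, ENNReal.ofReal_eq_zero, not_le]; positivity
      · rw [Ne, ENNReal.ofReal_eq_zero, not_le]; positivity
    · exact ENNReal.mul_ne_top ENNReal.ofReal_ne_top
        (ENNReal.mul_ne_top ENNReal.ofReal_ne_top hCt)
    · rw [hW n a, hC, gauss_density, chi_density ha0]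
      simp only [BW]
      rw [Measure.prod_smul_left, Measure.prod_smul_right, Measure.prod_smul_left,
        Measure.prod_smul_right, Measure.prod_smul_right, Measure.map_smul, Measure.map_smul,
        Measure.map_smul, smul_smul, smul_smul]
      congr 1
      ring

end Pool.Agent.TH435.WG
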