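import Pool.Agent.H98.WG.And
import Pool.Agent.H98.WG.A
import Pool.Agent.H98.WG.Quad
import Pool.Agent.H98.WG.Iby
import Pool.Agent.H98.WG.Frac
import Pool.Agent.H98.WG.Mug
import Pool.Agent.H98.WG.Core
import Pool.Agent.H98.WG.Gen
import Pool.Agent.H98.WG.Glue
import Pool.Agent.H98.WG.Wbw
import Pool.Agent.H98.WG.Perm
import Pool.Agent.H98.WG.Dens
import Pool.Agent.H98.WG.Cong
import Pool.Agent.H98.WG.Law
import Pool.Agent.H98.WG.Chol
import Pool.Agent.H98.WG.Mom
import Pool.Agent.H98.WG.Prod
import Pool.Agent.H98.WG.Scs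
import Pool.Agent.H98.WG.Sc

/-! The final step of project WG. -/

set_option autoImplicit false
open MeasureTheory ProbabilityTheory Matrix
open scoped ENNReal

namespace Pool.Agent.TH435.WG

theorem all_int : S_INT := int_holds
theorem all_ibx : S_IBX := ibx_holds all_int
theorem all_iby : S_IBY := iby_holds all_int
theorem all_a : S_A := A_holds all_int all_ibx all_iby
theorem all_core : S_CORE := core_holds quad_holds all_a frac_holds mug_holds all_ibx all_iby all_int
theorem all_gen : S_GEN := gen_holds all_core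
theorem all_pd : S_PD := pd_holds schur_holds
theorem all_wrec : S_WREC := wrec_holds glue_holds schur_holds
theorem all_wbw : S_WBW := wbw_holds all_wrec
theorem all_perm : S_PERM := perm_holds all_wbw
theorem all_dens : S_DENS := dens_holds all_wbw all_pd
theorem all_law : S_LAW := law_holds all_dens cong_holds
theorem all_mom : S_MOM := mom_holds all_pd
theorem all_scs : S_SCS := scs_holds and_holds all_pd
theorem all_sc : S_SC := sc_holds all_gen all_perm all_scs all_pd
theorem all_sr : S_SR := sr_holds all_sc schur_holds all_pd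
theorem all_prod : S_PROD := prod_holds all_law all_sr chol_holds all_mom all_pd

open ProdAux in
theorem final_holds : S_FINAL := by
  classical
  intro d p hd hp α hα S hS
  obtain ⟨n, hn⟩ : ∃ n, ∑ k, p k = n := ⟨_, rfl⟩
  have hcard : Fintype.card ((k : Fin d) × Fin (p k)) = n := card_sig hn
  have ha : (n : ℝ) - 1 < α := by rw [← hn]; push_cast; exact hα
  -- a factorisation `S = A Aᵀ`
  set e : ((k : Fin d) × Fin (p k)) ≃ Fin n := Fintype.equivFinOfCardEq hcard with he
  obtain ⟨L, _, hL⟩ := chol_holds n (S.submatrix e.symm e.symm) (hS.submatrix e.symm.injective)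
  set A : Matrix ((k : Fin d) × Fin (p k)) (Fin n) ℝ := L.submatrix e id with hA
  have hAA : A * Aᵀ = S := by
    ext i j
    have := congrFun (congrFun hL (e i)) (e j)
    simpa [hA, Matrix.mul_apply] using this
  have hW := all_law ((k : Fin d) × Fin (p k)) n hcard α ha S hS A hAA
  have hpr := (all_pd n α ha).1
  have hpd := (all_pd n α ha).2
  have mS := law_meas_symMat ((k : Fin d) × Fin (p k))
  have mT := law_meas_congr A
  -- transport of integrals
  have tr : ∀ F : Matrix ((k : Fin d) × Fin (p k)) ((k : Fin d) × Fin (p k)) ℝ → ℝ≥0∞,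
      Measurable F → ∫⁻ x, F (symMat x) ∂(wishart α S) = ∫⁻ X, F (A * X * Aᵀ) ∂(BW n α) := by
    intro F hF
    rw [← lintegral_map hF mS, hW, lintegral_map hF mT]
  have hprob : IsProbabilityMeasure (wishart α S) := by
    refine ⟨?_⟩
    have := tr (fun _ => 1) measurable_const
    simpa using this
  refine ⟨hprob, fun ν hν => ?_⟩
  -- almost sure positive definiteness
  have hae : ∀ᵐ x ∂(wishart α S), (symMat x).PosDef := by
    unfold wishart
    exact (withDensity_absolutelyContinuous _ _).ae_le (ae_restrict_mem (Wrec.measurableSet_cone _))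
  -- the integrands
  have mblk : ∀ k, Measurable (fun x : Sym2 ((k : Fin d) × Fin (p k)) → ℝ =>
      ((symMat x).submatrix (Sigma.mk k) (Sigma.mk k)).det ^ ν k) := by
    intro k
    refine Measurable.pow_const ?_ _
    have h1 : Measurable (fun Y : Matrix (Fin (p k)) (Fin (p k)) ℝ => Y.det) :=
      (continuous_id.matrix_det).measurable
    exact h1.comp ((blk_measurable k).comp mS)
  have hpos : ∀ k, ∀ᵐ x ∂(wishart α S),
      0 ≤ ((symMat x).submatrix (Sigma.mk k) (Sigma.mk k)).det ^ ν k := by
    intro k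
    filter_upwards [hae] with x hx
    exact Real.rpow_nonneg (blk_psd hx.posSemidef k).det_nonneg _
  -- values as lower integrals
  have val1 : ∀ k, ∫⁻ x, ENNReal.ofReal
      (((symMat x).submatrix (Sigma.mk k) (Sigma.mk k)).det ^ ν k) ∂(wishart α S) =
      ∫⁻ X, ENNReal.ofReal (((A * X * Aᵀ).submatrix (Sigma.mk k) (Sigma.mk k)).det ^ ν k)
        ∂(BW n α) := by
    intro k
    have mF : Measurable (fun Y : Matrix ((k : Fin d) × Fin (p k)) ((k : Fin d) × Fin (p k)) ℝ =>
        FF 0 (ν k) (blk k Y)) := (FF_measurable 0 (ν k)).comp (blk_measurable k)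
    have := tr _ mF
    simp only [FF_zero] at this
    exact this
  have val2 : ∫⁻ x, ∏ k, ENNReal.ofReal
      (((symMat x).submatrix (Sigma.mk k) (Sigma.mk k)).det ^ ν k) ∂(wishart α S) =
      ∫⁻ X, ∏ k, ENNReal.ofReal (((A * X * Aᵀ).submatrix (Sigma.mk k) (Sigma.mk k)).det ^ ν k)
        ∂(BW n α) := by
    have mF : Measurable (fun Y : Matrix ((k : Fin d) × Fin (p k)) ((k : Fin d) × Fin (p k)) ℝ =>
        ∏ k, FF 0 (ν k) (blk k Y)) :=
      Finset.measurable_fun_prod _ fun k _ => (FF_measurable 0 (ν k)).comp (blk_measurable k)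
    have := tr _ mF
    simp only [FF_zero] at this
    exact this
  -- finiteness
  have fin0 : ∀ ν' : Fin d → ℝ, (∀ k, 0 ≤ ν' k) → ∫⁻ X, ∏ k, ENNReal.ofReal
      (((A * X * Aᵀ).submatrix (Sigma.mk k) (Sigma.mk k)).det ^ ν' k) ∂(BW n α) ≠ ⊤ := by
    intro ν' hν'
    refine ne_top_of_le_ne_top (dom all_mom all_pd α ha A ν' hν') ?_
    apply lintegral_mono_ae
    filter_upwards [hpd] with X hX
    refine Finset.prod_le_prod' fun k _ => ?_
    have := FF_mono (hν' k) (blk_psd (conj_psd A hX.posSemidef) k) le_rfl (zero_le_one)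
    rw [FF_zero] at this
    exact this
  have fin1 : ∀ k, ∫⁻ X, ENNReal.ofReal
      (((A * X * Aᵀ).submatrix (Sigma.mk k) (Sigma.mk k)).det ^ ν k) ∂(BW n α) ≠ ⊤ := by
    intro k
    have h := fin0 (Pi.single k (ν k)) (fun j => by
      rcases eq_or_ne j k with rfl | hj
      · simpa using hν j
      · simp [hj])
    have h2 : ∀ X : Matrix (Fin n) (Fin n) ℝ, ∏ j, ENNReal.ofReal
      (((A * X * Aᵀ).submatrix (Sigma.mk j) (Sigma.mk j)).det ^
        (Pi.single k (ν k) : Fin d → ℝ) j) = ENNReal.ofReal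
      (((A * X * Aᵀ).submatrix (Sigma.mk k) (Sigma.mk k)).det ^ ν k) := by
      intro X
      rw [Finset.prod_eq_single k]
      · simp
      · intro j _ hj
        simp [hj]
      · simp
    simpa only [h2] using h
  have fin2 := fin0 ν hν
  have int1 : ∀ k, Integrable (fun x => ((symMat x).submatrix (Sigma.mk k) (Sigma.mk k)).det ^ ν k)
      (wishart α S) := by
    intro k
    refine ⟨(mblk k).aestronglyMeasurable, ?_⟩
    rw [hasFiniteIntegral_iff_ofReal (hpos k), val1 k]
    exact (fin1 k).lt_top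
  have hpos2 : ∀ᵐ x ∂(wishart α S),
      0 ≤ ∏ k, ((symMat x).submatrix (Sigma.mk k) (Sigma.mk k)).det ^ ν k := by
    filter_upwards [hae] with x hx
    exact Finset.prod_nonneg fun k _ => Real.rpow_nonneg (blk_psd hx.posSemidef k).det_nonneg _
  have eprod : ∫⁻ x, ENNReal.ofReal
      (∏ k, ((symMat x).submatrix (Sigma.mk k) (Sigma.mk k)).det ^ ν k) ∂(wishart α S) =
      ∫⁻ x, ∏ k, ENNReal.ofReal
      (((symMat x).submatrix (Sigma.mk k) (Sigma.mk k)).det ^ ν k) ∂(wishart α S) := by
    apply lintegral_congr_ae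
    filter_upwards [hae] with x hx
    exact ENNReal.ofReal_prod_of_nonneg
      fun k _ => Real.rpow_nonneg (blk_psd hx.posSemidef k).det_nonneg _
  have int2 : Integrable (fun x => ∏ k, ((symMat x).submatrix (Sigma.mk k) (Sigma.mk k)).det ^ ν k)
      (wishart α S) := by
    refine ⟨(Finset.measurable_fun_prod _ fun k _ => mblk k).aestronglyMeasurable, ?_⟩
    rw [hasFiniteIntegral_iff_ofReal hpos2, eprod, val2]
    exact fin2.lt_top
  refine ⟨int1, int2, ?_⟩
  have key := all_prod d p n hn hp α ha A (by rw [hAA]; exact hS) ν hν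
  rw [integral_eq_lintegral_of_nonneg_ae hpos2 int2.1, eprod, val2]
  have e1 : ∀ k, ∫ x, ((symMat x).submatrix (Sigma.mk k) (Sigma.mk k)).det ^ ν k ∂(wishart α S) =
      (∫⁻ X, ENNReal.ofReal (((A * X * Aᵀ).submatrix (Sigma.mk k) (Sigma.mk k)).det ^ ν k)
        ∂(BW n α)).toReal := by
    intro k
    rw [integral_eq_lintegral_of_nonneg_ae (hpos k) (int1 k).1, val1 k]
  rw [Finset.prod_congr rfl fun k _ => e1 k, ← ENNReal.toReal_prod]
  exact ENNReal.toReal_mono fin2 key

end Pool.Agent.TH435.WG
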