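import Pool.Agent.H98.WG.Stmts2
import Pool.Agent.H98.WG.Sr

/-! Scalar case for one block (from the Anderson-type monotonicity). -/

set_option autoImplicit false
open MeasureTheory ProbabilityTheory Matrix
open scoped ENNReal

namespace Pool.Agent.TH435.WG

namespace ScsX

theorem rearr {a b c d : ℝ≥0∞} (h1 : a ≤ b) (h2 : c ≤ d) : a * d + b * c ≤ a * c + b * d := by
  obtain ⟨x, rfl⟩ := exists_add_of_le h1
  obtain ⟨y, rfl⟩ := exists_add_of_le h2
  calc a * (c + y) + (a + x) * c ≤ a * (c + y) + (a + x) * c + x * y := le_self_add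
    _ = a * c + (a + x) * (c + y) := by ring

/-- Chebyshev's association inequality. -/
theorem cheb {μ : Measure ℝ} [IsProbabilityMeasure μ] {f g : ℝ → ℝ≥0∞} (hf : Measurable f)
    (hg : Measurable g) (S : Set ℝ) (hS : ∀ᵐ t ∂μ, t ∈ S) (hfm : MonotoneOn f S)
    (hgm : MonotoneOn g S) : (∫⁻ t, f t ∂μ) * (∫⁻ t, g t ∂μ) ≤ ∫⁻ t, f t * g t ∂μ := by
  have h1 : ∫⁻ x, ∫⁻ y, (f x * g y + f y * g x) ∂μ ∂μ ≤
      ∫⁻ x, ∫⁻ y, (f x * g x + f y * g y) ∂μ ∂μ := by
    apply lintegral_mono_ae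
    filter_upwards [hS] with x hx
    apply lintegral_mono_ae
    filter_upwards [hS] with y hy
    rcases le_total x y with h | h
    · exact rearr (hfm hx hy h) (hgm hx hy h)
    · have := rearr (hfm hy hx h) (hgm hy hx h)
      calc f x * g y + f y * g x = f y * g x + f x * g y := add_comm _ _
        _ ≤ f y * g y + f x * g x := this
        _ = _ := add_comm _ _
  have e1 : ∫⁻ x, ∫⁻ y, (f x * g y + f y * g x) ∂μ ∂μ =
      2 * ((∫⁻ t, f t ∂μ) * (∫⁻ t, g t ∂μ)) := by
    have : ∀ x, ∫⁻ y, (f x * g y + f y * g x) ∂μ = f x * (∫⁻ t, g t ∂μ) + (∫⁻ t, f t ∂μ) * g x := by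
      intro x
      rw [lintegral_add_left (by fun_prop), lintegral_const_mul _ hg, lintegral_mul_const _ hf]
    simp_rw [this]
    rw [lintegral_add_left (by fun_prop), lintegral_mul_const _ hf, lintegral_const_mul _ hg]
    ring
  have e2 : ∫⁻ x, ∫⁻ y, (f x * g x + f y * g y) ∂μ ∂μ = 2 * ∫⁻ t, f t * g t ∂μ := by
    have : ∀ x, ∫⁻ y, (f x * g x + f y * g y) ∂μ = f x * g x + ∫⁻ t, f t * g t ∂μ := by
      intro x
      rw [lintegral_add_left (by fun_prop)]
      simp
    simp_rw [this]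
    rw [lintegral_add_left (by fun_prop)]
    simp
    ring
  rw [e1, e2] at h1
  exact (ENNReal.mul_le_mul_iff_right (by norm_num) (by norm_num)).1 h1

open SrX in
theorem meas_G (n : ℕ) (a : ℝ) (_ : IsProbabilityMeasure (BW n a))
    (F : Matrix (Fin (n + 1)) (Fin (n + 1)) ℝ → ℝ≥0∞) (hF : Measurable F) :
    Measurable (fun t : ℝ => ∫⁻ η, ∫⁻ S, F (build t η S) ∂(BW n a) ∂(gauss n)) := by
  have q1 : Measurable (fun q : (ℝ × (Fin n → ℝ)) × Matrix (Fin n) (Fin n) ℝ =>
      (q.1.1, (q.1.2, q.2))) :=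
    measurable_fst.fst.prodMk (measurable_fst.snd.prodMk measurable_snd)
  have q2 : Measurable (fun q : (ℝ × (Fin n → ℝ)) × Matrix (Fin n) (Fin n) ℝ =>
      F (build q.1.1 q.1.2 q.2)) := (hF.comp (meas_build n)).comp q1
  exact q2.lintegral_prod_right'.lintegral_prod_right'

end ScsX

open ScsX SrX in
theorem scs_holds (hA : S_AND) (hD : S_PD) : S_SCS := by
  intro n a ha p R C ν ν0 hR hν hν0
  have ha2 : (n : ℝ) - 1 < a - 1 := by linarith
  have ha0 : 0 < a := lt_of_le_of_lt (Nat.cast_nonneg n) ha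
  have h1 := (hD n (a - 1) ha2).1
  have h2 := (hD n (a - 1) ha2).2
  have h3 := chi_prob ha0
  have h4 := chi_pos a
  have m00 : Measurable (fun X : Matrix (Fin (n + 1)) (Fin (n + 1)) ℝ =>
      ENNReal.ofReal (X 0 0 ^ ν0)) := ((meas_entry 0 0).pow_const ν0).ennreal_ofReal
  have mG : Measurable (fun X : Matrix (Fin (n + 1)) (Fin (n + 1)) ℝ =>
      ENNReal.ofReal ((R + C * X * Cᵀ).det ^ ν)) := ((meas_det R C).pow_const ν).ennreal_ofReal
  have mP : Measurable (fun X : Matrix (Fin (n + 1)) (Fin (n + 1)) ℝ =>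
      ENNReal.ofReal (X 0 0 ^ ν0) * ENNReal.ofReal ((R + C * X * Cᵀ).det ^ ν)) := m00.mul mG
  rw [lint_BW h1 m00, lint_BW h1 mG, lint_BW h1 mP]
  set G : ℝ → ℝ≥0∞ := fun t => ∫⁻ η, ∫⁻ S, ENNReal.ofReal ((R + C * build t η S * Cᵀ).det ^ ν)
    ∂(BW n (a - 1)) ∂(gauss n) with hG
  have mb := meas_build n
  have mF : Measurable (fun q : ℝ × ((Fin n → ℝ) × Matrix (Fin n) (Fin n) ℝ) =>
      ENNReal.ofReal ((R + C * build q.1 q.2.1 q.2.2 * Cᵀ).det ^ ν)) := mG.comp mb
  have mGm : Measurable G := meas_G n (a - 1) h1 _ mG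
  have mt : Measurable (fun t : ℝ => ENNReal.ofReal (t ^ ν0)) := (measurable_id.pow_const ν0).ennreal_ofReal
  have key := cheb (μ := chi a) mt mGm (Set.Ioi 0) h4 ?_ ?_
  · calc _ = (∫⁻ t, ENNReal.ofReal (t ^ ν0) ∂(chi a)) * ∫⁻ t, G t ∂(chi a) := by
          congr 1
          simp [build_00]
      _ ≤ _ := key
      _ = _ := by
          apply lintegral_congr
          intro t
          rw [hG]
          simp only [build_00]
          rw [← lintegral_const_mul']
          · apply lintegral_congr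
            intro η
            rw [← lintegral_const_mul' _ _ ENNReal.ofReal_ne_top]
          · exact ENNReal.ofReal_ne_top
  · intro x hx y hy hxy
    exact ENNReal.ofReal_le_ofReal (Real.rpow_le_rpow (le_of_lt hx) hxy hν0)
  · intro x hx y hy hxy
    have hx0 : 0 < x := hx
    have hy0 : 0 < y := hy
    have sw : ∀ t : ℝ, G t = ∫⁻ S, ∫⁻ η, ENNReal.ofReal ((R + C * build t η S * Cᵀ).det ^ ν)
        ∂(gauss n) ∂(BW n (a - 1)) := by
      intro t
      rw [hG]
      apply lintegral_lintegral_swap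
      exact (mF.comp (measurable_const.prodMk measurable_id)).aemeasurable
    rw [sw x, sw y]
    apply lintegral_mono_ae
    filter_upwards [h2] with S hS
    have hAp : (R + C.submatrix id Fin.succ * S * (C.submatrix id Fin.succ)ᵀ).PosDef := by
      apply hR.add_posSemidef
      have := hS.posSemidef.mul_mul_conjTranspose_same (C.submatrix id Fin.succ)
      rwa [Matrix.conjTranspose_eq_transpose_of_trivial] at this
    have hform : ∀ t : ℝ, 0 < t → ∀ η : Fin n → ℝ, R + C * build t η S * Cᵀ =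
        (R + C.submatrix id Fin.succ * S * (C.submatrix id Fin.succ)ᵀ) +
          vecMulVec (√t • (fun i => C i 0) + (C.submatrix id Fin.succ) *ᵥ η)
            (√t • (fun i => C i 0) + (C.submatrix id Fin.succ) *ᵥ η) := by
      intro t ht η
      rw [conj_build ht.le]
      have hv : C *ᵥ rr t η = √t • (fun i => C i 0) + (C.submatrix id Fin.succ) *ᵥ η := by
        ext i
        simp [Matrix.mulVec, dotProduct, rr, Fin.sum_univ_succ, mul_comm]
      rw [hv]
      abel
    have := hA p n _ (C.submatrix id Fin.succ) (fun i => C i 0) ν hAp hν (√x) (√y)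
      (Real.sqrt_nonneg _) (Real.sqrt_le_sqrt hxy)
    simp only [hform x hx0, hform y hy0]
    exact this

end Pool.Agent.TH435.WG
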