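import Pool.Agent.H98.WG.Stmts

set_option autoImplicit false
open MeasureTheory ProbabilityTheory Matrix
open scoped ENNReal

namespace Pool.Agent.TH435.WG

/-- Scalar case for a single block, no condition on the size. -/
def S_SCS : Prop := ∀ (n : ℕ) (a : ℝ), (n : ℝ) < a → ∀ (p : ℕ) (R : Matrix (Fin p) (Fin p) ℝ)
  (C : Matrix (Fin p) (Fin (n + 1)) ℝ) (ν ν0 : ℝ), R.PosDef → 0 ≤ ν → 0 ≤ ν0 →
  (∫⁻ X, ENNReal.ofReal (X 0 0 ^ ν0) ∂(BW (n + 1) a)) *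
    (∫⁻ X, ENNReal.ofReal ((R + C * X * Cᵀ).det ^ ν) ∂(BW (n + 1) a)) ≤
  ∫⁻ X, ENNReal.ofReal (X 0 0 ^ ν0) * ENNReal.ofReal ((R + C * X * Cᵀ).det ^ ν) ∂(BW (n + 1) a)

end Pool.Agent.TH435.WG
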