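import Pool.Agent.H98.WG.Stmts

set_option autoImplicit false
open MeasureTheory ProbabilityTheory Matrix
open scoped ENNReal

namespace Pool.Agent.TH435.WG

namespace Wrec

lemma symMat_measurable {ι : Type*} : Measurable (symMat : (Sym2 ι → ℝ) → Matrix ι ι ℝ) := by
  refine measurable_pi_iff.2 fun i => measurable_pi_iff.2 fun j => ?_
  exact measurable_pi_apply s(i, j)

lemma symMat_herm {ι : Type*} (x : Sym2 ι → ℝ) : (symMat x).IsHermitian := by
  ext i j
  simp [symMat, Sym2.eq_swap]

lemma isOpen_cone (ι : Type*) [Fintype ι] : IsOpen (cone ι) := by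
  rw [← isClosed_compl_iff]
  have key : (cone ι)ᶜ = Prod.snd '' {p : (Metric.sphere (0 : ι → ℝ) 1) × (Sym2 ι → ℝ) |
      ∑ i, (p.1 : ι → ℝ) i * ∑ j, p.2 s(i, j) * (p.1 : ι → ℝ) j ≤ 0} := by
    ext x
    constructor
    · intro hx
      by_contra hcon
      apply hx
      show (symMat x).PosDef
      refine Matrix.PosDef.of_dotProduct_mulVec_pos (symMat_herm x) fun w hw => ?_
      have hn : 0 < ‖w‖ := norm_pos_iff.2 hw
      by_contra hneg
      push Not at hneg
      apply hcon
      refine ⟨(⟨‖w‖⁻¹ • w, ?_⟩, x), ?_, rfl⟩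
      · rw [mem_sphere_zero_iff_norm, norm_smul, norm_inv, norm_norm, inv_mul_cancel₀ hn.ne']
      · show ∑ i, (‖w‖⁻¹ • w) i * ∑ j, x s(i, j) * (‖w‖⁻¹ • w) j ≤ 0
        have e : ∑ i, (‖w‖⁻¹ • w) i * ∑ j, x s(i, j) * (‖w‖⁻¹ • w) j
            = ‖w‖⁻¹ ^ 2 * (star w ⬝ᵥ (symMat x *ᵥ w)) := by
          simp only [dotProduct, mulVec, symMat, Matrix.of_apply, Pi.smul_apply, smul_eq_mul,
            Finset.mul_sum, star_trivial]
          refine Finset.sum_congr rfl fun i _ => Finset.sum_congr rfl fun j _ => ?_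
          ring
        rw [e]
        exact mul_nonpos_of_nonneg_of_nonpos (by positivity) hneg
    · rintro ⟨⟨⟨v, hv⟩, y⟩, hp, rfl⟩ hx
      have hx' : (symMat y).PosDef := hx
      have hv0 : v ≠ 0 := by
        rintro rfl
        simp at hv
      have h1 := hx'.dotProduct_mulVec_pos hv0
      have h2 : ∑ i, v i * ∑ j, y s(i, j) * v j ≤ 0 := hp
      have e : star v ⬝ᵥ (symMat y *ᵥ v) = ∑ i, v i * ∑ j, y s(i, j) * v j := by
        simp only [dotProduct, mulVec, symMat, Matrix.of_apply, star_trivial]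
      rw [e] at h1
      exact absurd h1 (not_lt.2 h2)
  rw [key]
  refine isClosedMap_snd_of_compactSpace _ ?_
  refine isClosed_le ?_ continuous_const
  have hc : ∀ i, Continuous (fun p : (Metric.sphere (0 : ι → ℝ) 1) × (Sym2 ι → ℝ) =>
      (p.1 : ι → ℝ) i) := fun i =>
    (continuous_apply i).comp (continuous_subtype_val.comp continuous_fst)
  refine continuous_finsetSum _ fun i _ => (hc i).mul (continuous_finsetSum _ fun j _ => ?_)
  exact ((continuous_apply s(i, j)).comp continuous_snd).mul (hc j)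

lemma measurableSet_cone (ι : Type*) [Fintype ι] : MeasurableSet (cone ι) :=
  (isOpen_cone ι).measurableSet

lemma build_measurable (n : ℕ) : Measurable
    (fun q : ℝ × ((Fin n → ℝ) × Matrix (Fin n) (Fin n) ℝ) => build q.1 q.2.1 q.2.2) := by
  refine measurable_pi_iff.2 fun i => measurable_pi_iff.2 fun j => ?_
  refine Fin.cases ?_ (fun i' => ?_) i <;> refine Fin.cases ?_ (fun j' => ?_) j
  · show Measurable (fun q : ℝ × ((Fin n → ℝ) × Matrix (Fin n) (Fin n) ℝ) => q.1)
    exact measurable_fst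
  · show Measurable (fun q : ℝ × ((Fin n → ℝ) × Matrix (Fin n) (Fin n) ℝ) => √q.1 * q.2.1 j')
    exact (measurable_fst.sqrt).mul ((measurable_pi_apply j').comp
      (measurable_fst.comp measurable_snd))
  · show Measurable (fun q : ℝ × ((Fin n → ℝ) × Matrix (Fin n) (Fin n) ℝ) => √q.1 * q.2.1 i')
    exact (measurable_fst.sqrt).mul ((measurable_pi_apply i').comp
      (measurable_fst.comp measurable_snd))
  · show Measurable (fun q : ℝ × ((Fin n → ℝ) × Matrix (Fin n) (Fin n) ℝ) =>
      q.2.2 i' j' + q.2.1 i' * q.2.1 j')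
    refine Measurable.add ?_ (Measurable.mul ?_ ?_)
    · have h1 : Measurable (fun S : Matrix (Fin n) (Fin n) ℝ => S i' j') :=
        (measurable_pi_apply j').comp (measurable_pi_apply (X := fun _ => Fin n → ℝ) i')
      exact h1.comp (measurable_snd.comp measurable_snd)
    · exact (measurable_pi_apply i').comp (measurable_fst.comp measurable_snd)
    · exact (measurable_pi_apply j').comp (measurable_fst.comp measurable_snd)

/-- the coordinates of `η ηᵀ` -/
def ww {n : ℕ} (η : Fin n → ℝ) : Sym2 (Fin n) → ℝ :=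
  Sym2.lift ⟨fun i j => η i * η j, fun _ _ => mul_comm _ _⟩

lemma symMat_glue {n : ℕ} (t : ℝ) (η : Fin n → ℝ) (z : Sym2 (Fin n) → ℝ) :
    symMat (glue t (√t • η) (z + ww η)) = build t η (symMat z) := by
  ext i j
  refine Fin.cases ?_ (fun i' => ?_) i <;> refine Fin.cases ?_ (fun j' => ?_) j <;>
    simp [symMat, glue, build, ww]

lemma glue_pos {n : ℕ} (t : ℝ) (v : Fin n → ℝ) (z : Sym2 (Fin n) → ℝ)
    (h : glue t v z ∈ cone (Fin (n + 1))) : 0 < t := by
  have h' : (symMat (glue t v z)).PosDef := h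
  have h1 := h'.dotProduct_mulVec_pos (x := Pi.single 0 1) (by
    intro h0
    have := congrFun h0 0
    simp at this)
  have e : star (Pi.single 0 1 : Fin (n + 1) → ℝ) ⬝ᵥ
      (symMat (glue t v z) *ᵥ (Pi.single 0 1)) = t := by
    simp [symMat, glue]
  rw [e] at h1
  exact h1

/-- the density of `Wun` -/
noncomputable def dens (n : ℕ) (a : ℝ) (x : Sym2 (Fin n) → ℝ) : ℝ≥0∞ :=
  ENNReal.ofReal ((symMat x).det ^ ((a - n - 1) / 2) * Real.exp (-((symMat x).trace / 2)))

lemma dens_measurable (n : ℕ) (a : ℝ) : Measurable (dens n a) := by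
  unfold dens
  have h1 : Continuous (fun x : Sym2 (Fin n) → ℝ => (symMat x).det) := by
    apply Continuous.matrix_det
    refine continuous_matrix fun i j => ?_
    exact continuous_apply s(i, j)
  have h2 : Continuous (fun x : Sym2 (Fin n) → ℝ => (symMat x).trace) := by
    apply Continuous.matrix_trace
    refine continuous_matrix fun i j => ?_
    exact continuous_apply s(i, j)
  exact ((h1.measurable.pow_const _).mul (h2.measurable.div_const 2).neg.exp).ennreal_ofReal

lemma lintegral_Wun (n : ℕ) (a : ℝ) (f : (Sym2 (Fin n) → ℝ) → ℝ≥0∞) :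
    ∫⁻ x, f x ∂(Wun n a) = ∫⁻ x, (cone (Fin n)).indicator (fun x => dens n a x * f x) x := by
  have e : Wun n a = ((volume : Measure (Sym2 (Fin n) → ℝ)).restrict (cone (Fin n))).withDensity
    (dens n a) := rfl
  rw [e, lintegral_withDensity_eq_lintegral_mul_non_measurable _ (dens_measurable n a)
    (Filter.Eventually.of_forall fun x => ENNReal.ofReal_lt_top)]
  rw [lintegral_indicator (measurableSet_cone _)]
  rfl

lemma scale {n : ℕ} (r : ℝ) (hr : 0 < r) (F : (Fin n → ℝ) → ℝ≥0∞) :
    ∫⁻ v, F v = ENNReal.ofReal (r ^ n) * ∫⁻ η, F (r • η) := by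
  have h1 : Measure.map (r • · : (Fin n → ℝ) → (Fin n → ℝ)) volume
      = ENNReal.ofReal (abs (r ^ (Module.finrank ℝ (Fin n → ℝ)))⁻¹) • volume :=
    Measure.map_addHaar_smul _ hr.ne'
  have h2 : ∫⁻ η, F (r • η) = ENNReal.ofReal (abs (r ^ n)⁻¹) * ∫⁻ v, F v := by
    have h3 := (Homeomorph.smulOfNeZero r hr.ne' : (Fin n → ℝ) ≃ₜ (Fin n → ℝ)).measurableEmbedding
    have h4 : ∫⁻ η, F (r • η) = ∫⁻ v, F v ∂(Measure.map (r • ·) volume) :=
      (h3.lintegral_map F).symm
    rw [h4, h1, lintegral_smul_measure, Module.finrank_fin_fun]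
    rfl
  rw [h2, ← mul_assoc, ← ENNReal.ofReal_mul (by positivity), abs_of_pos (by positivity),
    mul_inv_cancel₀ (by positivity), ENNReal.ofReal_one, one_mul]

lemma dens_build (hH : S_SCHUR) (n : ℕ) (a t : ℝ) (ht : 0 < t) (η : Fin n → ℝ)
    (z : Sym2 (Fin n) → ℝ) (hz : (symMat z).PosDef) :
    ENNReal.ofReal (√t ^ n) * dens (n + 1) a (glue t (√t • η) (z + ww η)) =
      ENNReal.ofReal (t ^ (a / 2 - 1) * Real.exp (-(t / 2))) *
        (ENNReal.ofReal (Real.exp (-((η ⬝ᵥ η) / 2))) * dens n (a - 1) z) := by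
  obtain ⟨_, hdet, htr, _⟩ := hH n t η (symMat z) ht
  unfold dens
  rw [symMat_glue, hdet, htr, ← ENNReal.ofReal_mul (by positivity),
    ← ENNReal.ofReal_mul (by positivity), ← ENNReal.ofReal_mul (by positivity)]
  congr 1
  have hd : 0 < (symMat z).det := hz.det_pos
  obtain ⟨D, hD⟩ : ∃ D, D = (symMat z).det := ⟨_, rfl⟩
  obtain ⟨T, hT⟩ : ∃ T, T = (symMat z).trace := ⟨_, rfl⟩
  obtain ⟨E, hE⟩ : ∃ E, E = η ⬝ᵥ η := ⟨_, rfl⟩
  rw [← hD] at hd
  rw [← hD, ← hT, ← hE, Real.mul_rpow ht.le hd.le]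
  have e1 : √t ^ n = t ^ ((n : ℝ) / 2) := by
    rw [Real.sqrt_eq_rpow, ← Real.rpow_natCast, ← Real.rpow_mul ht.le]
    congr 1; ring
  have e2 : t ^ ((n : ℝ) / 2) * t ^ ((a - ((n + 1 : ℕ) : ℝ) - 1) / 2) = t ^ (a / 2 - 1) := by
    rw [← Real.rpow_add ht]
    congr 1; push_cast; ring
  have e3 : (a - ((n + 1 : ℕ) : ℝ) - 1) / 2 = (a - 1 - n - 1) / 2 := by push_cast; ring
  have e4 : Real.exp (-((t + E + T) / 2))
      = Real.exp (-(t / 2)) * (Real.exp (-(E / 2)) * Real.exp (-(T / 2))) := by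
    rw [← Real.exp_add, ← Real.exp_add]
    congr 1; ring
  rw [e4, e1, ← e2, ← e3]
  ring

end Wrec

open Wrec in
theorem wrec_holds (hG : S_GLUE) (hH : S_SCHUR) : S_WREC := by
  intro n a
  refine Measure.ext_of_lintegral _ fun H hHm => ?_
  -- left side
  have hΦm : Measurable ((cone (Fin (n + 1))).indicator
      (fun x => dens (n + 1) a x * H (symMat x))) :=
    ((dens_measurable (n + 1) a).mul (hHm.comp symMat_measurable)).indicator
      (measurableSet_cone _)
  obtain ⟨Φ, hΦ⟩ : ∃ Φ, Φ = (cone (Fin (n + 1))).indicator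
      (fun x => dens (n + 1) a x * H (symMat x)) := ⟨_, rfl⟩
  rw [← hΦ] at hΦm
  have hL : ∫⁻ X, H X ∂((Wun (n + 1) a).map symMat)
      = ∫⁻ t, ∫⁻ v, ∫⁻ z, Φ (glue t v z) := by
    rw [lintegral_map hHm symMat_measurable, lintegral_Wun, ← hΦ,
      ← (hG n).lintegral_comp hΦm]
    have hm : Measurable (fun q : ℝ × ((Fin n → ℝ) × (Sym2 (Fin n) → ℝ)) =>
        Φ (glue q.1 q.2.1 q.2.2)) := hΦm.comp (hG n).measurable
    rw [lintegral_prod _ hm.aemeasurable]
    refine lintegral_congr fun t => ?_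
    rw [lintegral_prod]
    exact (hm.comp (measurable_const.prodMk measurable_id)).aemeasurable
  -- right side
  have hbm := build_measurable n
  have hR : ∫⁻ X, H X ∂(((((volume : Measure ℝ).restrict (Set.Ioi 0)).withDensity
        fun t => ENNReal.ofReal (t ^ (a / 2 - 1) * Real.exp (-(t / 2)))).prod
      (((volume : Measure (Fin n → ℝ)).withDensity
        fun η => ENNReal.ofReal (Real.exp (-((η ⬝ᵥ η) / 2)))).prod
        ((Wun n (a - 1)).map symMat))).map fun q => build q.1 q.2.1 q.2.2)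
      = ∫⁻ t in Set.Ioi 0, ENNReal.ofReal (t ^ (a / 2 - 1) * Real.exp (-(t / 2))) *
        ∫⁻ η, ENNReal.ofReal (Real.exp (-((η ⬝ᵥ η) / 2))) *
          ∫⁻ z, (cone (Fin n)).indicator
            (fun z => dens n (a - 1) z * H (build t η (symMat z))) z := by
    have : SFinite (Wun n (a - 1)) := by unfold Wun; infer_instance
    have hm0 : Measurable (fun q : ℝ × ((Fin n → ℝ) × Matrix (Fin n) (Fin n) ℝ) =>
        H (build q.1 q.2.1 q.2.2)) := hHm.comp hbm
    rw [lintegral_map hHm hbm, lintegral_prod _ hm0.aemeasurable]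
    rw [lintegral_withDensity_eq_lintegral_mul_non_measurable _ (by fun_prop)
      (Filter.Eventually.of_forall fun x => ENNReal.ofReal_lt_top)]
    refine lintegral_congr fun t => ?_
    simp only [Pi.mul_apply]
    congr 1
    have hm1 : Measurable (fun p : (Fin n → ℝ) × Matrix (Fin n) (Fin n) ℝ =>
        H (build t p.1 p.2)) := (hHm.comp hbm).comp (measurable_const.prodMk measurable_id)
    rw [lintegral_prod _ hm1.aemeasurable]
    rw [lintegral_withDensity_eq_lintegral_mul_non_measurable _ (by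
        have : Continuous (fun η : Fin n → ℝ => η ⬝ᵥ η) := by
          simp only [dotProduct]; fun_prop
        exact (this.measurable.div_const 2).neg.exp.ennreal_ofReal)
      (Filter.Eventually.of_forall fun x => ENNReal.ofReal_lt_top)]
    refine lintegral_congr fun η => ?_
    simp only [Pi.mul_apply]
    congr 1
    have hm2 : Measurable (fun S : Matrix (Fin n) (Fin n) ℝ => H (build t η S)) :=
      hm1.comp (measurable_const.prodMk measurable_id)
    rw [lintegral_map hm2 symMat_measurable, lintegral_Wun]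
  rw [hL, hR, ← lintegral_indicator measurableSet_Ioi]
  refine lintegral_congr fun t => ?_
  by_cases ht : 0 < t
  · rw [Set.indicator_of_mem (Set.mem_Ioi.2 ht)]
    have hs : 0 < √t := Real.sqrt_pos.2 ht
    rw [scale (√t) hs, ← lintegral_const_mul' _ _ ENNReal.ofReal_ne_top,
      ← lintegral_const_mul' _ _ ENNReal.ofReal_ne_top]
    refine lintegral_congr fun η => ?_
    rw [← lintegral_add_right_eq_self (fun z => Φ (glue t (√t • η) z)) (ww η),
      ← lintegral_const_mul' _ _ ENNReal.ofReal_ne_top,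
      ← lintegral_const_mul' _ _ ENNReal.ofReal_ne_top,
      ← lintegral_const_mul' _ _ ENNReal.ofReal_ne_top]
    refine lintegral_congr fun z => ?_
    rw [hΦ]
    by_cases hz : (symMat z).PosDef
    · have h1 : glue t (√t • η) (z + ww η) ∈ cone (Fin (n + 1)) := by
        show (symMat _).PosDef
        rw [symMat_glue]
        exact ((hH n t η (symMat z) ht).1).2 hz
      rw [Set.indicator_of_mem h1, Set.indicator_of_mem (show z ∈ cone (Fin n) from hz),
        ← mul_assoc, dens_build hH n a t ht η z hz, symMat_glue]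
      ring
    · have h1 : glue t (√t • η) (z + ww η) ∉ cone (Fin (n + 1)) := by
        intro h
        have h' : (symMat (glue t (√t • η) (z + ww η))).PosDef := h
        rw [symMat_glue] at h'
        exact hz (((hH n t η (symMat z) ht).1).1 h')
      rw [Set.indicator_of_notMem h1, Set.indicator_of_notMem (show z ∉ cone (Fin n) from hz),
        mul_zero, mul_zero, mul_zero]
  · rw [Set.indicator_of_notMem (show t ∉ Set.Ioi 0 from ht)]
    have h0 : ∀ v z, Φ (glue t v z) = 0 := by
      intro v z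
      rw [hΦ]
      exact Set.indicator_of_notMem (fun h => ht (glue_pos t v z h)) _
    simp only [h0, lintegral_zero]

end Pool.Agent.TH435.WG

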